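import Mathlib

/-! # Alg: identities between derivations -/

namespace Pool.Agent.MP_fe3720

variable {k R : Type*} [CommRing k] [CommRing R] [Algebra k R]

theorem alg_Q (v u : Derivation k R R) (s f g : R) (hs : v s = 1) (hf : v f = 0) (hg : v g = 0) :
    ⁅(f * s) • v, ⁅g • v, u⁆⁆ - ⁅s • v, ⁅(f * g) • v, u⁆⁆ = -((g * u f) • v) := by
  ext x
  simp only [Derivation.sub_apply, Derivation.commutator_apply, Derivation.smul_apply,
    smul_eq_mul, Derivation.leibniz, map_sub, map_add, Derivation.neg_apply, hs, hf, hg,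
    map_zero, mul_zero, add_zero, zero_add, mul_one, sub_zero]
  ring

theorem alg_c (v u : Derivation k R R) (c f : R) (hf : v f = 0) :
    ⁅c • v, u⁆ f = c * v (u f) := by
  simp [Derivation.commutator_apply, hf]

theorem alg_W (v u : Derivation k R R) (s f f' : R) (hf : v f = 0)
    (hf' : v f' = 0) :
    ⁅⁅s • v, u⁆, ⁅(f' * s) • v, u⁆⁆ f = s * v (s * u f' * v (u f)) := by
  simp only [Derivation.commutator_apply, Derivation.smul_apply,
    smul_eq_mul, Derivation.leibniz, map_sub, hf, hf', map_zero,
    mul_zero, sub_zero]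
  ring

end Pool.Agent.MP_fe3720
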