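import Pool.Agent.Work.MP_fe3720_an.Cl

/-! # Module Fin: from spanning fields with all multiples to the density property

`𝒰` is a set of continuous derivations with `F • u ∈ clLie O` for all `u ∈ 𝒰`, `F ∈ O`, which span the tangent space
at every point. Let `D` be a continuous derivation; we show `D ∈ clLie O` (`densityProperty_of`).

(1) Let `u : Fin m → 𝒰`, `f : Fin m → O`, `M = (u_i f_j) ∈ Matrix O`, `Δ = det M ∈ O`. Then `Δ² D ∈ clLie O`, more
precisely `(G * Δ * Δ) • D ∈ clLie O` for all `G ∈ O`. Put `c_i = ∑_j (D f_j) adj(M)_{j i}`, so that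
`∑_i c_i M_{i k} = (D f_k) Δ` (`Matrix.adjugate_mul`), and `E = Δ • D - ∑ c_i • u_i`, a continuous derivation
(`IsVF`) with `E f_k = 0` for all `k`. Claim: `Δ • E = 0`. Let `x` be a point. If `Δ x = 0` then `(Δ • E) h` vanishes at
`x`. If `Δ x ≠ 0` take a chart `q, κ, V` at `x`, `y = (q j x)_j`, `κ y = x`. Put `ξ_i = (u_i (q j) x)_j`,
`η = (E (q j) x)_j ∈ ℂ^m`. Then `(u_i f_j)(x) = fderiv (f_j ∘ κ) y ξ_i` has nonzero determinant, so the `ξ_i` are
linearly independent, a basis of `ℂ^m`, and `η = ∑ a_i ξ_i`; `0 = (E f_j)(x) = ∑ a_i (u_i f_j)(x)` for all `j`, so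
`a = 0` and `η = 0`; so `(E h)(x) = fderiv (h ∘ κ) y η = 0` for all `h ∈ O`. So
`(G Δ²) • D = ∑ (G Δ c_i) • u_i ∈ clLie O` (`clLie_sum`).

(2) Let `I = {g ∈ O | ∀ G ∈ O, (G * g) • D ∈ clLie O}`, an ideal of `O`. By (1) it contains all `Δ²`, so it has no
common zeros. By `IdealsDense` `1` is a limit of elements of `I`, so `D = 1 • D ∈ clLie O` by `clLie_closed`. -/

namespace Pool.Agent.MP_fe3720

open Topology

variable {X : Type} [TopologicalSpace X] {O : Subalgebra ℂ (X → ℂ)}

omit [TopologicalSpace X] in
theorem der_sum_apply {ι : Type} (s : Finset ι) (D : ι → Derivation ℂ O O) (h : O) :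
    (∑ i ∈ s, D i) h = ∑ i ∈ s, D i h := by
  classical
  induction s using Finset.induction with
  | empty => simp
  | insert i s hi ih => rw [Finset.sum_insert hi, Finset.sum_insert hi, Derivation.add_apply, ih]

/-- Cramer's rule -/
theorem cramer_mem {m : ℕ} (hO : IsClosedAlg O) (hch : HasCharts m O)
    (D : Derivation ℂ O O) (hD : IsVF D) (u : Fin m → Derivation ℂ O O)
    (hvf : ∀ i, IsVF (u i)) (hmul : ∀ i, ∀ F : O, F • u i ∈ clLie O) (f : Fin m → O) (G : O) :
    (G * (Matrix.of fun i j => u i (f j)).det * (Matrix.of fun i j => u i (f j)).det) • D ∈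
      clLie O := by
  set M : Matrix (Fin m) (Fin m) O := Matrix.of fun i j => u i (f j) with hM
  set Δ : O := M.det with hΔ
  set c : Fin m → O := fun i => ∑ j, D (f j) * M.adjugate j i with hc
  have hcM : ∀ k, ∑ i, c i * u i (f k) = D (f k) * Δ := by
    intro k
    have h1 : ∑ i, c i * M i k = ∑ j, D (f j) * (∑ i, M.adjugate j i * M i k) := by
      simp only [hc, Finset.sum_mul, Finset.mul_sum]
      rw [Finset.sum_comm]
      refine Finset.sum_congr rfl fun j _ => Finset.sum_congr rfl fun i _ => by ring
    have h2 : ∀ j, ∑ i, M.adjugate j i * M i k = if j = k then Δ else 0 := by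
      intro j
      have h3 := congrFun (congrFun (M.adjugate_mul) j) k
      rw [Matrix.mul_apply] at h3
      rw [h3, Matrix.smul_apply, Matrix.one_apply]
      split_ifs <;> simp [hΔ]
    have h3 : ∑ i, c i * u i (f k) = ∑ i, c i * M i k := rfl
    rw [h3, h1]
    simp only [h2]
    simp
  set E : Derivation ℂ O O := Δ • D - ∑ i, c i • u i with hE
  have hEapp : ∀ h : O, E h = Δ * D h - ∑ i, c i * u i h := by
    intro h
    rw [hE, Derivation.sub_apply, der_sum_apply]
    rfl
  have hEf : ∀ k, E (f k) = 0 := by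
    intro k
    rw [hEapp, hcM]
    ring
  have hEvf : IsVF E := by
    have h1 : IsVF (∑ i, c i • u i) :=
      (clLie_sum Finset.univ (fun i => c i • u i) fun i _ => hmul i (c i)).1
    have h2 : E = Δ • D + (-1 : ℂ) • (∑ i, c i • u i) := by
      apply Derivation.ext
      intro h
      apply Subtype.ext
      funext x
      rw [hE]
      show (Δ x * (D h) x) - ((∑ i, c i • u i : Derivation ℂ O O) h) x =
        (Δ x * (D h) x) + (-1 : ℂ) * ((∑ i, c i • u i : Derivation ℂ O O) h) x
      ring
    rw [h2]
    exact (hD.fsmul hO.cont Δ).add (h1.csmul _)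
  -- `Δ • E = 0`
  have hΔE : ∀ (h : O) (x : X), Δ x * (E h) x = 0 := by
    intro h x
    by_cases hx : Δ x = 0
    · rw [hx, zero_mul]
    · have hEx : (E h) x = 0 := by
        obtain ⟨q, κ, V, hV, hy₀, hκ₀, hκ, hq, hopen, hf, htan⟩ := hch x
        set y : Fin m → ℂ := fun j => (q j) x with hy
        have htan' : ∀ D' : Derivation ℂ O O, IsVF D' → ∀ g : O,
            (D' g) x = fderiv ℂ (fun y => g (κ y)) y (fun j => (D' (q j)) x) := by
          intro D' hD' g
          have := htan D' hD' g y hy₀
          rwa [hκ₀] at this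
        set ξ : Fin m → (Fin m → ℂ) := fun i j => (u i (q j)) x with hξ
        -- the matrix at `x`
        have hdet : (Matrix.of fun i j => (u i (f j)) x).det ≠ 0 := by
          have h1 : Δ x = (Matrix.of fun i j => (u i (f j)) x).det := by
            have h2 := RingHom.map_det ((Pi.evalRingHom (fun _ : X => ℂ) x).comp O.val.toRingHom) M
            exact h2
          rw [← h1]; exact hx
        have hli : LinearIndependent ℂ ξ := by
          rw [Fintype.linearIndependent_iff]
          intro a ha
          have h1 : Matrix.vecMul a (Matrix.of fun i j => (u i (f j)) x) = 0 := by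
            funext j
            show ∑ i, a i * (u i (f j)) x = 0
            have h2 : ∀ i, (u i (f j)) x = fderiv ℂ (fun y => (f j) (κ y)) y (ξ i) :=
              fun i => htan' (u i) (hvf i) (f j)
            simp only [h2]
            have h3 : ∑ i, a i * fderiv ℂ (fun y => (f j) (κ y)) y (ξ i) =
                fderiv ℂ (fun y => (f j) (κ y)) y (∑ i, a i • ξ i) := by
              rw [map_sum]
              refine Finset.sum_congr rfl fun i _ => ?_
              rw [map_smul, smul_eq_mul]
            rw [h3, ha, map_zero]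
          have h2 := Matrix.eq_zero_of_vecMul_eq_zero hdet h1
          exact fun i => congrFun h2 i
        have hspan : Submodule.span ℂ (Set.range ξ) = ⊤ :=
          hli.span_eq_top_of_card_eq_finrank' (by simp)
        obtain ⟨a, ha⟩ := (Submodule.mem_span_range_iff_exists_fun ℂ).mp
          (hspan ▸ Submodule.mem_top : (fun j => (E (q j)) x) ∈ Submodule.span ℂ (Set.range ξ))
        have ha0 : a = 0 := by
          have h1 : Matrix.vecMul a (Matrix.of fun i j => (u i (f j)) x) = 0 := by
            funext j
            show ∑ i, a i * (u i (f j)) x = 0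
            have h2 : ∀ i, (u i (f j)) x = fderiv ℂ (fun y => (f j) (κ y)) y (ξ i) :=
              fun i => htan' (u i) (hvf i) (f j)
            simp only [h2]
            have h3 : ∑ i, a i * fderiv ℂ (fun y => (f j) (κ y)) y (ξ i) =
                fderiv ℂ (fun y => (f j) (κ y)) y (∑ i, a i • ξ i) := by
              rw [map_sum]
              refine Finset.sum_congr rfl fun i _ => ?_
              rw [map_smul, smul_eq_mul]
            rw [h3, ha, ← htan' E hEvf (f j), hEf]
            rfl
          exact Matrix.eq_zero_of_vecMul_eq_zero hdet h1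
        rw [htan' E hEvf h, ← ha, ha0]
        simp
      rw [hEx, mul_zero]
  have hfin : (G * Δ * Δ) • D = ∑ i, (G * Δ * c i) • u i := by
    apply Derivation.ext
    intro h
    rw [der_sum_apply]
    have h1 : Δ * E h = 0 := by
      apply Subtype.ext
      funext x
      exact hΔE h x
    have h2 : (∑ i, ((G * Δ * c i) • u i) h) = G * Δ * ∑ i, c i * u i h := by
      rw [Finset.mul_sum]
      refine Finset.sum_congr rfl fun i _ => ?_
      show G * Δ * c i * u i h = _
      ring
    rw [h2]
    show G * Δ * Δ * D h = _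
    rw [hEapp] at h1
    linear_combination G * h1
  rw [hfin]
  exact clLie_sum _ _ fun i _ => hmul i _

theorem density_of_span {m : ℕ} (hO : IsClosedAlg O) (hch : HasCharts m O)
    (hI : IdealsDense O) (𝒰 : Set (Derivation ℂ O O)) (hvf : ∀ u ∈ 𝒰, IsVF u)
    (hmul : ∀ u ∈ 𝒰, ∀ F : O, F • u ∈ clLie O)
    (hspan : ∀ x : X, ∃ (u : Fin m → Derivation ℂ O O) (f : Fin m → O), (∀ i, u i ∈ 𝒰) ∧
      (Matrix.of fun i j => (u i (f j)) x).det ≠ 0) : DensityProperty O := by
  refine densityProperty_of fun D hD => ?_
  let I : Ideal O :=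
    { carrier := {g | ∀ G : O, (G * g) • D ∈ clLie O}
      add_mem' := by
        intro a b ha hb G
        rw [mul_add, add_smul]
        exact clLie_add (ha G) (hb G)
      zero_mem' := by
        intro G
        rw [mul_zero, zero_smul]
        exact clLie_zero
      smul_mem' := by
        intro c g hg G
        have h := hg (G * c)
        rwa [mul_assoc] at h }
  have hz : ∀ x : X, ∃ g ∈ I, g x ≠ 0 := by
    intro x
    obtain ⟨u, f, hu, hdet⟩ := hspan x
    set Δ : O := (Matrix.of fun i j => u i (f j)).det with hΔ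
    refine ⟨Δ * Δ, fun G => ?_, ?_⟩
    · have h := cramer_mem hO hch D hD u (fun i => hvf _ (hu i)) (fun i => hmul _ (hu i)) f G
      rw [← mul_assoc]
      exact h
    · have h1 : Δ x = (Matrix.of fun i j => (u i (f j)) x).det :=
        RingHom.map_det ((Pi.evalRingHom (fun _ : X => ℂ) x).comp O.val.toRingHom)
          (Matrix.of fun i j => u i (f j))
      show Δ x * Δ x ≠ 0
      rw [h1]
      exact mul_ne_zero hdet hdet
  have h1 : (1 : O) • D ∈ clLie O := by
    refine clLie_closed hO.cont hD 1 fun K hK ε hε => ?_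
    obtain ⟨g, hg, h2⟩ := hI I hz K hK ε hε
    refine ⟨g, ?_, fun x hx => h2 x hx⟩
    have h3 := hg 1
    rwa [one_mul] at h3
  rwa [one_smul] at h1

end Pool.Agent.MP_fe3720
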