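import Mathlib

/-! # Module FrobCalc: inverse function theorem with values in a product

`G : E₁ × E₂ → E₃` is `C¹` near `0` (`ContDiffAt ℂ 1 G 0`) with bijective derivative at `0`, `S` is a neighbourhood of
`0`. There are an open `𝒩 ∋ 0`, `𝒩 ⊆ S`, an open `𝒱`, and `H : E₃ → E₁ × E₂` such that `G`, `H` are inverse bijections
between `𝒩` and `𝒱`, `G` is differentiable on `𝒩` with injective derivative, `H` is differentiable on `𝒱` and
`fderiv H (G n) ∘ fderiv G n = id`.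

Proof: `ContDiffAt.toOpenPartialHomeomorph`; restrict the source to an open set contained in `S` where
`G` is `C¹` and `fderiv G n` is invertible (`ContDiffAt` gives a neighbourhood where `G` is differentiable
with continuous derivative — e.g. `ContDiffAt.eventually`/`contDiffAt_succ_iff_hasFDerivAt`;
invertibility is open: `ContinuousLinearEquiv.nhds`); `OpenPartialHomeomorph.hasFDerivAt_symm`. -/

namespace Pool.Agent.MP_fe3720

open Topology

/-- inverse function theorem for a `C¹` map between finite dimensional spaces, with the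
derivatives under control on the whole domain -/
theorem inverse_general {E F : Type} [NormedAddCommGroup E] [NormedSpace ℂ E]
    [FiniteDimensional ℂ E] [NormedAddCommGroup F] [NormedSpace ℂ F] [FiniteDimensional ℂ F]
    (G : E → F) (a : E) (hG : ContDiffAt ℂ 1 G a)
    (hbij : Function.Bijective (fderiv ℂ G a)) (S : Set E) (hS : S ∈ 𝓝 a) :
    ∃ (𝒩 : Set E) (𝒱 : Set F) (H : F → E),
      IsOpen 𝒩 ∧ a ∈ 𝒩 ∧ 𝒩 ⊆ S ∧ IsOpen 𝒱 ∧
      (∀ n ∈ 𝒩, G n ∈ 𝒱 ∧ H (G n) = n ∧ ContDiffAt ℂ 1 G n ∧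
        Function.Injective (fderiv ℂ G n)) ∧
      (∀ y ∈ 𝒱, H y ∈ 𝒩 ∧ G (H y) = y ∧ ContDiffAt ℂ 1 H y ∧
        ∀ e : E, fderiv ℂ H y (fderiv ℂ G (H y) e) = e) := by
  have : CompleteSpace E := FiniteDimensional.complete ℂ E
  have : CompleteSpace F := FiniteDimensional.complete ℂ F
  let e₀ : E ≃L[ℂ] F := (LinearEquiv.ofBijective (fderiv ℂ G a).toLinearMap
    hbij).toContinuousLinearEquiv
  have he₀ : (e₀ : E →L[ℂ] F) = fderiv ℂ G a := by
    ext v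
    rfl
  have hGd : HasFDerivAt G (e₀ : E →L[ℂ] F) a := by
    rw [he₀]
    exact (hG.differentiableAt (by norm_num)).hasFDerivAt
  let e := hG.toOpenPartialHomeomorph G hGd (by norm_num)
  have heG : ∀ x, e x = G x := fun x => by
    rw [hG.toOpenPartialHomeomorph_coe hGd (by norm_num)]
  have hea : a ∈ e.source := hG.mem_toOpenPartialHomeomorph_source hGd (by norm_num)
  -- good points
  have h1 : ∀ᶠ x in 𝓝 a, ContDiffAt ℂ 1 G x := hG.eventually (by simp)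
  have h2 : ∀ᶠ x in 𝓝 a, fderiv ℂ G x ∈ Set.range ((↑) : (E ≃L[ℂ] F) → (E →L[ℂ] F)) := by
    have h3 : ContinuousAt (fderiv ℂ G) a := by
      have := (hG.fderiv_right (m := 0) (by simp)).continuousAt
      exact this
    refine h3.eventually ?_
    rw [← he₀]
    exact ContinuousLinearEquiv.nhds e₀
  have h3 : ∀ᶠ x in 𝓝 a, ContDiffAt ℂ 1 G x ∧
      fderiv ℂ G x ∈ Set.range ((↑) : (E ≃L[ℂ] F) → (E →L[ℂ] F)) ∧ x ∈ S ∧ x ∈ e.source :=
    h1.and (h2.and (Filter.Eventually.and hS (e.open_source.mem_nhds hea)))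
  obtain ⟨𝒩, hN1, hN2, hN3⟩ := eventually_nhds_iff.mp h3
  have hNs : 𝒩 ⊆ e.source := fun x hx => (hN1 x hx).2.2.2
  refine ⟨𝒩, e '' 𝒩, e.symm, hN2, hN3, fun x hx => (hN1 x hx).2.2.1,
    e.isOpen_image_of_subset_source hN2 hNs, ?_, ?_⟩
  · intro n hn
    obtain ⟨c1, ⟨A, hA⟩, -, -⟩ := hN1 n hn
    refine ⟨⟨n, hn, heG n⟩, ?_, c1, ?_⟩
    · rw [← heG]
      exact e.left_inv (hNs hn)
    · rw [← hA]
      exact A.injective
  · rintro _ ⟨n, hn, rfl⟩
    obtain ⟨c1, ⟨A, hA⟩, -, -⟩ := hN1 n hn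
    have h4 : e.symm (e n) = n := e.left_inv (hNs hn)
    have hder : HasFDerivAt e (A : E →L[ℂ] F) (e.symm (e n)) := by
      rw [h4]
      have h5 : (e : E → F) = G := funext heG
      rw [h5, hA]
      exact (c1.differentiableAt (by norm_num)).hasFDerivAt
    have hcd : ContDiffAt ℂ 1 e (e.symm (e n)) := by
      rw [h4]
      have h5 : (e : E → F) = G := funext heG
      rw [h5]
      exact c1
    have hsymm : ContDiffAt ℂ 1 e.symm (e n) :=
      e.contDiffAt_symm (e.map_source (hNs hn)) hder hcd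
    refine ⟨by rw [h4]; exact hn, by rw [h4, heG], hsymm, fun v => ?_⟩
    have hsd : HasFDerivAt e.symm (A.symm : F →L[ℂ] E) (e n) :=
      e.hasFDerivAt_symm (e.map_source (hNs hn)) hder
    rw [hsd.fderiv, h4, ← hA]
    exact A.symm_apply_apply v

variable {E₁ E₂ E₃ : Type} [NormedAddCommGroup E₁] [NormedSpace ℂ E₁] [FiniteDimensional ℂ E₁]
  [NormedAddCommGroup E₂] [NormedSpace ℂ E₂] [FiniteDimensional ℂ E₂]
  [NormedAddCommGroup E₃] [NormedSpace ℂ E₃] [FiniteDimensional ℂ E₃]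

theorem inverse_box (G : E₁ × E₂ → E₃) (hG : ContDiffAt ℂ 1 G 0)
    (hbij : Function.Bijective (fderiv ℂ G 0)) (S : Set (E₁ × E₂)) (hS : S ∈ 𝓝 0) :
    ∃ (𝒩 : Set (E₁ × E₂)) (𝒱 : Set E₃) (H : E₃ → E₁ × E₂),
      IsOpen 𝒩 ∧ (0 : E₁ × E₂) ∈ 𝒩 ∧ 𝒩 ⊆ S ∧ IsOpen 𝒱 ∧
      (∀ n ∈ 𝒩, G n ∈ 𝒱 ∧ H (G n) = n ∧ DifferentiableAt ℂ G n ∧
        Function.Injective (fderiv ℂ G n)) ∧
      (∀ y ∈ 𝒱, H y ∈ 𝒩 ∧ G (H y) = y ∧ DifferentiableAt ℂ H y ∧
        ∀ e : E₁ × E₂, fderiv ℂ H y (fderiv ℂ G (H y) e) = e) := by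
  obtain ⟨𝒩, 𝒱, H, h1, h2, h3, h4, h5, h6⟩ := inverse_general G 0 hG hbij S hS
  refine ⟨𝒩, 𝒱, H, h1, h2, h3, h4, fun n hn => ?_, fun y hy => ?_⟩
  · obtain ⟨a, b, c, d⟩ := h5 n hn
    exact ⟨a, b, c.differentiableAt (by norm_num), d⟩
  · obtain ⟨a, b, c, d⟩ := h6 y hy
    exact ⟨a, b, c.differentiableAt (by norm_num), d⟩

end Pool.Agent.MP_fe3720
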