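import Pool.Agent.Work.MP_fe3720_an.Defs

/-! # The two forms of the definitions agree -/

namespace Pool.Agent.DensityRR

open Topology Pool.Agent.MP_fe3720

variable {X : Type} [TopologicalSpace X]

theorem density_iff (O : Subalgebra ℂ (X → ℂ)) :
    DensityProperty O ↔ MP_fe3720.DensityProperty O := Iff.rfl

theorem rr_iff (O : Subalgebra ℂ (X → ℂ)) : IsRR O ↔ MP_fe3720.IsRR O := by
  constructor
  · rintro ⟨T, h1, h2, h3, h4, v, hv, hv0, f, hf, hvf⟩
    exact ⟨T, h1, h2, h3, h4, v, hv, hv0, f, hf, Subtype.ext hvf⟩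
  · rintro ⟨T, h1, h2, h3, h4, v, hv, hv0, f, hf, hvf⟩
    exact ⟨T, h1, h2, h3, h4, v, hv, hv0, f, hf, congrArg Subtype.val hvf⟩

end Pool.Agent.DensityRR
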