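import Pool.Agent.Work.MP_fe3720_an.Base

/-! # Module Closed: closed algebras

All elements of `Algebra.adjoin ℂ (range g)` are continuous (the proof is in `Defs.closedAlg`,
`mul_mem'`).

* `closedAlg_cont`: let `x` be a point, `K` a compact neighbourhood of `x`; `f` is on `K` a uniform
  limit of continuous functions (for every ε there is `P` with `‖f - P‖ < ε` on `K`), hence
  continuous at `x` (ε/3, or `continuous_of_uniform_approx_of_continuous`, or
  `TendstoLocallyUniformly.continuous`).
* `closedAlg_isClosedAlg`: if `f` is within ε/2 of `g ∈ closedAlg` on `K` and `g` within ε/2 of `P`.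
* `comp_mem`: the set of the functions `P` with `P ∘ θ ∈ O` is a subalgebra containing the `g i`, so
  it contains `Algebra.adjoin`; for `f ∈ closedAlg g` and `K` compact, `θ '' K` is compact and
  `f` is within ε of `P` on `θ '' K`, then `f ∘ θ` is within ε of `P ∘ θ ∈ O` on `K`; use
  `hO.closed`. -/

namespace Pool.Agent.MP_fe3720

open Topology

variable {X X' : Type} [TopologicalSpace X] [TopologicalSpace X']

theorem adjoin_cont {ι : Type} (g : ι → C(X, ℂ)) (P : X → ℂ)
    (hP : P ∈ Algebra.adjoin ℂ (Set.range fun i => (g i : X → ℂ))) : Continuous P := by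
  induction hP using Algebra.adjoin_induction with
  | mem x hx => obtain ⟨i, rfl⟩ := hx; exact (g i).continuous
  | algebraMap r => exact continuous_const
  | add x y _ _ hx hy => exact hx.add hy
  | mul x y _ _ hx hy => exact hx.mul hy

theorem closedAlg_cont [WeaklyLocallyCompactSpace X] {ι : Type} (g : ι → C(X, ℂ)) (f : X → ℂ)
    (hf : f ∈ closedAlg g) : Continuous f := by
  rw [continuous_iff_continuousAt]
  intro x
  obtain ⟨K, hK, hKx⟩ := exists_compact_mem_nhds x
  rw [Metric.continuousAt_iff']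
  intro ε hε
  obtain ⟨P, hP, h⟩ := hf K hK (ε / 3) (by positivity)
  have hc := adjoin_cont g P hP
  have h1 : ∀ᶠ y in 𝓝 x, dist (P y) (P x) < ε / 3 :=
    Metric.continuousAt_iff'.mp hc.continuousAt (ε / 3) (by positivity)
  filter_upwards [h1, hKx] with y hy1 hy2
  have a1 := h y hy2
  have a2 := h x (mem_of_mem_nhds hKx)
  rw [dist_eq_norm] at hy1 ⊢
  have h3 : f y - f x = (f y - P y) + (P y - P x) + -(f x - P x) := by ring
  rw [h3]
  have b1 := norm_add_le ((f y - P y) + (P y - P x)) (-(f x - P x))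
  have b2 := norm_add_le (f y - P y) (P y - P x)
  rw [norm_neg] at b1
  linarith

theorem closedAlg_isClosedAlg [WeaklyLocallyCompactSpace X] {ι : Type} (g : ι → C(X, ℂ)) :
    IsClosedAlg (closedAlg g) := by
  refine ⟨fun f hf => closedAlg_cont g f hf, fun f hf K hK ε hε => ?_⟩
  obtain ⟨f', hf', h1⟩ := hf K hK (ε / 2) (by positivity)
  obtain ⟨P, hP, h2⟩ := hf' K hK (ε / 2) (by positivity)
  refine ⟨P, hP, fun x hx => ?_⟩
  have a1 := h1 x hx
  have a2 := h2 x hx
  have h3 : f x - P x = (f x - f' x) + (f' x - P x) := by ring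
  rw [h3]
  have := norm_add_le (f x - f' x) (f' x - P x)
  linarith

theorem adjoin_mem {ι : Type} (g : ι → C(X, ℂ)) (P : X → ℂ)
    (hP : P ∈ Algebra.adjoin ℂ (Set.range fun i => (g i : X → ℂ))) : P ∈ closedAlg g :=
  fun K _ ε hε => ⟨P, hP, fun x _ => by simpa using hε⟩

theorem gen_mem {ι : Type} (g : ι → C(X, ℂ)) (i : ι) : (fun x => g i x) ∈ closedAlg g :=
  adjoin_mem g _ (Algebra.subset_adjoin ⟨i, rfl⟩)

theorem comp_mem {O : Subalgebra ℂ (X → ℂ)} (hO : IsClosedAlg O) {ι : Type} (g : ι → C(X', ℂ))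
    (θ : X → X') (hθ : Continuous θ) (h : ∀ i, (fun x => g i (θ x)) ∈ O) (f : X' → ℂ)
    (hf : f ∈ closedAlg g) : (fun x => f (θ x)) ∈ O := by
  have hP : ∀ P ∈ Algebra.adjoin ℂ (Set.range fun i => (g i : X' → ℂ)),
      (fun x => P (θ x)) ∈ O := by
    intro P hP
    induction hP using Algebra.adjoin_induction with
    | mem x hx => obtain ⟨i, rfl⟩ := hx; exact h i
    | algebraMap r => exact O.algebraMap_mem r
    | add x y _ _ hx hy => exact O.add_mem hx hy
    | mul x y _ _ hx hy => exact O.mul_mem hx hy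
  refine hO.closed _ fun K hK ε hε => ?_
  obtain ⟨P, hPm, h1⟩ := hf (θ '' K) (hK.image hθ) ε hε
  exact ⟨fun x => P (θ x), hP P hPm, fun x hx => h1 _ ⟨x, hx, rfl⟩⟩

end Pool.Agent.MP_fe3720
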