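import Mathlib

/-! # Module Wei: Weierstrass' theorem and Cauchy's estimate in several variables

`E` is a finite dimensional complex normed space.

* `cauchy_fderiv`: let `g : E → ℂ` be differentiable at every point of `closedBall x r` (`r > 0`) and
  `‖g‖ ≤ C` there; then `‖fderiv ℂ g x‖ ≤ C / r`: for a vector `v`, `v ≠ 0`, the function of one variable
  `t ↦ g (x + t v)` is differentiable on the disc of radius `r / ‖v‖`, its derivative at `0` is
  `fderiv ℂ g x v`; `Complex.norm_deriv_le_of_forall_mem_sphere_norm_le` gives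
  `‖fderiv ℂ g x v‖ ≤ C ‖v‖ / r`; `ContinuousLinearMap.opNorm_le_bound`. (differentiable on an
  open neighbourhood or `DiffContOnCl` as needed: the one-variable theorem needs `DiffContOnCl ℂ f (ball c R)`,
  which follows from `DifferentiableOn ℂ f (closedBall c R)` — `DifferentiableOn.diffContOnCl_ball`.)
* `wei`: `f` is locally uniformly approximable by functions `g` which are `C¹` on the open set `V`. Then
  `f` is `C¹` on `V`. Let `x₀ ∈ V`, `closedBall x₀ (2r) ⊆ V` (compact). Choose `g n` with `‖f - g n‖ < 1/(n+1)` on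
  `closedBall x₀ (2r)`. By `cauchy_fderiv` `‖fderiv (g n) x - fderiv (g m) x‖ ≤ (1/(n+1) + 1/(m+1)) / r` for
  `x ∈ ball x₀ r`, so `fderiv (g n)` is uniformly Cauchy on the ball, converging uniformly to some
  `g' : E → (E →L[ℂ] ℂ)`; by `hasFDerivAt_of_tendstoUniformlyOnFilter` /
  `hasFDerivAt_of_tendstoLocallyUniformlyOn` / `hasFDerivAt_of_tendstoUniformlyOn`
  `HasFDerivAt f (g' x) x` in the ball, and `g'` is continuous there as a uniform limit
  (`TendstoUniformlyOn.continuousOn`). So `ContDiffOn ℂ 1 f V` (`contDiffOn_one_iff_fderiv_of_isOpen` or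
  `contDiffOn_succ_iff_fderiv_of_isOpen`). -/

namespace Pool.Agent.MP_fe3720

open Topology Metric Filter

variable {E : Type} [NormedAddCommGroup E] [NormedSpace ℂ E]

theorem cauchy_fderiv (g : E → ℂ) (x : E) (r C : ℝ) (hr : 0 < r)
    (hg : ∀ y ∈ closedBall x r, DifferentiableAt ℂ g y) (hC : ∀ y ∈ closedBall x r, ‖g y‖ ≤ C) :
    ‖fderiv ℂ g x‖ ≤ C / r := by
  have hC0 : 0 ≤ C := (norm_nonneg _).trans (hC x (mem_closedBall_self hr.le))
  refine ContinuousLinearMap.opNorm_le_bound _ (by positivity) fun v => ?_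
  by_cases hv : v = 0
  · rw [hv, map_zero, norm_zero, norm_zero, mul_zero]
  have hvn : 0 < ‖v‖ := norm_pos_iff.mpr hv
  have hmem : ∀ t ∈ closedBall (0 : ℂ) (r / ‖v‖), x + t • v ∈ closedBall x r := by
    intro t ht
    rw [mem_closedBall_zero_iff, le_div_iff₀ hvn] at ht
    rw [mem_closedBall, dist_eq_norm, add_sub_cancel_left, norm_smul]
    exact ht
  have hd : ∀ t ∈ closedBall (0 : ℂ) (r / ‖v‖), DifferentiableAt ℂ (fun t : ℂ => g (x + t • v)) t := by
    intro t ht
    have h1 : DifferentiableAt ℂ (fun t : ℂ => x + t • v) t := by fun_prop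
    exact DifferentiableAt.comp t (hg _ (hmem t ht)) h1
  have h1 : HasDerivAt (fun t : ℂ => g (x + t • v)) (fderiv ℂ g x v) 0 := by
    have h2 : HasDerivAt (fun t : ℂ => x + t • v) v 0 := by
      have := ((hasDerivAt_id (0 : ℂ)).smul_const v).const_add x
      simpa using this
    have h3 : HasFDerivAt g (fderiv ℂ g x) ((fun t : ℂ => x + t • v) 0) := by
      simpa using (hg x (mem_closedBall_self hr.le)).hasFDerivAt
    exact h3.comp_hasDerivAt (0 : ℂ) h2
  have h2 := Complex.norm_deriv_le_of_forall_mem_sphere_norm_le (f := fun t : ℂ => g (x + t • v))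
    (c := 0) (R := r / ‖v‖) (C := C) (by positivity)
    (DifferentiableOn.diffContOnCl_ball (U := closedBall (0 : ℂ) (r / ‖v‖))
      (fun t ht => (hd t ht).differentiableWithinAt) subset_rfl)
    (fun t ht => hC _ (hmem t (sphere_subset_closedBall ht)))
  rw [h1.deriv] at h2
  refine h2.trans (le_of_eq ?_)
  field_simp

theorem wei [FiniteDimensional ℂ E] {V : Set E} (hV : IsOpen V) (f : E → ℂ)
    (h : ∀ K ⊆ V, IsCompact K → ∀ ε > 0, ∃ g : E → ℂ, ContDiffOn ℂ 1 g V ∧
      ∀ x ∈ K, ‖f x - g x‖ < ε) : ContDiffOn ℂ 1 f V := by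
  intro x₀ hx₀
  obtain ⟨R, hR, hball⟩ := Metric.isOpen_iff.mp hV x₀ hx₀
  set r := R / 3 with hr
  have hrpos : 0 < r := by positivity
  have hsub : closedBall x₀ (2 * r) ⊆ V := fun y hy => hball (by
    rw [mem_closedBall] at hy
    rw [mem_ball]
    have : 2 * r < R := by rw [hr]; linarith
    linarith)
  have : ProperSpace E := FiniteDimensional.proper ℂ E
  choose g hg hgf using fun n : ℕ => h (closedBall x₀ (2 * r)) hsub (isCompact_closedBall _ _)
    (1 / ((n : ℝ) + 1)) (by positivity)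
  have hsub2 : ∀ x ∈ ball x₀ r, closedBall x r ⊆ closedBall x₀ (2 * r) := by
    intro x hx y hy
    rw [mem_ball] at hx
    rw [mem_closedBall] at hy ⊢
    have := dist_triangle y x x₀
    linarith
  have hgd : ∀ n, ∀ y ∈ V, DifferentiableAt ℂ (g n) y := fun n y hy =>
    ((hg n).contDiffAt (hV.mem_nhds hy)).differentiableAt (by norm_num)
  have hCauchy : ∀ n m : ℕ, ∀ x ∈ ball x₀ r, ‖fderiv ℂ (g n) x - fderiv ℂ (g m) x‖ ≤
      (1 / ((n : ℝ) + 1) + 1 / ((m : ℝ) + 1)) / r := by
    intro n m x hx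
    have hxV : x ∈ V := hsub (hsub2 x hx (mem_closedBall_self hrpos.le))
    have h1 := cauchy_fderiv (fun y => g n y - g m y) x r
      (1 / ((n : ℝ) + 1) + 1 / ((m : ℝ) + 1)) hrpos
      (fun y hy => (hgd n y (hsub (hsub2 x hx hy))).sub (hgd m y (hsub (hsub2 x hx hy))))
      (fun y hy => by
        have a1 := hgf n y (hsub2 x hx hy)
        have a2 := hgf m y (hsub2 x hx hy)
        have a3 : g n y - g m y = (f y - g m y) - (f y - g n y) := by ring
        rw [a3]
        have := norm_sub_le (f y - g m y) (f y - g n y)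
        linarith)
    rwa [fderiv_fun_sub (hgd n x hxV) (hgd m x hxV)] at h1
  have hunif : UniformCauchySeqOn (fun n => fderiv ℂ (g n)) atTop (ball x₀ r) := by
    rw [Metric.uniformCauchySeqOn_iff]
    intro ε hε
    obtain ⟨N, hN⟩ := exists_nat_one_div_lt (show (0 : ℝ) < ε * r / 2 by positivity)
    refine ⟨N, fun m hm n hn x hx => ?_⟩
    rw [dist_eq_norm]
    refine (hCauchy m n x hx).trans_lt ?_
    rw [div_lt_iff₀ hrpos]
    have h1 : 1 / ((m : ℝ) + 1) ≤ 1 / ((N : ℝ) + 1) := by
      have : (N : ℝ) ≤ m := by exact_mod_cast hm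
      gcongr
    have h2 : 1 / ((n : ℝ) + 1) ≤ 1 / ((N : ℝ) + 1) := by
      have : (N : ℝ) ≤ n := by exact_mod_cast hn
      gcongr
    linarith
  have hlim : ∀ x : E, ∃ L : E →L[ℂ] ℂ, x ∈ ball x₀ r →
      Tendsto (fun n => fderiv ℂ (g n) x) atTop (𝓝 L) := by
    intro x
    by_cases hx : x ∈ ball x₀ r
    · obtain ⟨L, hL⟩ := cauchySeq_tendsto_of_complete (hunif.cauchySeq hx)
      exact ⟨L, fun _ => hL⟩
    · exact ⟨0, fun h => absurd h hx⟩
  choose g' hg' using hlim
  have htend : TendstoUniformlyOn (fun n => fderiv ℂ (g n)) g' atTop (ball x₀ r) :=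
    hunif.tendstoUniformlyOn_of_tendsto fun x hx => hg' x hx
  have hpt : ∀ x ∈ ball x₀ r, Tendsto (fun n => g n x) atTop (𝓝 (f x)) := by
    intro x hx
    rw [Metric.tendsto_atTop]
    intro ε hε
    obtain ⟨N, hN⟩ := exists_nat_one_div_lt hε
    refine ⟨N, fun n hn => ?_⟩
    rw [dist_comm, dist_eq_norm]
    refine (hgf n x (hsub2 x hx (mem_closedBall_self hrpos.le))).trans (lt_of_le_of_lt ?_ hN)
    have : (N : ℝ) ≤ n := by exact_mod_cast hn
    gcongr
  have hder : ∀ x ∈ ball x₀ r, HasFDerivAt f (g' x) x := fun x hx =>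
    hasFDerivAt_of_tendstoUniformlyOn isOpen_ball htend
      (fun n y hy => (hgd n y (hsub (hsub2 y hy (mem_closedBall_self hrpos.le)))).hasFDerivAt)
      hpt hx
  have hcont : ContinuousOn g' (ball x₀ r) := htend.continuousOn
    (Frequently.of_forall fun n => ((hg n).continuousOn_fderiv_of_isOpen hV
      (by norm_num)).mono fun y hy => hsub (hsub2 y hy (mem_closedBall_self hrpos.le)))
  have hC1 : ContDiffOn ℂ 1 f (ball x₀ r) := by
    rw [show (1 : WithTop ℕ∞) = 0 + 1 from (zero_add 1).symm,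
      contDiffOn_succ_iff_fderiv_of_isOpen isOpen_ball]
    refine ⟨fun x hx => (hder x hx).differentiableAt.differentiableWithinAt, by simp, ?_⟩
    rw [contDiffOn_zero]
    exact hcont.congr fun x hx => (hder x hx).fderiv
  exact (hC1.contDiffAt (ball_mem_nhds x₀ hrpos)).contDiffWithinAt

end Pool.Agent.MP_fe3720
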