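import Pool.Agent.Work.MP_fe3720_an.ParA
import Pool.Agent.Work.MP_fe3720_an.Wei
import Pool.Agent.Work.MP_fe3720_an.Closed

/-! # Module ParB: compositions of flows are `C¹` in charts

Let `κ : (Fin m → ℂ) → Y × ℂ` be continuous on the open set `V` with `f ∘ κ` of class `C¹` on `V` for all `f ∈ O`. For
`r : ℕ` let `A_r` be the set of the functions `H : (Fin r → ℂ) × (Y × ℂ) → ℂ` which are continuous and limits,
uniformly on compact sets, of elements of the subalgebra generated by the functions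
`(t, x) ↦ t i` and `(t, x) ↦ f x` (`f ∈ O`). (This is `closedAlg` of an obvious family indexed by
`Fin r ⊕ O`.)

(a) `H ∈ A_r` ⇒ `(t, y) ↦ H (t, κ y)` is `C¹` on `univ ×ˢ V`: by `wei`; for the generators clear, and for the
elements of the adjoin by induction; for `K ⊆ univ ×ˢ V` compact use the approximants of `H` on the
compact image of `K` by `(t,y) ↦ (t, κ y)`.

(b) For `f ∈ O` and `φ ∈ Aut`, `(s, x) ↦ f (flowMap φ s x)` is in `A_1` (with `t 0 = s`): `f ∘ φ = φ.pull f ∈ O` has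
approximants `P = ∑ a_k(z) w^k`; `f (flowMap φ s x) = (φ.pull f)(z, w + s)` at `(z,w) = φ⁻¹ x`; the functions
`x ↦ a_k((φ⁻¹ x).1)` and `x ↦ (φ⁻¹ x).2` are in `O` (`φ.mem_symm`, `hL.lift`, `hL.snd`), so
`P(z, w + s)` is in the algebra generated by `s` and `O`. On a compact set of `(s,x)` the points
`(z, w + s)` stay in a compact set.

(c) For `f ∈ O`: `(t, x) ↦ f (Psi φ t x) ∈ A_r`. Induction on `r`; `r = 0` clear. Step:
`f (Psi φ t x) = H (t 0, Psi (tail φ) (tail t) x)`, `H(s,x) = f (flowMap (φ 0) s x) ∈ A_1`. `H` is a limit of elements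
of the algebra generated by `s` and the `f' ∈ O`, and `(t,x) ↦ f' (Psi (tail φ) (tail t) x)` is in `A_{r+1}`
(induction hypothesis and composition with `(t, x) ↦ (tail t, x)`). Conclude by composition with the
continuous map `(t, x) ↦ (t 0, Psi (tail φ) (tail t) x)` (compact sets have compact image).

The result is (a) applied to (c). -/

namespace Pool.Agent.MP_fe3720

open Topology

section General

variable {X X' : Type} [TopologicalSpace X] [TopologicalSpace X']

theorem closedAlg_closed {ι : Type} (g : ι → C(X, ℂ)) (f : X → ℂ)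
    (hf : ∀ K : Set X, IsCompact K → ∀ ε > 0, ∃ f' ∈ closedAlg g, ∀ x ∈ K, ‖f x - f' x‖ < ε) :
    f ∈ closedAlg g := by
  intro K hK ε hε
  obtain ⟨f', hf', h1⟩ := hf K hK (ε / 2) (by positivity)
  obtain ⟨P, hP, h2⟩ := hf' K hK (ε / 2) (by positivity)
  refine ⟨P, hP, fun x hx => ?_⟩
  have a1 := h1 x hx
  have a2 := h2 x hx
  have h3 : f x - P x = (f x - f' x) + (f' x - P x) := by ring
  rw [h3]
  have := norm_add_le (f x - f' x) (f' x - P x)
  linarith

theorem comp_mem_closedAlg {ι ι' : Type} (g : ι → C(X, ℂ)) (g' : ι' → C(X', ℂ)) (θ : X → X')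
    (hθ : Continuous θ) (h : ∀ i, (fun x => g' i (θ x)) ∈ closedAlg g) (f : X' → ℂ)
    (hf : f ∈ closedAlg g') : (fun x => f (θ x)) ∈ closedAlg g := by
  have hP : ∀ P ∈ Algebra.adjoin ℂ (Set.range fun i => (g' i : X' → ℂ)),
      (fun x => P (θ x)) ∈ closedAlg g := by
    intro P hP
    induction hP using Algebra.adjoin_induction with
    | mem x hx => obtain ⟨i, rfl⟩ := hx; exact h i
    | algebraMap r => exact (closedAlg g).algebraMap_mem r
    | add x y _ _ hx hy => exact (closedAlg g).add_mem hx hy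
    | mul x y _ _ hx hy => exact (closedAlg g).mul_mem hx hy
  refine closedAlg_closed g _ fun K hK ε hε => ?_
  obtain ⟨P, hPm, h1⟩ := hf (θ '' K) (hK.image hθ) ε hε
  exact ⟨fun x => P (θ x), hP P hPm, fun x hx => h1 _ ⟨x, hx, rfl⟩⟩

end General

variable {Y : Type} [TopologicalSpace Y] {OY : Subalgebra ℂ (Y → ℂ)}
  {O : Subalgebra ℂ (Y × ℂ → ℂ)}

/-- generators of the algebra of the functions of `(t, x)` -/
noncomputable def parGen (hL : IsLine OY O) (r : ℕ) :
    Fin r ⊕ O → C((Fin r → ℂ) × (Y × ℂ), ℂ) :=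
  Sum.elim (fun i => ⟨fun p => p.1 i, (continuous_apply i).comp continuous_fst⟩)
    (fun f => ⟨fun p => f p.2, (hL.top.cont f f.2).comp continuous_snd⟩)

theorem par_t (hL : IsLine OY O) {r : ℕ} (i : Fin r) :
    (fun p : (Fin r → ℂ) × (Y × ℂ) => p.1 i) ∈ closedAlg (parGen hL r) :=
  gen_mem (parGen hL r) (Sum.inl i)

theorem par_f (hL : IsLine OY O) {r : ℕ} (f : O) :
    (fun p : (Fin r → ℂ) × (Y × ℂ) => f p.2) ∈ closedAlg (parGen hL r) :=
  gen_mem (parGen hL r) (Sum.inr f)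

theorem par_tail (hL : IsLine OY O) {r : ℕ} (H : (Fin r → ℂ) × (Y × ℂ) → ℂ)
    (hH : H ∈ closedAlg (parGen hL r)) :
    (fun p : (Fin (r + 1) → ℂ) × (Y × ℂ) => H (Fin.tail p.1, p.2)) ∈
      closedAlg (parGen hL (r + 1)) := by
  refine comp_mem_closedAlg (parGen hL (r + 1)) (parGen hL r)
    (fun p : (Fin (r + 1) → ℂ) × (Y × ℂ) => (Fin.tail p.1, p.2)) ?_ ?_ H hH
  · refine Continuous.prodMk ?_ continuous_snd
    exact continuous_pi fun i => (continuous_apply i.succ).comp continuous_fst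
  · rintro (i | f)
    · exact par_t hL i.succ
    · exact par_f hL f

theorem par_psi (hL : IsLine OY O) {r : ℕ} (φ : Fin r → HolAut O) (f : O) :
    (fun p : (Fin r → ℂ) × (Y × ℂ) => f (Psi φ p.1 p.2)) ∈ closedAlg (parGen hL r) := by
  induction r generalizing f with
  | zero => exact par_f hL f
  | succ r ih =>
    have hIH : ∀ f : O, (fun p : (Fin (r + 1) → ℂ) × (Y × ℂ) =>
        f (Psi (Fin.tail φ) (Fin.tail p.1) p.2)) ∈ closedAlg (parGen hL (r + 1)) :=
      fun f => par_tail hL _ (ih (Fin.tail φ) f)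
    refine closedAlg_closed _ _ fun K hK ε hε => ?_
    -- the continuous map to `(z, w + t 0)`
    set θ : (Fin (r + 1) → ℂ) × (Y × ℂ) → Y × ℂ := fun p =>
      (((φ 0).symm (Psi (Fin.tail φ) (Fin.tail p.1) p.2)).1,
        ((φ 0).symm (Psi (Fin.tail φ) (Fin.tail p.1) p.2)).2 + p.1 0) with hθ
    have hθc : Continuous θ := by
      have h1 : Continuous (fun p : (Fin (r + 1) → ℂ) × (Y × ℂ) => (Fin.tail p.1, p.2)) := by
        refine Continuous.prodMk ?_ continuous_snd
        exact continuous_pi fun i => (continuous_apply i.succ).comp continuous_fst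
      have h2 : Continuous (fun p : (Fin (r + 1) → ℂ) × (Y × ℂ) =>
          Psi (Fin.tail φ) (Fin.tail p.1) p.2) := (Psi_cont (Fin.tail φ)).comp h1
      have h3 : Continuous (fun p : (Fin (r + 1) → ℂ) × (Y × ℂ) =>
          (φ 0).symm (Psi (Fin.tail φ) (Fin.tail p.1) p.2)) :=
        (φ 0).toHomeo.symm.continuous.comp h2
      exact (continuous_fst.comp h3).prodMk
        ((continuous_snd.comp h3).add ((continuous_apply 0).comp continuous_fst))
    obtain ⟨n, a, ha, h⟩ := hL.approx _ ((φ 0).pull f).2 (θ '' K) (hK.image hθc) ε hε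
    have hval : ∀ p : (Fin (r + 1) → ℂ) × (Y × ℂ), f (Psi φ p.1 p.2) = ((φ 0).pull f) (θ p) :=
      fun p => rfl
    refine ⟨∑ k ∈ Finset.range n, (fun p : (Fin (r + 1) → ℂ) × (Y × ℂ) =>
        ((φ 0).symm.pull (hL.up ⟨a k, ha k⟩)) (Psi (Fin.tail φ) (Fin.tail p.1) p.2)) *
      ((fun p : (Fin (r + 1) → ℂ) × (Y × ℂ) =>
        ((φ 0).symm.pull hL.w) (Psi (Fin.tail φ) (Fin.tail p.1) p.2)) +
        (fun p : (Fin (r + 1) → ℂ) × (Y × ℂ) => p.1 0)) ^ k, ?_, fun p hp => ?_⟩
    · exact Subalgebra.sum_mem _ fun k _ => Subalgebra.mul_mem _ (hIH _)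
        (Subalgebra.pow_mem _ (Subalgebra.add_mem _ (hIH _) (par_t hL 0)) k)
    · have h1 := h (θ p) ⟨p, hp, rfl⟩
      rw [hval, Finset.sum_apply]
      exact h1

theorem Psi_contDiff (hL : IsLine OY O) {m r : ℕ} (κ : (Fin m → ℂ) → Y × ℂ)
    (V : Set (Fin m → ℂ)) (hV : IsOpen V) (hκ : ContinuousOn κ V)
    (hf : ∀ f : O, ContDiffOn ℂ 1 (fun y => f (κ y)) V) (φ : Fin r → HolAut O) (f : O) :
    ContDiffOn ℂ 1 (fun p : (Fin r → ℂ) × (Fin m → ℂ) => f (Psi φ p.1 (κ p.2)))
      (Set.univ ×ˢ V) := by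
  have hP : ∀ P ∈ Algebra.adjoin ℂ (Set.range fun i => (parGen hL r i :
      (Fin r → ℂ) × (Y × ℂ) → ℂ)),
      ContDiffOn ℂ 1 (fun p : (Fin r → ℂ) × (Fin m → ℂ) => P (p.1, κ p.2)) (Set.univ ×ˢ V) := by
    intro P hP
    induction hP using Algebra.adjoin_induction with
    | mem x hx =>
      obtain ⟨i | f, rfl⟩ := hx
      · exact ((contDiff_apply ℂ ℂ i).comp contDiff_fst).contDiffOn
      · have h1 : ContDiffOn ℂ 1 ((fun y => f (κ y)) ∘
            (fun p : (Fin r → ℂ) × (Fin m → ℂ) => p.2)) (Set.univ ×ˢ V) :=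
          (hf f).comp contDiff_snd.contDiffOn fun p hp => hp.2
        exact h1
    | algebraMap r => exact contDiffOn_const
    | add x y _ _ hx hy => exact hx.add hy
    | mul x y _ _ hx hy => exact hx.mul hy
  refine wei (isOpen_univ.prod hV) _ fun K hKV hK ε hε => ?_
  have hθ : ContinuousOn (fun p : (Fin r → ℂ) × (Fin m → ℂ) => (p.1, κ p.2)) K :=
    continuous_fst.continuousOn.prodMk
      (hκ.comp continuous_snd.continuousOn fun p hp => (hKV hp).2)
  obtain ⟨P, hPm, h1⟩ := par_psi hL φ f _ (hK.image_of_continuousOn hθ) ε hε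
  exact ⟨_, hP P hPm, fun p hp => h1 _ ⟨p, hp, rfl⟩⟩

end Pool.Agent.MP_fe3720
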