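import Pool.Agent.Work.MP_fe3720_an.Base

/-! # Module Push: push forward of vector fields by automorphisms

`(φ.push D f) x = (D (f ∘ φ)) (φ⁻¹ x)` (see `HolAut.push_apply'` in Base).

* algebraic identities: `ext` on `f` (`Derivation.ext`), then on `x` if necessary (Subtype.ext,
  funext), all are immediate.
* `isVF_push`: for `K` compact use `φ⁻¹ K` for `D`, get `K', δ`, and take `φ K'` and `δ`.
* `isComplete_push`: if `γ` is an integral curve of `D` through `φ⁻¹ x` then `φ ∘ γ` is an integral
  curve of `φ.push D` through `x` (use `f ∘ φ = φ.pull f` and `push_apply`).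
* `push_completeLie`: the set of `D` with `φ.push D ∈ completeLie O` is a Lie subalgebra containing the
  complete fields: induction (`LieSubalgebra.lieSpan_induction`), or build the Lie algebra
  homomorphism and use `LieSubalgebra.lieSpan_le` / comap.
* `push_clLie`: approximate `D` on `φ⁻¹ K` for the functions `φ.pull f`, `f ∈ S` (`Finset.image`). -/

namespace Pool.Agent.MP_fe3720

open Topology

variable {X : Type} [TopologicalSpace X] {O : Subalgebra ℂ (X → ℂ)}

namespace HolAut

theorem push_add (φ : HolAut O) (D E : Derivation ℂ O O) :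
    φ.push (D + E) = φ.push D + φ.push E := by
  ext f x
  rfl

theorem push_csmul (φ : HolAut O) (c : ℂ) (D : Derivation ℂ O O) :
    φ.push (c • D) = c • φ.push D := by
  ext f x
  rfl

theorem push_smul (φ : HolAut O) (F : O) (D : Derivation ℂ O O) :
    φ.push (F • D) = (φ.symm.pull F) • φ.push D := by
  ext f x
  rfl

theorem pull_symm_pull (φ : HolAut O) (f : O) : φ.symm.pull (φ.pull f) = f := by
  ext x
  exact congrArg f.1 (φ.apply_symm x)

theorem pull_pull_symm (φ : HolAut O) (f : O) : φ.pull (φ.symm.pull f) = f := by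
  ext x
  exact congrArg f.1 (φ.symm_apply_self x)

theorem push_eq (φ : HolAut O) (D : Derivation ℂ O O) (f : O) :
    φ.push D f = φ.symm.pull (D (φ.pull f)) := rfl

theorem push_lie (φ : HolAut O) (D E : Derivation ℂ O O) :
    φ.push ⁅D, E⁆ = ⁅φ.push D, φ.push E⁆ := by
  apply Derivation.ext
  intro f
  simp only [push_eq, Derivation.commutator_apply, map_sub, pull_pull_symm]

theorem push_comp (φ ψ : HolAut O) (D : Derivation ℂ O O) :
    (φ.comp ψ).push D = φ.push (ψ.push D) := by
  ext f x
  rfl

theorem push_symm_push (φ : HolAut O) (D : Derivation ℂ O O) :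
    φ.symm.push (φ.push D) = D := by
  apply Derivation.ext
  intro f
  rw [push_eq, push_eq, pull_pull_symm]
  exact pull_pull_symm φ (D f)

theorem push_push_symm (φ : HolAut O) (D : Derivation ℂ O O) :
    φ.push (φ.symm.push D) = D := by
  apply Derivation.ext
  intro f
  rw [push_eq, push_eq, pull_symm_pull]
  exact pull_symm_pull φ (D f)

theorem isVF_push (φ : HolAut O) {D : Derivation ℂ O O} (hD : IsVF D) : IsVF (φ.push D) := by
  intro K hK ε hε
  obtain ⟨K', hK', δ, hδ, h⟩ := hD (φ.toHomeo.symm '' K)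
    (hK.image φ.toHomeo.symm.continuous) ε hε
  refine ⟨φ.toHomeo '' K', hK'.image φ.toHomeo.continuous, δ, hδ, fun f hf x hx => ?_⟩
  rw [push_apply']
  exact h (φ.pull f) (fun y hy => hf _ ⟨y, hy, rfl⟩) _ ⟨x, hx, rfl⟩

theorem isComplete_push (φ : HolAut O) {D : Derivation ℂ O O} (hD : IsCompleteVF D) :
    IsCompleteVF (φ.push D) := by
  refine ⟨isVF_push φ hD.1, fun x => ?_⟩
  obtain ⟨γ, hγ, h0, hd⟩ := hD.2 (φ.symm x)
  refine ⟨fun t => φ (γ t), φ.toHomeo.continuous.comp hγ, ?_, fun f t => ?_⟩
  · show φ (γ 0) = x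
    rw [h0, apply_symm]
  · rw [push_apply]
    exact hd (φ.pull f) t

/-- push forward as a homomorphism of Lie algebras -/
def pushHom (φ : HolAut O) : Derivation ℂ O O →ₗ⁅ℂ⁆ Derivation ℂ O O where
  toFun := φ.push
  map_add' := push_add φ
  map_smul' := push_csmul φ
  map_lie' := fun {D E} => push_lie φ D E

theorem push_completeLie (φ : HolAut O) {D : Derivation ℂ O O} (hD : D ∈ completeLie O) :
    φ.push D ∈ completeLie O := by
  have h : completeLie O ≤ (completeLie O).comap (pushHom φ) := by
    refine LieSubalgebra.lieSpan_le.mpr ?_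
    intro E hE
    exact LieSubalgebra.subset_lieSpan (isComplete_push φ hE)
  exact h hD

theorem push_clLie (φ : HolAut O) {D : Derivation ℂ O O} (hD : D ∈ clLie O) :
    φ.push D ∈ clLie O := by
  classical
  refine ⟨isVF_push φ hD.1, fun S K hK ε hε => ?_⟩
  obtain ⟨U, hU, h⟩ := hD.2 (S.image φ.pull) (φ.toHomeo.symm '' K)
    (hK.image φ.toHomeo.symm.continuous) ε hε
  refine ⟨φ.push U, push_completeLie φ hU, fun f hf x hx => ?_⟩
  rw [push_apply', push_apply']
  exact h _ (Finset.mem_image_of_mem _ hf) _ ⟨x, hx, rfl⟩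

end HolAut

end Pool.Agent.MP_fe3720
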