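import Pool.Agent.Work.MP_fe3720_an.ParA

/-! # Module Leaf: a countability argument

Assume every point has a Frobenius box (`IsBox O r U p`, Base). Then no orbit of the flows is everything.

(1) Countability lemma. Let `(U, p)`, `(U', p')` be boxes and `c` a value. The set
`p' '' {x ∈ U ∩ U' | p x = c}` is countable. Proof: `{x ∈ U | p x = c} ⊆ range (t ↦ Psi φ t y)`. Let
`Ω = {t | Psi φ t y ∈ U'}`, open in `Fin r → ℂ` (`Psi_cont`), and `h t = p' (Psi φ t y)`. `h` is locally constant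
on `Ω`: for `t ∈ Ω`, `i : Fin r`: `h (update t i (t i + s)) = p' (flowMap α s (Psi φ t y)) = h t` for `s` near `0`
(`Psi_update` and the third property of a box). Let `t₀ ∈ Ω` and `ball t₀ ε ⊆ Ω` (sup norm: a product of discs).
For `t` in this ball and `t'` differing from `t` only in the coordinate `i`, `t'` in the ball, `h t = h t'`: on the
disc of the `i`-th coordinate (connected) the function is locally constant
(`IsPreconnected.constant_of_mapsTo`, or `IsLocallyConstant` on a subtype, or: the set of the parameters with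
the same value is clopen). Changing the coordinates one after the other (induction over a
finset of coordinates: `Finset.induction` with `Finset.piecewise`), `h t = h t₀` for all `t` in the ball. So `h '' Ω` is
countable: `Fin r → ℂ` is second countable (the sets `{t ∈ Ω | h t = a}`, `a ∈ h '' Ω`, are open, nonempty and
pairwise disjoint: `Set.PairwiseDisjoint.countable_of_isOpen` / `TopologicalSpace.separableSpace`…).

(2) Choose countably many boxes `(U_j, p_j)`, `j : ℕ`, covering `Y × ℂ` (Lindelöf property of a second countable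
space: `TopologicalSpace.countable_cover_nhds` or `isOpen_iUnion_countable`; the space is nonempty as
it contains `x₀`). `plaque (j,c) = {x ∈ U_j | p_j x = c}`. Define sets of pairs `(j,c) ∈ ℕ × W` by
`𝒫_0 = {(j, p_j x₀) | x₀ ∈ U_j}`, `𝒫_{n+1} = {(j', c') | ∃ (j,c) ∈ 𝒫_n, ∃ x ∈ plaque (j,c) ∩ U_{j'}, p_{j'} x = c'}`. Each is
countable by (1) (countable union over `(j,c)` and `j'`), so `𝒫 = ⋃ 𝒫_n` is countable. Let
`E = ⋃_{(j,c) ∈ 𝒫} plaque (j,c)`, `x₀ ∈ E`.

(3) `E` is invariant by flows: let `x ∈ E`, `φ ∈ Aut`. The set `A = {s ∈ ℂ | flowMap φ s x ∈ E}` contains `0`. For every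
`s₀ ∈ ℂ`, let `y = flowMap φ s₀ x ∈ U_j`; for `s` near `s₀`: `flowMap φ s x = flowMap φ (s - s₀) y ∈ U_j` and
`p_j (flowMap φ s x) = p_j y`: all these points are in the same plaque `(j, p_j y)`. If one of them, `x'`, is in
`E`, `x' ∈ plaque (j₁,c₁)` with `(j₁,c₁) ∈ 𝒫_n`, then `(j, p_j y) ∈ 𝒫_{n+1}` and all of them are in `E`. So `A` is
open and closed: `A = ℂ` (`IsClopen.eq_univ`).

(4) By `horb` every `y ≠ x₀` is `flowMap φ s x₀`, so `E` is everything. Let `(U, p)` be a box (one of the `U_j`, nonempty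
because it contains `x₀`). `U ⊆ ⋃_{(j,c) ∈ 𝒫} plaque (j,c)`, so `p '' U` is contained in the countable union of the
`p '' (U ∩ plaque (j,c))`, which are countable by (1). Contradiction to `¬ (p '' U).Countable`. -/

namespace Pool.Agent.MP_fe3720

open Topology

/-- a separately locally constant function on an open set of `Fin r → ℂ` has countable image -/
theorem sep_loc_const {r : ℕ} {W : Type} (Ω : Set (Fin r → ℂ)) (hΩ : IsOpen Ω)
    (h : (Fin r → ℂ) → W)
    (hloc : ∀ t ∈ Ω, ∀ i, ∀ᶠ s in 𝓝 (0 : ℂ), h (Function.update t i (t i + s)) = h t) :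
    (h '' Ω).Countable := by
  have hloc2 : ∀ t₀ ∈ Ω, ∀ᶠ t in 𝓝 t₀, t ∈ Ω ∧ h t = h t₀ := by
    intro t₀ ht₀
    obtain ⟨ε, hε, hball⟩ := Metric.isOpen_iff.mp hΩ t₀ ht₀
    have hmem : ∀ t : Fin r → ℂ, t ∈ Metric.ball t₀ ε ↔ ∀ i, t i ∈ Metric.ball (t₀ i) ε := by
      intro t
      simp only [Metric.mem_ball, dist_pi_lt_iff hε]
    have hmove : ∀ t ∈ Metric.ball t₀ ε, ∀ i, ∀ c ∈ Metric.ball (t₀ i) ε,
        h (Function.update t i c) = h t := by
      intro t ht i c hc
      let _ : TopologicalSpace W := ⊥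
      have : DiscreteTopology W := ⟨rfl⟩
      have hup : ∀ c ∈ Metric.ball (t₀ i) ε, Function.update t i c ∈ Metric.ball t₀ ε := by
        intro c hc
        rw [hmem] at ht ⊢
        intro l
        by_cases hl : l = i
        · subst hl; simpa using hc
        · simpa [hl] using ht l
      have hcont : ContinuousOn (fun c => h (Function.update t i c)) (Metric.ball (t₀ i) ε) := by
        intro c hc
        apply ContinuousAt.continuousWithinAt
        have h1 := hloc _ (hball (hup c hc)) i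
        have h2 : ∀ᶠ c' in 𝓝 c, h (Function.update t i c') = h (Function.update t i c) := by
          have h3 : Filter.Tendsto (fun c' : ℂ => c' - c) (𝓝 c) (𝓝 0) := by
            have : Filter.Tendsto (fun c' : ℂ => c' - c) (𝓝 c) (𝓝 (c - c)) :=
              (continuous_id.sub continuous_const).tendsto c
            rwa [sub_self] at this
          filter_upwards [h3.eventually h1] with c' hc'
          simpa using hc'
        exact (continuousAt_const (y := h (Function.update t i c))).congr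
          (h2.mono fun c' hc' => hc'.symm)
      have hti : t i ∈ Metric.ball (t₀ i) ε := (hmem t).mp ht i
      have h4 := (convex_ball (t₀ i) ε).isPreconnected.constant hcont hc hti
      simpa using h4
    have hconst : ∀ t ∈ Metric.ball t₀ ε, h t = h t₀ := by
      intro t ht
      have hind : ∀ s : Finset (Fin r), h (s.piecewise t t₀) = h t₀ := by
        intro s
        induction s using Finset.induction with
        | empty => simp
        | insert i s hi ih =>
          rw [← ih]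
          have h5 : (insert i s).piecewise t t₀ = Function.update (s.piecewise t t₀) i (t i) := by
            rw [Finset.piecewise_insert]
          rw [h5]
          refine hmove _ ?_ i _ ((hmem t).mp ht i)
          rw [hmem]
          intro l
          by_cases hl : l ∈ s
          · rw [Finset.piecewise_eq_of_mem _ _ _ hl]; exact (hmem t).mp ht l
          · rw [Finset.piecewise_eq_of_notMem _ _ _ hl]; exact Metric.mem_ball_self hε
      have := hind Finset.univ
      rwa [Finset.piecewise_univ] at this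
    filter_upwards [Metric.ball_mem_nhds t₀ hε] with t ht
    exact ⟨hball ht, hconst t ht⟩
  obtain ⟨S, hSc, hSd⟩ := TopologicalSpace.exists_countable_dense Ω
  refine (hSc.image (fun t : Ω => h t)).mono ?_
  rintro _ ⟨t, ht, rfl⟩
  have hop : IsOpen {t' : Ω | h t' = h t} := by
    rw [isOpen_iff_mem_nhds]
    rintro ⟨t', ht'⟩ (h1 : h t' = h t)
    have h2 := hloc2 t' ht'
    have h3 : ∀ᶠ t'' : Ω in 𝓝 ⟨t', ht'⟩, (t'' : Fin r → ℂ) ∈ Ω ∧ h t'' = h t' :=
      (continuous_subtype_val.tendsto (⟨t', ht'⟩ : Ω)).eventually h2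
    filter_upwards [h3] with t'' ht''
    exact ht''.2.trans h1
  obtain ⟨t', ht1, ht2⟩ := hSd.exists_mem_open hop ⟨⟨t, ht⟩, rfl⟩
  exact ⟨t', ht1, ht2⟩

variable {Y : Type} [TopologicalSpace Y] {OY : Subalgebra ℂ (Y → ℂ)}
  {O : Subalgebra ℂ (Y × ℂ → ℂ)}

theorem plaque_countable (hL : IsLine OY O) {r : ℕ} {W : Type} {U U' : Set (Y × ℂ)}
    {p p' : Y × ℂ → W} (h : IsBox O r U p) (h' : IsBox O r U' p') (c : W) :
    (p' '' {x | x ∈ U ∧ p x = c ∧ x ∈ U'}).Countable := by
  obtain ⟨-, -, -, h4⟩ := h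
  obtain ⟨hU', -, h3', -⟩ := h'
  obtain ⟨φ, y, hsub⟩ := h4 c
  have hcont : Continuous (fun t : Fin r → ℂ => Psi φ t y) :=
    (Psi_cont φ).comp (by fun_prop : Continuous fun t : Fin r → ℂ => (t, y))
  have hc := sep_loc_const {t : Fin r → ℂ | Psi φ t y ∈ U'} (hU'.preimage hcont)
    (fun t => p' (Psi φ t y)) (by
      intro t ht i
      obtain ⟨α, hα⟩ := Psi_update hL φ i t
      filter_upwards [h3' _ ht α] with s hs
      rw [hα, hs])
  refine hc.mono ?_
  rintro _ ⟨x, ⟨hx1, hx2, hx3⟩, rfl⟩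
  obtain ⟨t, rfl⟩ := hsub ⟨hx1, hx2⟩
  exact ⟨t, hx3, rfl⟩

/-- the pairs (chart, value) of the plaques reached after `n` steps -/
def reach {W : Type} (s : Set (Y × ℂ)) (U : Y × ℂ → Set (Y × ℂ)) (p : Y × ℂ → Y × ℂ → W)
    (x₀ : Y × ℂ) : ℕ → Set ((Y × ℂ) × W)
  | 0 => {jc | jc.1 ∈ s ∧ x₀ ∈ U jc.1 ∧ p jc.1 x₀ = jc.2}
  | n + 1 => {jc | jc.1 ∈ s ∧ ∃ jc' ∈ reach s U p x₀ n, ∃ x, x ∈ U jc'.1 ∧ p jc'.1 x = jc'.2 ∧
      x ∈ U jc.1 ∧ p jc.1 x = jc.2}

theorem no_boxes [SecondCountableTopology Y] (hL : IsLine OY O) {r : ℕ} {W : Type}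
    (hbox : ∀ x₀ : Y × ℂ, ∃ (U : Set (Y × ℂ)) (p : Y × ℂ → W), x₀ ∈ U ∧ IsBox O r U p)
    (x₀ : Y × ℂ) (horb : ∀ y : Y × ℂ, y ≠ x₀ → ∃ (φ : HolAut O) (s : ℂ), y = flowMap φ s x₀) :
    False := by
  choose U p hxU hB using hbox
  obtain ⟨s, hs, hcov⟩ := TopologicalSpace.countable_cover_nhds
    (fun x => (hB x).1.mem_nhds (hxU x))
  have hcov' : ∀ x, ∃ j ∈ s, x ∈ U j := by
    intro x
    have : x ∈ ⋃ j ∈ s, U j := by rw [hcov]; trivial
    simpa using this
  -- countability
  have hcount : ∀ n, (reach s U p x₀ n).Countable := by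
    intro n
    induction n with
    | zero =>
      refine (hs.image (fun j => (j, p j x₀))).mono ?_
      rintro ⟨j, c⟩ ⟨h1, h2, h3⟩
      exact ⟨j, h1, Prod.ext rfl h3⟩
    | succ n ih =>
      refine (ih.biUnion (fun jc' _ => hs.biUnion (fun j _ =>
        (plaque_countable hL (hB jc'.1) (hB j) jc'.2).image (fun c => (j, c))))).mono ?_
      rintro ⟨j, c⟩ ⟨h1, jc', h2, x, h3, h4, h5, h6⟩
      simp only [Set.mem_iUnion]
      exact ⟨jc', h2, j, h1, c, ⟨x, ⟨h3, h4, h5⟩, h6⟩, rfl⟩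
  set E : Set (Y × ℂ) := {x | ∃ n, ∃ jc ∈ reach s U p x₀ n, x ∈ U jc.1 ∧ p jc.1 x = jc.2}
    with hE
  have hx₀E : x₀ ∈ E := by
    obtain ⟨j, hj, hxj⟩ := hcov' x₀
    exact ⟨0, (j, p j x₀), ⟨hj, hxj, rfl⟩, hxj, rfl⟩
  have hstar : ∀ x ∈ E, ∀ j ∈ s, x ∈ U j → ∀ x' ∈ U j, p j x' = p j x → x' ∈ E := by
    rintro x ⟨n, jc, h1, h2, h3⟩ j hj hxj x' hx' hp
    exact ⟨n + 1, (j, p j x), ⟨hj, jc, h1, x, h2, h3, hxj, rfl⟩, hx', hp⟩
  have hinv : ∀ x ∈ E, ∀ (φ : HolAut O) (t : ℂ), flowMap φ t x ∈ E := by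
    intro x hx φ
    have hloc : ∀ t₀ : ℂ, ∀ᶠ t in 𝓝 t₀, (flowMap φ t x ∈ E ↔ flowMap φ t₀ x ∈ E) := by
      intro t₀
      obtain ⟨j, hj, hyj⟩ := hcov' (flowMap φ t₀ x)
      have h1 := (hB j).2.2.1 _ hyj φ
      have h2 : Filter.Tendsto (fun t : ℂ => t - t₀) (𝓝 t₀) (𝓝 0) := by
        have : Filter.Tendsto (fun t : ℂ => t - t₀) (𝓝 t₀) (𝓝 (t₀ - t₀)) :=
          (continuous_id.sub continuous_const).tendsto t₀
        rwa [sub_self] at this
      have hcont : Continuous (fun t : ℂ => flowMap φ t x) :=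
        (flow_cont φ).comp (by fun_prop : Continuous fun t : ℂ => (t, x))
      have h3 : ∀ᶠ t in 𝓝 t₀, flowMap φ t x ∈ U j :=
        hcont.continuousAt.preimage_mem_nhds ((hB j).1.mem_nhds hyj)
      filter_upwards [h2.eventually h1, h3] with t h4 h5
      rw [← flow_add, sub_add_cancel] at h4
      exact ⟨fun h => hstar _ h j hj h5 _ hyj h4.symm, fun h => hstar _ h j hj hyj _ h5 h4⟩
    have hclopen : IsClopen {t : ℂ | flowMap φ t x ∈ E} := by
      constructor
      · rw [← isOpen_compl_iff, isOpen_iff_mem_nhds]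
        intro t₀ ht₀
        filter_upwards [hloc t₀] with t ht hmem
        exact ht₀ (ht.mp hmem)
      · rw [isOpen_iff_mem_nhds]
        intro t₀ ht₀
        filter_upwards [hloc t₀] with t ht
        exact ht.mpr ht₀
    have huniv := hclopen.eq_univ ⟨0, by
      show flowMap φ 0 x ∈ E
      rw [flow_zero]; exact hx⟩
    intro t
    have : t ∈ {t : ℂ | flowMap φ t x ∈ E} := by rw [huniv]; trivial
    exact this
  have hall : ∀ y, y ∈ E := by
    intro y
    by_cases hy : y = x₀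
    · rw [hy]; exact hx₀E
    · obtain ⟨φ, t, rfl⟩ := horb y hy
      exact hinv x₀ hx₀E φ t
  obtain ⟨j, hj, hxj⟩ := hcov' x₀
  refine (hB j).2.1 ?_
  refine (Set.countable_iUnion (fun n => (hcount n).biUnion (fun jc _ =>
    plaque_countable hL (hB jc.1) (hB j) jc.2))).mono ?_
  rintro _ ⟨x, hx, rfl⟩
  obtain ⟨n, jc, h1, h2, h3⟩ := hall x
  simp only [Set.mem_iUnion]
  exact ⟨n, jc, h1, x, ⟨h2, h3, hx⟩, rfl⟩

end Pool.Agent.MP_fe3720
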