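import Pool.Agent.Work.MP_fe3720_an.FrobCalc

/-! # Module Implicit: local parametrisation of a zero set by linear coordinates

`E` finite dimensional of dimension `m + k`, `F : Fin k → E → ℂ` of class `C¹` (over `ℂ`) with `F a₀ = 0` and
linearly independent differentials at `a₀`, `U` a neighbourhood of `a₀`.

Proof. Choose `ℓ : Fin m → (E →L[ℂ] ℂ)` such that the `fderiv (F i) a₀` together with the `ℓ j` are a basis of the
dual (extend a linearly independent family to a basis: `LinearIndependent.extend`/`Basis.sumExtend`,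
dimension `m + k` of the dual, or: let `A : E →L (Fin k → ℂ)` be `(fderiv (F i) a₀)_i`, surjective, its kernel has
dimension `m`; take an isomorphism `ker A ≃ ℂ^m` composed with a projection of `E` onto `ker A`
(`LinearMap.exists_leftInverse_of_injective` / `Submodule.exists_isCompl`)). So
`Θ a = ((F i a)_i, (ℓ j a)_j)`, `Θ : E → (Fin k → ℂ) × (Fin m → ℂ)`, is `C¹` and its derivative at `a₀` is
bijective, a continuous linear equivalence (finite dimension). Inverse function theorem: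
`ContDiffAt.toOpenPartialHomeomorph` (over `RCLike` field `ℂ`; formerly `toPartialHomeomorph`):
an open partial homeomorphism `e` with `e = Θ`, `a₀ ∈ e.source`.
Shrink the source to the open set `N` of the points `a ∈ e.source ∩ interior U` where `fderiv Θ a` is
invertible: this is an open condition as `fderiv Θ` is continuous (`ContinuousLinearEquiv.nhds` /
`ContinuousLinearEquiv.isOpen : IsOpen (range (coe : (E ≃L F) → (E →L F)))`).
The image `e '' N` is open; `V = {y | (0, y) ∈ e '' N}` is open, `lam y = e.symm (0, y)`. `lam` is `C¹` on `V`: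
`OpenPartialHomeomorph.contDiffAt_symm` (needs `HasFDerivAt Θ` with an equivalence at the point
`e.symm (0,y)` and `ContDiffAt ℂ 1 Θ` there). The rest is immediate. For the last property: on `V`,
`Θ (lam y) = (0, y)`, differentiate: `fderiv Θ (lam y) (fderiv lam y η) = (0, η)`. If
`fderiv (F i) (lam y) ξ = 0` for all `i` then with `η = (ℓ j ξ)_j`:
`fderiv Θ (lam y) ξ = (0, η) = fderiv Θ (lam y) (fderiv lam y η)`, so `ξ = fderiv lam y η` by injectivity. -/

namespace Pool.Agent.MP_fe3720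

open Topology

variable {E : Type} [NormedAddCommGroup E] [NormedSpace ℂ E] [FiniteDimensional ℂ E]

/-- completing independent functionals to coordinates -/
theorem complete_coords (m k : ℕ) (hmk : m + k = Module.finrank ℂ E)
    (α : Fin k → (E →L[ℂ] ℂ)) (hind : LinearIndependent ℂ α) :
    ∃ ℓ : Fin m → (E →L[ℂ] ℂ),
      Function.Bijective (fun e : E => ((fun i => α i e, fun j => ℓ j e) :
        (Fin k → ℂ) × (Fin m → ℂ))) := by
  -- the map `A`
  let A : E →ₗ[ℂ] (Fin k → ℂ) := LinearMap.pi fun i => (α i).toLinearMap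
  have hAsurj : Function.Surjective A := by
    rw [← LinearMap.range_eq_top]
    by_contra hne
    obtain ⟨f, hf0, hf⟩ := Submodule.exists_le_ker_of_lt_top (LinearMap.range A)
      (lt_top_iff_ne_top.mpr hne)
    refine hf0 ?_
    -- `f` gives a linear relation
    have h1 : ∀ e, f (A e) = 0 := fun e => hf ⟨e, rfl⟩
    have h2 : ∑ i, f (Pi.single i 1) • α i = 0 := by
      ext e
      have h3 := h1 e
      have h4 : A e = ∑ i, (α i e) • (Pi.single i 1 : Fin k → ℂ) := by
        funext l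
        simp [A, Finset.sum_apply, Pi.single_apply]
      rw [h4, map_sum] at h3
      simp only [map_smul, smul_eq_mul] at h3
      rw [sum_apply]
      simp only [smul_apply, smul_eq_mul, zero_apply]
      rw [← h3]
      exact Finset.sum_congr rfl fun i _ => mul_comm _ _
    have h5 := (Fintype.linearIndependent_iff.mp hind) _ h2
    apply LinearMap.pi_ext'
    intro i
    ext
    simpa using h5 i
  have hker : Module.finrank ℂ (LinearMap.ker A) = m := by
    have h1 := LinearMap.finrank_range_add_finrank_ker A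
    rw [LinearMap.range_eq_top.mpr hAsurj, finrank_top, Module.finrank_fin_fun] at h1
    omega
  let e₁ : LinearMap.ker A ≃ₗ[ℂ] (Fin m → ℂ) :=
    LinearEquiv.ofFinrankEq _ _ (by rw [hker, Module.finrank_fin_fun])
  obtain ⟨p, hp⟩ := LinearMap.exists_leftInverse_of_injective (LinearMap.ker A).subtype
    (by simp)
  let ℓ₀ : E →ₗ[ℂ] (Fin m → ℂ) := e₁.toLinearMap ∘ₗ p
  refine ⟨fun j => LinearMap.toContinuousLinearMap (LinearMap.proj j ∘ₗ ℓ₀), ?_⟩
  let T : E →ₗ[ℂ] (Fin k → ℂ) × (Fin m → ℂ) := A.prod ℓ₀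
  have hT : (fun e : E => ((fun i => α i e, fun j =>
      (LinearMap.toContinuousLinearMap (LinearMap.proj j ∘ₗ ℓ₀)) e) :
        (Fin k → ℂ) × (Fin m → ℂ))) = T := by
    funext e
    rfl
  rw [hT]
  have hinj : Function.Injective T := by
    rw [← LinearMap.ker_eq_bot, LinearMap.ker_eq_bot']
    intro e he
    have h1 : A e = 0 := congrArg Prod.fst he
    have h2 : ℓ₀ e = 0 := congrArg Prod.snd he
    have h3 : p e = 0 := by
      have : e₁ (p e) = 0 := h2
      simpa using this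
    have h4 : p e = ⟨e, h1⟩ := by
      have := congrArg (fun f => f ⟨e, h1⟩) hp
      exact this
    rw [h3] at h4
    exact (congrArg Subtype.val h4).symm
  refine ⟨hinj, ?_⟩
  refine (LinearMap.injective_iff_surjective_of_finrank_eq_finrank ?_).mp hinj
  rw [Module.finrank_prod, Module.finrank_fin_fun, Module.finrank_fin_fun]
  omega

theorem implicit (m k : ℕ) (hmk : m + k = Module.finrank ℂ E) (F : Fin k → E → ℂ)
    (hF : ∀ i, ContDiff ℂ 1 (F i)) (a₀ : E) (_h0 : ∀ i, F i a₀ = 0)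
    (hind : LinearIndependent ℂ (fun i => fderiv ℂ (F i) a₀)) (U : Set E) (hU : U ∈ 𝓝 a₀) :
    ∃ (ℓ : Fin m → (E →L[ℂ] ℂ)) (N : Set E) (V : Set (Fin m → ℂ)) (lam : (Fin m → ℂ) → E),
      IsOpen N ∧ a₀ ∈ N ∧ N ⊆ U ∧ IsOpen V ∧ ContDiffOn ℂ 1 lam V ∧
      (∀ y ∈ V, lam y ∈ N ∧ (∀ i, F i (lam y) = 0) ∧ (∀ j, ℓ j (lam y) = y j)) ∧
      (∀ a ∈ N, (∀ i, F i a = 0) →
        (fun j => ℓ j a) ∈ V ∧ lam (fun j => ℓ j a) = a) ∧
      (∀ y ∈ V, ∀ ξ : E, (∀ i, fderiv ℂ (F i) (lam y) ξ = 0) →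
        ξ = fderiv ℂ lam y (fun j => ℓ j ξ)) := by
  obtain ⟨ℓ, hbij⟩ := complete_coords m k hmk _ hind
  let Θ : E → (Fin k → ℂ) × (Fin m → ℂ) := fun a => (fun i => F i a, fun j => ℓ j a)
  have hΘ : ContDiff ℂ 1 Θ := by
    refine ContDiff.prodMk ?_ ?_
    · exact contDiff_pi.mpr fun i => hF i
    · exact contDiff_pi.mpr fun j => (ℓ j).contDiff
  have hΘd : ∀ a ξ, fderiv ℂ Θ a ξ = (fun i => fderiv ℂ (F i) a ξ, fun j => ℓ j ξ) := by
    intro a ξ
    have h1 : HasFDerivAt Θ ((ContinuousLinearMap.pi fun i => fderiv ℂ (F i) a).prod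
        (ContinuousLinearMap.pi fun j => ℓ j)) a := by
      refine HasFDerivAt.prodMk ?_ ?_
      · exact hasFDerivAt_pi.mpr fun i => ((hF i).differentiable (by norm_num) a).hasFDerivAt
      · exact hasFDerivAt_pi.mpr fun j => (ℓ j).hasFDerivAt
    rw [h1.fderiv]
    rfl
  have hbij' : Function.Bijective (fderiv ℂ Θ a₀) := by
    have : (fderiv ℂ Θ a₀ : E → (Fin k → ℂ) × (Fin m → ℂ)) =
        fun e : E => (fun i => fderiv ℂ (F i) a₀ e, fun j => ℓ j e) := funext (hΘd a₀)
    rw [this]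
    exact hbij
  obtain ⟨N, W, H, hN1, hN2, hN3, hW, hN, hWH⟩ :=
    inverse_general Θ a₀ hΘ.contDiffAt hbij' U hU
  have hemb : Continuous (fun y : Fin m → ℂ => ((0, y) : (Fin k → ℂ) × (Fin m → ℂ))) := by
    fun_prop
  refine ⟨ℓ, N, {y | ((0, y) : (Fin k → ℂ) × (Fin m → ℂ)) ∈ W}, fun y => H (0, y), hN1, hN2, hN3,
    hW.preimage hemb, ?_, ?_, ?_, ?_⟩
  · intro y hy
    have h1 : ContDiffAt ℂ 1 H (0, y) := (hWH _ hy).2.2.1
    have h2 : ContDiff ℂ 1 (fun y : Fin m → ℂ => ((0, y) : (Fin k → ℂ) × (Fin m → ℂ))) :=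
      contDiff_const.prodMk contDiff_id
    exact (ContDiffAt.comp (g := H) y h1 h2.contDiffAt).contDiffWithinAt
  · intro y hy
    obtain ⟨h1, h2, -, -⟩ := hWH _ hy
    refine ⟨h1, fun i => ?_, fun j => ?_⟩
    · exact congrFun (congrArg Prod.fst h2) i
    · exact congrFun (congrArg Prod.snd h2) j
  · intro a ha hFa
    obtain ⟨h1, h2, -, -⟩ := hN a ha
    have h3 : Θ a = (0, fun j => ℓ j a) := Prod.ext (funext hFa) rfl
    rw [h3] at h1 h2
    exact ⟨h1, h2⟩
  · intro y hy ξ hξ
    obtain ⟨h1, h2, h3, h4⟩ := hWH _ hy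
    have h5 := h4 ξ
    have h6 : fderiv ℂ Θ (H (0, y)) ξ = (0, fun j => ℓ j ξ) := by
      rw [hΘd]
      exact Prod.ext (funext hξ) rfl
    rw [h6] at h5
    have h7 : HasFDerivAt (fun y : Fin m → ℂ => H (0, y))
        ((fderiv ℂ H (0, y)).comp (ContinuousLinearMap.inr ℂ (Fin k → ℂ) (Fin m → ℂ))) y := by
      have h8 : HasFDerivAt H (fderiv ℂ H (0, y))
          ((fun y : Fin m → ℂ => ((0, y) : (Fin k → ℂ) × (Fin m → ℂ))) y) :=
        (h3.differentiableAt (by norm_num)).hasFDerivAt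
      have h9 : HasFDerivAt (fun y : Fin m → ℂ => ((0, y) : (Fin k → ℂ) × (Fin m → ℂ)))
          (ContinuousLinearMap.inr ℂ (Fin k → ℂ) (Fin m → ℂ)) y :=
        (ContinuousLinearMap.inr ℂ (Fin k → ℂ) (Fin m → ℂ)).hasFDerivAt
      exact h8.comp y h9
    rw [h7.fderiv]
    exact h5.symm

end Pool.Agent.MP_fe3720
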