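import Pool.Agent.Work.MP_fe3720_an.Pub

/-! # Density property and RR-spaces: further definitions -/

namespace Pool.Agent.DensityRR

open Topology Pool.Agent.MP_fe3720

variable {X : Type} [TopologicalSpace X]

/-- The axiom (RR2) of RR-spaces with `ℕ = {1, 2, 3, …}`: the condition on `D` is imposed for
`n ≥ 1` only (and the value `R 0` plays no role). -/
def RR2Pos (T : Set (Set X)) : Prop :=
  ∃ ρ : X → ℝ, Continuous ρ ∧ (∀ x, 0 ≤ ρ x) ∧ (∀ c, IsCompact {x | ρ x ≤ c}) ∧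
    ∃ R : ℕ → ℝ, (∀ n, 0 < R n) ∧ ¬ BddAbove (Set.range R) ∧
      ∀ D : Set X, D.Infinite → (∀ n : ℕ, 1 ≤ n → {x ∈ D | ρ x ≤ R n}.encard ≤ n) → D ∈ T

/-- RR-spaces, with `ℕ = {1, 2, 3, …}` in the axiom (RR2). -/
def IsRRPos (O : Subalgebra ℂ (X → ℂ)) : Prop :=
  ∃ T : Set (Set X), (∀ D ∈ T, D.Infinite ∧ IsClosed D ∧ DiscreteTopology D) ∧
    RR1 O T ∧ RR2Pos T ∧ RR3 O T ∧ RR4 O

/-- There are a complete holomorphic vector field `v` and a holomorphic function `s` such that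
`t = v s` is not zero and `v t = 0`. -/
def HasSlice (O : Subalgebra ℂ (X → ℂ)) : Prop :=
  ∃ (v : Der O) (s t : O), IsCompleteVF v ∧ v.ap s = t.1 ∧ v.ap t = 0 ∧ t ≠ 0

/-- No point of `X` is a common zero of all complete holomorphic vector fields. -/
def NoCommonZero (O : Subalgebra ℂ (X → ℂ)) : Prop :=
  ∀ x : X, ∃ w : Der O, IsCompleteVF w ∧ ∃ g : O, w.ap g x ≠ 0

end Pool.Agent.DensityRR
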