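import Pool.Agent.Work.MP_fe3720_an.Defs

/-! # Common definitions for the proof (FIXED: do not change) -/

namespace Pool.Agent.MP_fe3720

open Topology

section General

variable {X : Type} [TopologicalSpace X]

/-- A closed algebra of continuous functions. -/
structure IsClosedAlg (O : Subalgebra ℂ (X → ℂ)) : Prop where
  cont : ∀ f ∈ O, Continuous f
  closed : ∀ f : X → ℂ, (∀ K : Set X, IsCompact K → ∀ ε > 0, ∃ g ∈ O, ∀ x ∈ K, ‖f x - g x‖ < ε) →
    f ∈ O

/-- Every ideal without common zeros is dense. -/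
def IdealsDense (O : Subalgebra ℂ (X → ℂ)) : Prop :=
  ∀ I : Ideal O, (∀ x : X, ∃ f ∈ I, f x ≠ 0) →
    ∀ K : Set X, IsCompact K → ∀ ε > 0, ∃ f ∈ I, ∀ x ∈ K, ‖1 - f x‖ < ε

/-- The closure of the Lie algebra generated by the complete fields. -/
def clLie (O : Subalgebra ℂ (X → ℂ)) : Set (Derivation ℂ O O) :=
  {D | IsVF D ∧ ∀ (S : Finset O) (K : Set X), IsCompact K →
    ∀ ε > 0, ∃ U ∈ completeLie O, ∀ f ∈ S, ∀ x ∈ K, ‖(D f) x - (U f) x‖ < ε}

variable {O : Subalgebra ℂ (X → ℂ)}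

namespace HolAut

/-- the inverse automorphism -/
def symm (φ : HolAut O) : HolAut O := ⟨φ.toHomeo.symm, φ.mem_symm, φ.mem⟩

/-- `comp φ ψ` is `x ↦ φ (ψ x)` -/
def comp (φ ψ : HolAut O) : HolAut O where
  toHomeo := ψ.toHomeo.trans φ.toHomeo
  mem := fun f hf => ψ.mem _ (φ.mem f hf)
  mem_symm := fun f hf => φ.mem_symm _ (ψ.mem_symm f hf)

/-- composition with `φ`, as an automorphism of the algebra `O` -/
def pull (φ : HolAut O) : O ≃ₐ[ℂ] O where
  toFun f := ⟨fun x => f (φ x), φ.mem f f.2⟩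
  invFun f := ⟨fun x => f (φ.toHomeo.symm x), φ.mem_symm f f.2⟩
  left_inv f := by ext x; simp
  right_inv f := by ext x; simp
  map_mul' _ _ := rfl
  map_add' _ _ := rfl
  commutes' _ := rfl

/-- push forward of a derivation: `(push φ D f) (φ x) = D (f ∘ φ) x` -/
def push (φ : HolAut O) (D : Derivation ℂ O O) : Derivation ℂ O O :=
  Derivation.mk' (φ.pull.symm.toLinearMap ∘ₗ D.toLinearMap ∘ₗ φ.pull.toLinearMap) (by
    intro a b
    simp [Derivation.leibniz])

theorem pull_apply (φ : HolAut O) (f : O) (x : X) : (φ.pull f) x = f (φ x) := rfl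

theorem symm_apply (φ : HolAut O) (x : X) : φ.symm x = φ.toHomeo.symm x := rfl

theorem apply_symm (φ : HolAut O) (x : X) : φ (φ.symm x) = x := φ.toHomeo.apply_symm_apply x

theorem symm_apply_self (φ : HolAut O) (x : X) : φ.symm (φ x) = x :=
  φ.toHomeo.symm_apply_apply x

theorem comp_apply (φ ψ : HolAut O) (x : X) : (φ.comp ψ) x = φ (ψ x) := rfl

theorem push_apply' (φ : HolAut O) (D : Derivation ℂ O O) (f : O) (x : X) :
    (φ.push D f) x = (D (φ.pull f)) (φ.symm x) := rfl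

theorem push_apply (φ : HolAut O) (D : Derivation ℂ O O) (f : O) (x : X) :
    (φ.push D f) (φ x) = (D (φ.pull f)) x := by
  rw [push_apply', symm_apply_self]

end HolAut

/-- `X` has holomorphic charts of dimension `m` given by functions of the algebra `O`, and every
holomorphic vector field is given in these charts by its coordinates. -/
def HasCharts (m : ℕ) (O : Subalgebra ℂ (X → ℂ)) : Prop :=
  ∀ x₀ : X, ∃ (q : Fin m → O) (κ : (Fin m → ℂ) → X) (V : Set (Fin m → ℂ)),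
    IsOpen V ∧ (fun j => (q j) x₀) ∈ V ∧ κ (fun j => (q j) x₀) = x₀ ∧ ContinuousOn κ V ∧
    (∀ y ∈ V, ∀ j, (q j) (κ y) = y j) ∧ IsOpen (κ '' V) ∧
    (∀ f : O, ContDiffOn ℂ 1 (fun y => f (κ y)) V) ∧
    (∀ D : Derivation ℂ O O, IsVF D → ∀ f : O, ∀ y ∈ V,
      (D f) (κ y) = fderiv ℂ (fun y => f (κ y)) y (fun j => (D (q j)) (κ y)))

end General

section Line

variable {Y : Type} [TopologicalSpace Y]

/-- `O` is the algebra of the holomorphic functions on `Y × ℂ`, if `OY` is the algebra of the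
holomorphic functions on `Y`. -/
structure IsLine (OY : Subalgebra ℂ (Y → ℂ)) (O : Subalgebra ℂ (Y × ℂ → ℂ)) : Prop where
  base : IsClosedAlg OY
  top : IsClosedAlg O
  lift : ∀ f ∈ OY, (fun p : Y × ℂ => f p.1) ∈ O
  snd : (fun p : Y × ℂ => p.2) ∈ O
  approx : ∀ F ∈ O, ∀ K : Set (Y × ℂ), IsCompact K → ∀ ε > 0,
    ∃ (n : ℕ) (a : ℕ → Y → ℂ), (∀ k, a k ∈ OY) ∧
      ∀ p ∈ K, ‖F p - ∑ k ∈ Finset.range n, a k p.1 * p.2 ^ k‖ < ε

variable {OY : Subalgebra ℂ (Y → ℂ)} {O : Subalgebra ℂ (Y × ℂ → ℂ)}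

/-- the function `(z, w) ↦ f z` -/
def IsLine.up (hL : IsLine OY O) (f : OY) : O := ⟨fun p => f p.1, hL.lift f f.2⟩

/-- the function `(z, w) ↦ w` -/
def IsLine.w (hL : IsLine OY O) : O := ⟨fun p => p.2, hL.snd⟩

/-- `v` is the vector field `∂/∂w` -/
structure IsDw (v : Derivation ℂ O O) : Prop where
  vf : IsVF v
  hasDerivAt : ∀ (F : O) (z : Y) (w : ℂ), HasDerivAt (fun w => F (z, w)) ((v F) (z, w)) w

/-- The flow of the vector field `φ_* (∂/∂w)`. -/
noncomputable def flowMap (φ : HolAut O) (s : ℂ) (x : Y × ℂ) : Y × ℂ :=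
  φ ((φ.symm x).1, (φ.symm x).2 + s)

/-- Composition of flows: `Psi φ t = flowMap (φ 0) (t 0) ∘ flowMap (φ 1) (t 1) ∘ ⋯`. -/
noncomputable def Psi : {r : ℕ} → (Fin r → HolAut O) → (Fin r → ℂ) → Y × ℂ → Y × ℂ
  | 0, _, _, x => x
  | _ + 1, φ, t, x => flowMap (φ 0) (t 0) (Psi (Fin.tail φ) (Fin.tail t) x)

/-- The space of the values at the point `x` of the fields `φ_* v`. -/
def conjSpan (v : Derivation ℂ O O) (x : Y × ℂ) : Submodule ℂ (O → ℂ) :=
  Submodule.span ℂ (Set.range fun φ : HolAut O => fun f : O => (φ.push v f) x)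

/-- The functions `m` such that `(m c) v` is in the closed Lie algebra whenever `c v` is. -/
def mults (v : Derivation ℂ O O) : Set O :=
  {m | ∀ c : O, c • v ∈ clLie O → (m * c) • v ∈ clLie O}

/-- `(H7)`: nondegeneracy of the closed Lie algebra. -/
def Nondeg (hL : IsLine OY O) (v : Derivation ℂ O O) : Prop :=
  ∀ z₀ : Y, ∃ u ∈ clLie O, ∃ f : OY, ∃ c : ℂ, (v (u (hL.up f))) (z₀, c) ≠ 0

/-- A Frobenius box: an open set `U` with a first integral `p` of all the fields `φ_* (∂/∂w)`,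
whose level sets are contained in images of `Psi`. -/
def IsBox (O : Subalgebra ℂ (Y × ℂ → ℂ)) (r : ℕ) {W : Type} (U : Set (Y × ℂ))
    (p : Y × ℂ → W) : Prop :=
  IsOpen U ∧ ¬ (p '' U).Countable ∧
  (∀ x ∈ U, ∀ φ : HolAut O, ∀ᶠ s in 𝓝 (0 : ℂ), p (flowMap φ s x) = p x) ∧
  (∀ c : W, ∃ (φ : Fin r → HolAut O) (y : Y × ℂ),
    {x ∈ U | p x = c} ⊆ Set.range (fun t : Fin r → ℂ => Psi φ t y))

end Line

end Pool.Agent.MP_fe3720
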