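import Pool.Agent.Work.MP_fe3720_an.Closed
import Pool.Agent.Work.MP_fe3720_an.Wei
import Pool.Agent.Work.MP_fe3720_an.Implicit

/-! # Module ChartB: charts of an embedded submanifold

`G x = (g i x)_i`, `G : X → (ι → ℂ)` is an embedding, locally the zero set of `k` functions which are
limits of polynomials (`entireOn ι`), with independent differentials.

* `entire_contDiff`: an element `F` of `entireOn ι` is `C¹` on `ι → ℂ`: `wei` with `V = univ`, as the elements of
  `Algebra.adjoin` of the coordinates are `C¹` (`Algebra.adjoin_induction`).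

* Chart at `x₀`: let `F`, `U` be from `hsm`, `a₀ = G x₀`, and `ℓ, N, V, lam` from `implicit` (with
  `E = ι → ℂ`, finrank `= card ι`). For `y ∈ V`: `lam y ∈ N ⊆ U` and `F (lam y) = 0`, so there is (a
  unique) `x` with `G x = lam y`: put `κ y = x` (choice; arbitrary outside `V`, `X` is nonempty as
  `x₀ ∈ X`). `q j = ∑_i ℓ j (e_i) g i ∈ closedAlg g` (`Pi.single`), so that `(q j) x = ℓ j (G x)`. Then:
  `V` open; `(q j x₀)_j ∈ V` and `κ (q x₀) = x₀` (`a₀ ∈ N`, `F a₀ = 0`, injectivity of `G`); `κ` is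
  continuous on `V` as `G ∘ κ = lam` is (`IsEmbedding.continuousOn_iff`); `q j (κ y) = ℓ j (lam y) = y j`;
  `κ '' V = G ⁻¹' N` is open; `f ∘ κ` is `C¹` on `V` for `f ∈ closedAlg g`: `wei`: for `K ⊆ V` compact, `κ '' K` is
  compact, there is `P` in the adjoin of the `g i` with `‖f - P‖ < ε` on `κ '' K`, and `P ∘ κ` is `C¹` on
  `V` (induction: `g i (κ y) = (lam y) i`).

* Tangent property. Let `D` be `IsVF`, `y ∈ V`, `x = κ y`, `ξ = ((D g_i) x)_i ∈ ℂ^ι` where `g_i` is the element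
  `⟨g i, gen_mem⟩` of `closedAlg g`. For `H` in the adjoin of the coordinates of `ι → ℂ`, the function
  `H ∘ G` is in `closedAlg g` and `(D (H ∘ G)) x = fderiv ℂ H (G x) ξ` (induction on `H`; both sides
  are derivations). The same holds for `H ∈ entireOn ι`: with `K', δ` from the continuity of `D` at the
  compact set `{x}` (for `ε`), choose `H'` in the adjoin with `‖H - H'‖ < δ` on `G '' K'` and `< ε` on
  `closedBall (G x) 1`; then `‖(D (H∘G)) x - (D (H'∘G)) x‖ < ε` and, by `cauchy_fderiv`,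
  `‖fderiv H (G x) - fderiv H' (G x)‖ ≤ ε`. For `H = F i`, `F i ∘ G = 0`, so
  `fderiv (F i) (G x) ξ = 0` for all `i`. By `implicit`, `ξ = fderiv lam y η` with
  `η j = ℓ j ξ = (D (q j)) x`. For `f` in the adjoin of the `g i`: write (induction) `f = H ∘ G`,
  `(D f) x = fderiv H (G x) ξ = fderiv H (lam y) (fderiv lam y η) = fderiv (H ∘ lam) y η`, and
  `H ∘ lam = f ∘ κ` on `V` (open), so `(D f)(κ y) = fderiv (f ∘ κ) y η`. For general
  `f ∈ closedAlg g` pass to the limit as before: `f' ` in the adjoin within `δ` of `f` on `K'`, and within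
  `ε` on `κ '' closedBall y r`, `closedBall y r ⊆ V`; `cauchy_fderiv` for `(f - f') ∘ κ`. -/

namespace Pool.Agent.MP_fe3720

open Topology

/-- limits of polynomials on `ι → ℂ`, uniformly on compact sets -/
noncomputable def entireOn (ι : Type) : Subalgebra ℂ ((ι → ℂ) → ℂ) :=
  closedAlg (fun i : ι => ⟨fun z => z i, continuous_apply i⟩)

/-- polynomials on `ι → ℂ` -/
noncomputable def polyOn (ι : Type) : Subalgebra ℂ ((ι → ℂ) → ℂ) :=
  Algebra.adjoin ℂ (Set.range fun i : ι => (fun z : ι → ℂ => z i))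

theorem polyOn_contDiff {ι : Type} [Fintype ι] (F : (ι → ℂ) → ℂ) (hF : F ∈ polyOn ι) :
    ContDiff ℂ 1 F := by
  unfold polyOn at hF
  induction hF using Algebra.adjoin_induction with
  | mem x hx => obtain ⟨i, rfl⟩ := hx; exact contDiff_apply ℂ ℂ i
  | algebraMap r => exact contDiff_const
  | add x y _ _ hx hy => exact hx.add hy
  | mul x y _ _ hx hy => exact hx.mul hy

theorem entireOn_approx {ι : Type} (F : (ι → ℂ) → ℂ) (hF : F ∈ entireOn ι)
    (K : Set (ι → ℂ)) (hK : IsCompact K) (ε : ℝ) (hε : 0 < ε) :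
    ∃ P ∈ polyOn ι, ∀ x ∈ K, ‖F x - P x‖ < ε := hF K hK ε hε

theorem entire_contDiff {ι : Type} [Fintype ι] (F : (ι → ℂ) → ℂ) (hF : F ∈ entireOn ι) :
    ContDiff ℂ 1 F := by
  rw [← contDiffOn_univ]
  refine wei isOpen_univ F fun K _ hK ε hε => ?_
  obtain ⟨P, hP, h⟩ := entireOn_approx F hF K hK ε hε
  exact ⟨P, (polyOn_contDiff P hP).contDiffOn, h⟩

section Tangent

variable {X : Type} [TopologicalSpace X] {ι : Type} [Fintype ι] (g : ι → C(X, ℂ))

/-- the generators as elements of the algebra -/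
noncomputable def gens (i : ι) : closedAlg g := ⟨fun x => g i x, gen_mem g i⟩

theorem poly_tangent (D : Derivation ℂ (closedAlg g) (closedAlg g)) (x : X)
    (H : (ι → ℂ) → ℂ) (hH : H ∈ polyOn ι) :
    ∃ h : (fun x => H (fun i => g i x)) ∈ closedAlg g,
      (D ⟨_, h⟩) x = fderiv ℂ H (fun i => g i x) (fun i => (D (gens g i)) x) := by
  have key : ∃ h : (fun x => H (fun i => g i x)) ∈ closedAlg g, Differentiable ℂ H ∧
      (D ⟨_, h⟩) x = fderiv ℂ H (fun i => g i x) (fun i => (D (gens g i)) x) := by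
    unfold polyOn at hH
    induction hH using Algebra.adjoin_induction with
    | mem H hx =>
      obtain ⟨i, rfl⟩ := hx
      refine ⟨gen_mem g i, (contDiff_apply ℂ ℂ i (n := 1)).differentiable (by norm_num), ?_⟩
      have h1 : HasFDerivAt (fun z : ι → ℂ => z i)
          (ContinuousLinearMap.proj (R := ℂ) (φ := fun _ : ι => ℂ) i) (fun i => g i x) :=
        (ContinuousLinearMap.proj (R := ℂ) (φ := fun _ : ι => ℂ) i).hasFDerivAt
      rw [h1.fderiv]
      rfl
    | algebraMap r =>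
      refine ⟨(closedAlg g).algebraMap_mem r, differentiable_const r, ?_⟩
      have h1 : D ⟨_, (closedAlg g).algebraMap_mem r⟩ = 0 := D.map_algebraMap r
      have h2 : fderiv ℂ (algebraMap ℂ ((ι → ℂ) → ℂ) r) (fun i => g i x) = 0 :=
        (hasFDerivAt_const r _).fderiv
      rw [h2]
      exact congrArg (fun f : closedAlg g => f x) h1
    | add H H' _ _ h1 h2 =>
      obtain ⟨m1, d1, e1⟩ := h1
      obtain ⟨m2, d2, e2⟩ := h2
      refine ⟨(closedAlg g).add_mem m1 m2, d1.add d2, ?_⟩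
      have h3 : D ⟨_, (closedAlg g).add_mem m1 m2⟩ = D ⟨_, m1⟩ + D ⟨_, m2⟩ :=
        D.map_add ⟨_, m1⟩ ⟨_, m2⟩
      rw [fderiv_add (d1 _) (d2 _)]
      have h4 := congrArg (fun f : closedAlg g => f x) h3
      refine h4.trans ?_
      show (D ⟨_, m1⟩) x + (D ⟨_, m2⟩) x = _
      rw [e1, e2]
      rfl
    | mul H H' _ _ h1 h2 =>
      obtain ⟨m1, d1, e1⟩ := h1
      obtain ⟨m2, d2, e2⟩ := h2
      refine ⟨(closedAlg g).mul_mem m1 m2, d1.mul d2, ?_⟩
      have h3 := D.leibniz ⟨_, m1⟩ ⟨_, m2⟩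
      have h4 := congrArg (fun f : closedAlg g => f x) h3
      refine h4.trans ?_
      show H (fun i => g i x) * (D ⟨_, m2⟩) x + H' (fun i => g i x) * (D ⟨_, m1⟩) x = _
      rw [fderiv_mul (d1 _) (d2 _), e1, e2]
      rfl
  obtain ⟨h, -, e⟩ := key
  exact ⟨h, e⟩

omit [Fintype ι] in
theorem entire_comp_mem [WeaklyLocallyCompactSpace X] (H : (ι → ℂ) → ℂ) (hH : H ∈ entireOn ι) :
    (fun x => H (fun i => g i x)) ∈ closedAlg g :=
  comp_mem (closedAlg_isClosedAlg g) _ (fun x i => g i x)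
    (continuous_pi fun i => (g i).continuous) (fun i => gen_mem g i) H hH

theorem entire_tangent [WeaklyLocallyCompactSpace X]
    (D : Derivation ℂ (closedAlg g) (closedAlg g)) (hD : IsVF D) (x : X)
    (H : (ι → ℂ) → ℂ) (hH : H ∈ entireOn ι) :
    (D ⟨_, entire_comp_mem g H hH⟩) x =
      fderiv ℂ H (fun i => g i x) (fun i => (D (gens g i)) x) := by
  set a : ι → ℂ := fun i => g i x with ha
  set ξ : ι → ℂ := fun i => (D (gens g i)) x with hξ
  have hlim : ∀ ε > 0, ‖(D ⟨_, entire_comp_mem g H hH⟩) x - fderiv ℂ H a ξ‖ ≤ ε := by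
    intro ε hε
    obtain ⟨K', hK', δ, hδ, h1⟩ := hD {x} isCompact_singleton (ε / 2) (by positivity)
    set ε' := ε / (2 * (‖ξ‖ + 1)) with hε'
    have hε'pos : 0 < ε' := by positivity
    have hGc : Continuous (fun (x : X) (i : ι) => g i x) :=
      continuous_pi fun i => (g i).continuous
    obtain ⟨P, hP, h2⟩ := entireOn_approx H hH
      ((fun (x : X) (i : ι) => g i x) '' K' ∪ Metric.closedBall a 1)
      ((hK'.image hGc).union (isCompact_closedBall _ _)) (min δ ε') (lt_min hδ hε'pos)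
    obtain ⟨hPm, hPD⟩ := poly_tangent g D x P hP
    have h3 := h1 (⟨_, entire_comp_mem g H hH⟩ - ⟨_, hPm⟩) (fun y hy =>
      (h2 _ (Or.inl ⟨y, hy, rfl⟩)).trans_le (min_le_left _ _)) x rfl
    rw [map_sub] at h3
    have h3' : ‖(D ⟨_, entire_comp_mem g H hH⟩) x - (D ⟨_, hPm⟩) x‖ < ε / 2 := h3
    have hHd : Differentiable ℂ H := (entire_contDiff H hH).differentiable (by norm_num)
    have hPd : Differentiable ℂ P := (polyOn_contDiff P hP).differentiable (by norm_num)
    have h4 := cauchy_fderiv (fun z => H z - P z) a 1 ε' one_pos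
      (fun y _ => (hHd y).sub (hPd y))
      (fun y hy => ((h2 y (Or.inr hy)).trans_le (min_le_right _ _)).le)
    rw [div_one, fderiv_fun_sub (hHd a) (hPd a)] at h4
    have h5 : (D ⟨_, entire_comp_mem g H hH⟩) x - fderiv ℂ H a ξ =
        ((D ⟨_, entire_comp_mem g H hH⟩) x - (D ⟨_, hPm⟩) x) -
          (fderiv ℂ H a - fderiv ℂ P a) ξ := by
      rw [hPD]
      show _ = _ - (fderiv ℂ H a ξ - fderiv ℂ P a ξ)
      ring
    rw [h5]
    have h6 := norm_sub_le ((D ⟨_, entire_comp_mem g H hH⟩) x - (D ⟨_, hPm⟩) x)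
      ((fderiv ℂ H a - fderiv ℂ P a) ξ)
    have h7 := (fderiv ℂ H a - fderiv ℂ P a).le_opNorm ξ
    have h8 : ‖fderiv ℂ H a - fderiv ℂ P a‖ * ‖ξ‖ ≤ ε' * (‖ξ‖ + 1) := by
      gcongr
      linarith
    have h9 : ε' * (‖ξ‖ + 1) = ε / 2 := by rw [hε']; field_simp
    linarith
  have h0 : ‖(D ⟨_, entire_comp_mem g H hH⟩) x - fderiv ℂ H a ξ‖ ≤ 0 :=
    le_of_forall_pos_le_add fun ε hε => by simpa using hlim ε hε
  exact sub_eq_zero.mp (norm_le_zero_iff.mp h0)

omit [Fintype ι] in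
theorem adjoin_eq_poly (P : X → ℂ)
    (hP : P ∈ Algebra.adjoin ℂ (Set.range fun i => (g i : X → ℂ))) :
    ∃ H ∈ polyOn ι, P = fun x => H (fun i => g i x) := by
  induction hP using Algebra.adjoin_induction with
  | mem x hx =>
    obtain ⟨i, rfl⟩ := hx
    exact ⟨fun z => z i, Algebra.subset_adjoin ⟨i, rfl⟩, rfl⟩
  | algebraMap r => exact ⟨algebraMap ℂ _ r, Subalgebra.algebraMap_mem _ r, rfl⟩
  | add x y _ _ hx hy =>
    obtain ⟨H, hH, rfl⟩ := hx
    obtain ⟨H', hH', rfl⟩ := hy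
    exact ⟨H + H', Subalgebra.add_mem _ hH hH', rfl⟩
  | mul x y _ _ hx hy =>
    obtain ⟨H, hH, rfl⟩ := hx
    obtain ⟨H', hH', rfl⟩ := hy
    exact ⟨H * H', Subalgebra.mul_mem _ hH hH', rfl⟩

theorem clm_mem_poly (ℓ : (ι → ℂ) →L[ℂ] ℂ) : (ℓ : (ι → ℂ) → ℂ) ∈ polyOn ι := by
  classical
  have h : (ℓ : (ι → ℂ) → ℂ) = ∑ i, algebraMap ℂ ((ι → ℂ) → ℂ) (ℓ (Pi.single i 1)) *
      (fun z : ι → ℂ => z i) := by
    funext z
    rw [Finset.sum_apply]
    have h1 : z = ∑ i, z i • (Pi.single i 1 : ι → ℂ) := by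
      funext l
      simp [Finset.sum_apply, Pi.single_apply]
    conv_lhs => rw [h1]
    rw [map_sum]
    refine Finset.sum_congr rfl fun i _ => ?_
    rw [map_smul, smul_eq_mul, mul_comm]
    rfl
  rw [h]
  exact Subalgebra.sum_mem _ fun i _ => Subalgebra.mul_mem _ (Subalgebra.algebraMap_mem _ _)
    (Algebra.subset_adjoin ⟨i, rfl⟩)

end Tangent

theorem hasCharts_closedAlg {X : Type} [TopologicalSpace X] [WeaklyLocallyCompactSpace X]
    {ι : Type} [Fintype ι] (g : ι → C(X, ℂ)) (m k : ℕ) (hmk : m + k = Fintype.card ι)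
    (hemb : IsEmbedding (fun (x : X) (i : ι) => g i x))
    (hsm : ∀ x₀ : X, ∃ F : Fin k → (ι → ℂ) → ℂ, (∀ i, F i ∈ entireOn ι) ∧
      (∀ i x, F i (fun j => g j x) = 0) ∧
      LinearIndependent ℂ (fun i => fderiv ℂ (F i) (fun j => g j x₀)) ∧
      ∃ U ∈ 𝓝 (fun j => g j x₀), ∀ a ∈ U, (∀ i, F i a = 0) → ∃ x, (fun j => g j x) = a) :
    HasCharts m (closedAlg g) := by
  classical
  intro x₀
  obtain ⟨F, hF, hF0, hind, U, hU, hUr⟩ := hsm x₀
  set G : X → (ι → ℂ) := fun x i => g i x with hG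
  have hGc : Continuous G := continuous_pi fun i => (g i).continuous
  obtain ⟨ℓ, N, V, lam, hN, haN, hNU, hV, hlam, hlamV, hNa, htan⟩ := implicit m k
    (by rw [hmk, Module.finrank_fintype_fun_eq_card]) F (fun i => entire_contDiff _ (hF i))
    (G x₀) (fun i => hF0 i x₀) hind U hU
  -- the inverse chart
  have hκex : ∀ y : Fin m → ℂ, ∃ x : X, y ∈ V → G x = lam y := by
    intro y
    by_cases hy : y ∈ V
    · obtain ⟨h1, h2, -⟩ := hlamV y hy
      obtain ⟨x, hx⟩ := hUr _ (hNU h1) h2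
      exact ⟨x, fun _ => hx⟩
    · exact ⟨x₀, fun h => absurd h hy⟩
  choose κ hκ using hκex
  have hqm : ∀ j, (fun x => ℓ j (G x)) ∈ closedAlg g := fun j => by
    obtain ⟨h, -⟩ := poly_tangent g (0 : Derivation ℂ (closedAlg g) (closedAlg g)) x₀
      (ℓ j) (clm_mem_poly (ℓ j))
    exact h
  have hbase := hNa (G x₀) haN (fun i => hF0 i x₀)
  have hGκ : ∀ y ∈ V, G (κ y) = lam y := fun y hy => hκ y hy
  have himage : κ '' V = G ⁻¹' N := by
    ext x
    constructor
    · rintro ⟨y, hy, rfl⟩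
      show G (κ y) ∈ N
      rw [hGκ y hy]
      exact (hlamV y hy).1
    · intro hx
      obtain ⟨h1, h2⟩ := hNa (G x) hx (fun i => hF0 i x)
      refine ⟨_, h1, hemb.injective ?_⟩
      show G (κ _) = G x
      rw [hGκ _ h1, h2]
  have hκc : ContinuousOn κ V := by
    rw [hemb.isInducing.continuousOn_iff]
    exact hlam.continuousOn.congr fun y hy => hGκ y hy
  have hpolyκ : ∀ H ∈ polyOn ι, ContDiffOn ℂ 1 (fun y => H (G (κ y))) V := by
    intro H hH
    have h1 : ContDiffOn ℂ 1 (fun y => H (lam y)) V :=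
      (polyOn_contDiff H hH).comp_contDiffOn hlam
    exact h1.congr fun y hy => by rw [hGκ y hy]
  have hfκ : ∀ f : closedAlg g, ContDiffOn ℂ 1 (fun y => f (κ y)) V := by
    intro f
    refine wei hV _ fun K hKV hK ε hε => ?_
    obtain ⟨P, hP, h1⟩ := f.2 (κ '' K) (hK.image_of_continuousOn (hκc.mono hKV)) ε hε
    obtain ⟨H, hH, rfl⟩ := adjoin_eq_poly g P hP
    exact ⟨_, hpolyκ H hH, fun y hy => h1 _ ⟨y, hy, rfl⟩⟩
  refine ⟨fun j => ⟨_, hqm j⟩, κ, V, hV, hbase.1, ?_, hκc, ?_, ?_, hfκ, ?_⟩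
  · refine hemb.injective ?_
    show G (κ _) = G x₀
    rw [hGκ _ hbase.1]
    exact hbase.2
  · intro y hy j
    show ℓ j (G (κ y)) = y j
    rw [hGκ y hy]
    exact (hlamV y hy).2.2 j
  · rw [himage]
    exact hN.preimage hGc
  · -- tangent property
    intro D hD f y hy
    set ξ : ι → ℂ := fun i => (D (gens g i)) (κ y) with hξ
    have hη : ∀ j, (D ⟨_, hqm j⟩) (κ y) = ℓ j ξ := by
      intro j
      obtain ⟨h, e⟩ := poly_tangent g D (κ y) (ℓ j) (clm_mem_poly (ℓ j))
      rw [(ℓ j).fderiv] at e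
      exact e
    have hFξ : ∀ i, fderiv ℂ (F i) (lam y) ξ = 0 := by
      intro i
      have h1 := entire_tangent g D hD (κ y) (F i) (hF i)
      have h2 : (⟨_, entire_comp_mem g (F i) (hF i)⟩ : closedAlg g) = 0 := by
        apply Subtype.ext
        funext x
        exact hF0 i x
      rw [h2, map_zero] at h1
      have h3 : (fun i => g i (κ y)) = lam y := hGκ y hy
      rw [h3] at h1
      exact h1.symm
    have hξη := htan y hy ξ hFξ
    have hηeq : (fun j => (D ⟨_, hqm j⟩) (κ y)) = fun j => ℓ j ξ := funext hη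
    rw [hηeq]
    -- polynomials
    have hpoly : ∀ H ∈ polyOn ι, ∃ h : (fun x => H (G x)) ∈ closedAlg g,
        (D ⟨_, h⟩) (κ y) = fderiv ℂ (fun y => H (G (κ y))) y (fun j => ℓ j ξ) := by
      intro H hH
      obtain ⟨h, e⟩ := poly_tangent g D (κ y) H hH
      refine ⟨h, e.trans ?_⟩
      have h3 : (fun i => g i (κ y)) = lam y := hGκ y hy
      rw [h3]
      have h4 : (fun y => H (G (κ y))) =ᶠ[𝓝 y] fun y => H (lam y) := by
        filter_upwards [hV.mem_nhds hy] with y' hy'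
        rw [hGκ y' hy']
      rw [h4.fderiv_eq]
      have h5 : HasFDerivAt (fun y => H (lam y)) ((fderiv ℂ H (lam y)).comp (fderiv ℂ lam y)) y :=
        HasFDerivAt.comp y
          (((polyOn_contDiff H hH).differentiable (by norm_num)) (lam y)).hasFDerivAt
          ((hlam.contDiffAt (hV.mem_nhds hy)).differentiableAt (by norm_num)).hasFDerivAt
      rw [h5.fderiv]
      show fderiv ℂ H (lam y) ξ = fderiv ℂ H (lam y) (fderiv ℂ lam y fun j => ℓ j ξ)
      rw [← hξη]
    set η : Fin m → ℂ := fun j => ℓ j ξ with hηdef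
    -- limit
    obtain ⟨r, hr, hball⟩ := Metric.nhds_basis_closedBall.mem_iff.mp (hV.mem_nhds hy)
    have hlim : ∀ ε > 0, ‖(D f) (κ y) - fderiv ℂ (fun y => f (κ y)) y η‖ ≤ ε := by
      intro ε hε
      obtain ⟨K', hK', δ, hδ, h1⟩ := hD {κ y} isCompact_singleton (ε / 2) (by positivity)
      set ε' := ε * r / (2 * (‖η‖ + 1)) with hε'
      have hε'pos : 0 < ε' := by positivity
      obtain ⟨P, hP, h2⟩ := f.2 (K' ∪ κ '' Metric.closedBall y r)
        (hK'.union ((isCompact_closedBall _ _).image_of_continuousOn (hκc.mono hball)))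
        (min δ ε') (lt_min hδ hε'pos)
      obtain ⟨H, hH, rfl⟩ := adjoin_eq_poly g P hP
      obtain ⟨hHm, hHD⟩ := hpoly H hH
      have h3 := h1 (f - ⟨_, hHm⟩) (fun z hz =>
        (h2 z (Or.inl hz)).trans_le (min_le_left _ _)) (κ y) rfl
      rw [map_sub] at h3
      have h3' : ‖(D f) (κ y) - (D ⟨_, hHm⟩) (κ y)‖ < ε / 2 := h3
      have hd1 : ∀ z ∈ V, DifferentiableAt ℂ (fun y => f (κ y)) z := fun z hz =>
        ((hfκ f).contDiffAt (hV.mem_nhds hz)).differentiableAt (by norm_num)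
      have hd2 : ∀ z ∈ V, DifferentiableAt ℂ (fun y => H (G (κ y))) z := fun z hz =>
        ((hpolyκ H hH).contDiffAt (hV.mem_nhds hz)).differentiableAt (by norm_num)
      have h4 := cauchy_fderiv (fun z => f (κ z) - H (G (κ z))) y r ε' hr
        (fun z hz => (hd1 z (hball hz)).sub (hd2 z (hball hz)))
        (fun z hz => ((h2 (κ z) (Or.inr ⟨z, hz, rfl⟩)).trans_le (min_le_right _ _)).le)
      rw [fderiv_fun_sub (hd1 y hy) (hd2 y hy)] at h4
      have h5 : (D f) (κ y) - fderiv ℂ (fun y => f (κ y)) y η =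
          ((D f) (κ y) - (D ⟨_, hHm⟩) (κ y)) -
            (fderiv ℂ (fun y => f (κ y)) y - fderiv ℂ (fun y => H (G (κ y))) y) η := by
        rw [hHD]
        show _ = _ - (fderiv ℂ (fun y => f (κ y)) y η - fderiv ℂ (fun y => H (G (κ y))) y η)
        ring
      rw [h5]
      have h6 := norm_sub_le ((D f) (κ y) - (D ⟨_, hHm⟩) (κ y))
        ((fderiv ℂ (fun y => f (κ y)) y - fderiv ℂ (fun y => H (G (κ y))) y) η)
      have h7 := (fderiv ℂ (fun y => f (κ y)) y -
        fderiv ℂ (fun y => H (G (κ y))) y).le_opNorm η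
      have h8 : ‖fderiv ℂ (fun y => f (κ y)) y - fderiv ℂ (fun y => H (G (κ y))) y‖ * ‖η‖ ≤
          ε' / r * (‖η‖ + 1) := by
        gcongr
        linarith
      have h9 : ε' / r * (‖η‖ + 1) = ε / 2 := by rw [hε']; field_simp
      linarith
    have h0 : ‖(D f) (κ y) - fderiv ℂ (fun y => f (κ y)) y η‖ ≤ 0 :=
      le_of_forall_pos_le_add fun ε hε => by simpa using hlim ε hε
    exact sub_eq_zero.mp (norm_le_zero_iff.mp h0)

end Pool.Agent.MP_fe3720
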