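import Pool.Agent.Work.MP_fe3720_an.Gel
import Pool.Agent.Work.MP_fe3720_an.Closed

/-! # Module Conv: `Z` and `Z × ℂ` are exhausted by polynomially convex compact sets

`Z` is closed in `ℂ^N`: its complement is open, as for `p ∉ Z` there is `F ∈ entire N` (continuous:
`ℂ^N` is locally compact; see module Closed `closedAlg_cont`) with `F = 0` on `Z` and `F p ≠ 0`.

Let `K ⊆ Z` be compact, `K ⊆ K' = {z ∈ Z | ∀ i, ‖z i‖ ≤ R}` for some `R > 0`, compact as `Z` is closed. Let `a ∈ ℂ^N`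
with `‖P(a)‖ ≤ C` whenever `‖P‖ ≤ C` on `K'`. With `P = X_i`: `‖a i‖ ≤ R`. If `a ∉ Z` let `F ∈ entire N` vanish on
`Z` with `F a ≠ 0`; there is a polynomial `P` (an element of `Algebra.adjoin` of the coordinate
functions is `z ↦ MvPolynomial.eval z P`) with `‖F - P‖ < ε = ‖F a‖/3` on the compact set
`{a} ∪ K'` (image in `ℂ^N`); so `‖P‖ ≤ ε` on `K'`, hence `‖P(a)‖ ≤ ε` and `‖F a‖ ≤ 2 ε`,
contradiction. So `a ∈ Z` and `a ∈ K'`.

For `Z × ℂ` the generators are indexed by `Fin N ⊕ Unit`; `K' = {(z,w) | z ∈ Z, ‖z i‖ ≤ R, ‖w‖ ≤ R}`; use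
`MvPolynomial.rename Sum.inl` to see a polynomial in `z` as a polynomial in `(z,w)`. -/

namespace Pool.Agent.MP_fe3720

open Topology

variable {N d : ℕ} {Z : Set (Fin N → ℂ)}

theorem isClosed_of_submanifold (hZ : IsSteinSubmanifold N d Z) : IsClosed Z := by
  rw [← isOpen_compl_iff, isOpen_iff_mem_nhds]
  intro p hp
  obtain ⟨F, hF, hFZ, hFp⟩ := hZ.zeroSet p hp
  have hc : Continuous F := closedAlg_cont _ F hF
  filter_upwards [hc.continuousAt.eventually_ne hFp] with q hq hqZ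
  exact hq (hFZ q hqZ)

/-- polynomials in the coordinates are given by `MvPolynomial.eval` -/
theorem poly_of_adjoin (P : (Fin N → ℂ) → ℂ)
    (hP : P ∈ Algebra.adjoin ℂ (Set.range fun i : Fin N => (fun z : Fin N → ℂ => z i))) :
    ∃ Q : MvPolynomial (Fin N) ℂ, ∀ z, P z = MvPolynomial.eval z Q := by
  induction hP using Algebra.adjoin_induction with
  | mem x hx => obtain ⟨i, rfl⟩ := hx; exact ⟨MvPolynomial.X i, fun z => by simp⟩
  | algebraMap r => exact ⟨MvPolynomial.C r, fun z => by simp⟩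
  | add x y _ _ hx hy =>
    obtain ⟨Q, h⟩ := hx
    obtain ⟨Q', h'⟩ := hy
    exact ⟨Q + Q', fun z => by rw [Pi.add_apply, h, h', map_add]⟩
  | mul x y _ _ hx hy =>
    obtain ⟨Q, h⟩ := hx
    obtain ⟨Q', h'⟩ := hy
    exact ⟨Q * Q', fun z => by rw [Pi.mul_apply, h, h', map_mul]⟩

/-- a point outside `Z` is not in the polynomial hull of a compact subset of `Z` -/
theorem mem_of_hull (hZ : IsSteinSubmanifold N d Z) (K : Set (Fin N → ℂ)) (hK : IsCompact K)
    (hKZ : K ⊆ Z) (a : Fin N → ℂ)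
    (ha : ∀ (P : MvPolynomial (Fin N) ℂ) (C : ℝ),
      (∀ z ∈ K, ‖MvPolynomial.eval z P‖ ≤ C) → ‖MvPolynomial.eval a P‖ ≤ C) : a ∈ Z := by
  by_contra haZ
  obtain ⟨F, hF, hFZ, hFa⟩ := hZ.zeroSet a haZ
  have hpos : 0 < ‖F a‖ := norm_pos_iff.mpr hFa
  obtain ⟨P, hP, h⟩ := hF (insert a K) (hK.insert a) (‖F a‖ / 3) (by positivity)
  obtain ⟨Q, hQ⟩ := poly_of_adjoin P hP
  have h1 := ha Q (‖F a‖ / 3) (fun z hz => by
    have h2 := h z (Or.inr hz)
    rw [hFZ z (hKZ hz), zero_sub, norm_neg] at h2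
    rw [← hQ]
    exact h2.le)
  have h2 := h a (Or.inl rfl)
  rw [← hQ] at h1
  have h3 : F a = (F a - P a) + P a := by ring
  have h4 := norm_add_le (F a - P a) (P a)
  rw [← h3] at h4
  linarith

theorem idealsDense_hol (hZ : IsSteinSubmanifold N d Z) : IdealsDense (hol Z) := by
  refine idealsDense_closedAlg _ fun K hK => ?_
  obtain ⟨R, hR⟩ := (hK.image continuous_subtype_val).isBounded.subset_closedBall (0 : Fin N → ℂ)
  set R' := max R 0 with hR'
  have hcl := isClosed_of_submanifold hZ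
  have hKc : IsCompact (Z ∩ Metric.closedBall (0 : Fin N → ℂ) R') :=
    (isCompact_closedBall _ _).inter_left hcl
  refine ⟨Subtype.val ⁻¹' Metric.closedBall (0 : Fin N → ℂ) R', ?_, ?_, ?_⟩
  · rw [Topology.IsEmbedding.subtypeVal.isCompact_iff, Subtype.image_preimage_coe]
    exact hKc
  · intro x hx
    exact Metric.closedBall_subset_closedBall (le_max_left _ _) (hR ⟨x, hx, rfl⟩)
  · intro a ha
    have haZ : a ∈ Z := by
      refine mem_of_hull hZ _ hKc Set.inter_subset_left a fun P C hC => ha P C ?_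
      intro x hx
      exact hC x.1 ⟨x.2, hx⟩
    refine ⟨⟨a, haZ⟩, ?_, rfl⟩
    show a ∈ Metric.closedBall (0 : Fin N → ℂ) R'
    rw [mem_closedBall_zero_iff, pi_norm_le_iff_of_nonneg (le_max_right _ _)]
    intro i
    have h1 := ha (MvPolynomial.X i) R' (fun x hx => by
      rw [MvPolynomial.eval_X]
      have h2 : x.1 ∈ Metric.closedBall (0 : Fin N → ℂ) R' := hx
      rw [mem_closedBall_zero_iff, pi_norm_le_iff_of_nonneg (le_max_right _ _)] at h2
      exact h2 i)
    rwa [MvPolynomial.eval_X] at h1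

theorem idealsDense_holLine (hZ : IsSteinSubmanifold N d Z) : IdealsDense (holLine Z) := by
  refine idealsDense_closedAlg _ fun K hK => ?_
  obtain ⟨R, hR⟩ := ((hK.image continuous_fst).image
    continuous_subtype_val).isBounded.subset_closedBall (0 : Fin N → ℂ)
  obtain ⟨R₂, hR₂⟩ := (hK.image continuous_snd).isBounded.subset_closedBall (0 : ℂ)
  set R' := max R 0 with hR'
  have hcl := isClosed_of_submanifold hZ
  have hKc : IsCompact (Z ∩ Metric.closedBall (0 : Fin N → ℂ) R') :=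
    (isCompact_closedBall _ _).inter_left hcl
  have hKc' : IsCompact (Subtype.val ⁻¹' Metric.closedBall (0 : Fin N → ℂ) R' : Set Z) := by
    rw [Topology.IsEmbedding.subtypeVal.isCompact_iff, Subtype.image_preimage_coe]
    exact hKc
  refine ⟨(Subtype.val ⁻¹' Metric.closedBall (0 : Fin N → ℂ) R') ×ˢ
    Metric.closedBall (0 : ℂ) R₂, hKc'.prod (isCompact_closedBall _ _), ?_, ?_⟩
  · intro x hx
    exact ⟨Metric.closedBall_subset_closedBall (le_max_left _ _) (hR ⟨x.1, ⟨x, hx, rfl⟩, rfl⟩),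
      hR₂ ⟨x, hx, rfl⟩⟩
  · intro a ha
    have haZ : (fun i => a (Sum.inl i)) ∈ Z := by
      refine mem_of_hull hZ _ hKc Set.inter_subset_left _ fun P C hC => ?_
      have h1 := ha (MvPolynomial.rename Sum.inl P) C (fun x hx => by
        rw [MvPolynomial.eval_rename]
        exact hC x.1.1 ⟨x.1.2, hx.1⟩)
      rw [MvPolynomial.eval_rename] at h1
      exact h1
    refine ⟨(⟨_, haZ⟩, a (Sum.inr ())), ⟨?_, ?_⟩, ?_⟩
    · show (fun i => a (Sum.inl i)) ∈ Metric.closedBall (0 : Fin N → ℂ) R'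
      rw [mem_closedBall_zero_iff, pi_norm_le_iff_of_nonneg (le_max_right _ _)]
      intro i
      have h1 := ha (MvPolynomial.X (Sum.inl i)) R' (fun x hx => by
        rw [MvPolynomial.eval_X]
        have h2 : x.1.1 ∈ Metric.closedBall (0 : Fin N → ℂ) R' := hx.1
        rw [mem_closedBall_zero_iff, pi_norm_le_iff_of_nonneg (le_max_right _ _)] at h2
        exact h2 i)
      rwa [MvPolynomial.eval_X] at h1
    · show a (Sum.inr ()) ∈ Metric.closedBall (0 : ℂ) R₂
      rw [mem_closedBall_zero_iff]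
      have h1 := ha (MvPolynomial.X (Sum.inr ())) R₂ (fun x hx => by
        rw [MvPolynomial.eval_X]
        have h2 : x.2 ∈ Metric.closedBall (0 : ℂ) R₂ := hx.2
        rw [mem_closedBall_zero_iff] at h2
        exact h2)
      rwa [MvPolynomial.eval_X] at h1
    · funext i
      rcases i with i | u
      · rfl
      · rfl

end Pool.Agent.MP_fe3720
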