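import Pool.Agent.Work.MP_fe3720_an.ChartB
import Pool.Agent.Work.MP_fe3720_an.Conv

/-! # Module ChartHol: charts of `Z` and of `Z × ℂ`

Apply `hasCharts_closedAlg`.
* `hol Z`: `ι = Fin N`, `m = d`, `k = N - d`, `G = Subtype.val` (`Topology.IsEmbedding.subtypeVal`), `F`, `U` from
  `hZ.smooth` (`entireOn (Fin N) = entire N` by definition, `rfl`).
* `holLine Z`: `ι = Fin N ⊕ Unit`, `m = d + 1`, `k = N - d`, `G (z, w) = Sum.elim z (fun _ => w)` is an
  embedding (`Topology.IsInducing`: e.g. the homeomorphism `(Fin N ⊕ Unit → ℂ) ≃ₜ (Fin N → ℂ) × (Unit → ℂ)`,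
  `Homeomorph.sumArrowHomeomorphProdArrow`, or a continuous left inverse on the range). For
  `x₀ = (z₀, w₀)` take `F'_i a = F_i (fun j => a (Sum.inl j))`, in `entireOn ι` by `comp_mem`
  (`closedAlg_isClosedAlg` for `ι → ℂ`), with `fderiv F'_i = fderiv F_i ∘ pr`, `pr` the surjective
  projection, so they are linearly independent; `U' = pr ⁻¹' U`.
* `perfect_hol`: a point of `Z` is not isolated if `d ≥ 1`: if `{x₀}` is open in `Z`, let `q, κ, V` be a chart at
  `x₀`; `κ` is continuous on `V`, `κ y₀ = x₀`, so `κ y = x₀` for `y ∈ V` near `y₀`, hence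
  `y j = q j (κ y) = q j x₀ = y₀ j` for all `y` near `y₀`, impossible as `Fin d → ℂ` is nontrivial. Stated for a
  general space with charts. -/

namespace Pool.Agent.MP_fe3720

open Topology

variable {N d : ℕ} {Z : Set (Fin N → ℂ)}

theorem hasCharts_hol (hZ : IsSteinSubmanifold N d Z) : HasCharts d (hol Z) := by
  have hc := isClosed_of_submanifold hZ
  have : LocallyCompactSpace Z := hc.isClosedEmbedding_subtypeVal.locallyCompactSpace
  refine hasCharts_closedAlg _ d (N - d) ?_ ?_ ?_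
  · rw [Fintype.card_fin]
    have := hZ.le
    omega
  · exact Topology.IsEmbedding.subtypeVal
  · intro x₀
    obtain ⟨F, h1, h2, h3, U, hU, h4⟩ := hZ.smooth x₀.1 x₀.2
    exact ⟨F, h1, fun i x => h2 i x.1 x.2, h3, U, hU, fun a ha hFa => ⟨⟨a, h4 a ha hFa⟩, rfl⟩⟩

theorem hasCharts_holLine (hZ : IsSteinSubmanifold N d Z) : HasCharts (d + 1) (holLine Z) := by
  have hc := isClosed_of_submanifold hZ
  have : LocallyCompactSpace Z := hc.isClosedEmbedding_subtypeVal.locallyCompactSpace
  -- the projection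
  set pr : (Fin N ⊕ Unit → ℂ) →L[ℂ] (Fin N → ℂ) :=
    ContinuousLinearMap.pi fun j => ContinuousLinearMap.proj (Sum.inl j) with hpr
  have hpra : ∀ a j, pr a j = a (Sum.inl j) := fun a j => rfl
  refine hasCharts_closedAlg _ (d + 1) (N - d) ?_ ?_ ?_
  · rw [Fintype.card_sum, Fintype.card_fin, Fintype.card_unit]
    have := hZ.le
    omega
  · refine Topology.IsEmbedding.of_comp (g := fun a : Fin N ⊕ Unit → ℂ =>
      ((fun j => a (Sum.inl j) : Fin N → ℂ), a (Sum.inr ()))) ?_ ?_ ?_
    · exact continuous_pi fun i => ContinuousMap.continuous _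
    · exact (continuous_pi fun j => continuous_apply _).prodMk (continuous_apply _)
    · exact Topology.IsEmbedding.subtypeVal.prodMap Topology.IsEmbedding.id
  · intro x₀
    obtain ⟨F, h1, h2, h3, U, hU, h4⟩ := hZ.smooth x₀.1.1 x₀.1.2
    have hF1 : ∀ i, F i ∈ entireOn (Fin N) := h1
    refine ⟨fun i a => F i (pr a), fun i => ?_, fun i x => h2 i x.1.1 x.1.2, ?_,
      pr ⁻¹' U, ?_, fun a ha hFa => ?_⟩
    · exact comp_mem (closedAlg_isClosedAlg _) _ pr pr.continuous
        (fun j => gen_mem (fun i : Fin N ⊕ Unit =>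
          (⟨fun z => z i, continuous_apply i⟩ : C(Fin N ⊕ Unit → ℂ, ℂ))) (Sum.inl j)) (F i) (hF1 i)
    · have hd : ∀ i, fderiv ℂ (fun a => F i (pr a)) (fun j => (Sum.elim
            (fun i : Fin N => (⟨fun p : Z × ℂ => p.1.1 i,
              (continuous_apply i).comp (continuous_subtype_val.comp continuous_fst)⟩ : C(Z × ℂ, ℂ)))
            (fun _ : Unit => (⟨fun p : Z × ℂ => p.2, continuous_snd⟩ : C(Z × ℂ, ℂ)))) j x₀) =
          (fderiv ℂ (F i) x₀.1.1).comp pr := by
        intro i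
        have hdiff : DifferentiableAt ℂ (F i) x₀.1.1 :=
          ((entire_contDiff _ (hF1 i)).differentiable (by norm_num)).differentiableAt
        exact (HasFDerivAt.comp (g := F i) (f := pr) _ hdiff.hasFDerivAt pr.hasFDerivAt).fderiv
      simp only [hd]
      rw [linearIndependent_iff'] at h3 ⊢
      intro s c hs i hi
      refine h3 s c ?_ i hi
      ext v
      have h5 := DFunLike.congr_fun hs (Sum.elim v fun _ => 0)
      simp only [ContinuousLinearMap.sum_apply, ContinuousLinearMap.smul_apply,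
        ContinuousLinearMap.comp_apply, ContinuousLinearMap.zero_apply] at h5 ⊢
      have h6 : pr (Sum.elim v fun _ => 0) = v := by
        funext j
        rfl
      rw [h6] at h5
      exact h5
    · exact pr.continuous.continuousAt.preimage_mem_nhds hU
    · refine ⟨(⟨pr a, h4 _ ha hFa⟩, a (Sum.inr ())), ?_⟩
      funext j
      rcases j with j | j <;> rfl

theorem perfect_of_charts {X : Type} [TopologicalSpace X] {O : Subalgebra ℂ (X → ℂ)} {m : ℕ}
    (hm : 1 ≤ m) (hch : HasCharts m O) (x : X) : (𝓝[≠] x).NeBot := by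
  by_contra hne
  rw [Filter.not_neBot, ← isOpen_singleton_iff_punctured_nhds] at hne
  obtain ⟨q, κ, V, hV, h0, hκ0, hκc, hq, -, -, -⟩ := hch x
  set y₀ : Fin m → ℂ := fun j => (q j) x with hy₀
  have h1 : κ ⁻¹' {x} ∈ 𝓝 y₀ := by
    have h2 := (hκc.continuousAt (hV.mem_nhds h0)).preimage_mem_nhds
      (hne.mem_nhds (show κ y₀ ∈ ({x} : Set X) from hκ0))
    exact h2
  have h2 : ({y₀} : Set (Fin m → ℂ)) ∈ 𝓝 y₀ := by
    filter_upwards [h1, hV.mem_nhds h0] with y hy1 hy2
    have hy3 : κ y = x := hy1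
    change y = y₀
    funext j
    rw [← hq y hy2 j, hy3]
  have : Nonempty (Fin m) := ⟨⟨0, hm⟩⟩
  have h3 := Module.punctured_nhds_neBot ℂ (Fin m → ℂ) y₀
  have h4 : IsOpen ({y₀} : Set (Fin m → ℂ)) := isOpen_singleton_iff_nhds_eq_pure y₀ |>.2
    (le_antisymm (Filter.le_pure_iff.2 h2) (pure_le_nhds _))
  rw [isOpen_singleton_iff_punctured_nhds] at h4
  exact h3.ne h4

end Pool.Agent.MP_fe3720
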