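import Pool.Agent.Work.MP_fe3720_an.Base

/-! # Module Cl: the closure of the Lie algebra generated by the complete fields

* continuous derivations (`IsVF`) are closed under sums, scalars, products with functions of `O`
  (which are continuous, hence bounded on compact sets), and brackets: `⁅D, E⁆ f = D (E f) - E (D f)`
  (`Derivation.commutator_apply`), compositions of continuous maps. For sums with different
  compact sets `K'₁, K'₂` use `K'₁ ∪ K'₂` and `min δ₁ δ₂`.
* elements of `completeLie O` are `IsVF`: induction (`LieSubalgebra.lieSpan_induction` or the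
  universal property `LieSubalgebra.lieSpan_le` with the Lie subalgebra of all `IsVF`).
* `clLie` is closed under brackets, in two steps.
  Step 1: `D ∈ clLie`, `E ∈ completeLie` ⇒ `⁅D, E⁆ ∈ clLie`: given `S, K, ε`, let `K', δ` be from the
  continuity of `E` for `K, ε/2`; choose `U ∈ completeLie` with `D - U` small (`ε/2`) on `K` for the
  functions `E f` (`f ∈ S`), and `< δ` on `K'` for `f ∈ S`. Then `⁅U, E⁆ ∈ completeLie` and
  `⁅D, E⁆ f - ⁅U, E⁆ f = (D - U) (E f) - E ((D - U) f)`.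
  Step 2: `D, E ∈ clLie`: given `S, K, ε`, let `K', δ` be from the continuity of `D` for `K, ε/4`;
  choose `U ∈ completeLie` with `E - U` small on `K` for the functions `D f` and `< δ` on `K'` for
  `f ∈ S`; then `⁅D, E⁆ f - ⁅D, U⁆ f = D ((E - U) f) - (E - U) (D f)` is small on `K`, and by step 1
  `⁅D, U⁆ ∈ clLie` is approximated by an element of `completeLie`.
* `clLie_closed`: given `S, K, ε`, the functions `D f` (`f ∈ S`) are continuous, so bounded by `C` on
  `K`; take `G` with `‖F - G‖ < ε / (2 (C + 1))` on `K` and approximate `G • D` within `ε/2`. -/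

namespace Pool.Agent.MP_fe3720

open Topology

variable {X : Type} [TopologicalSpace X] {O : Subalgebra ℂ (X → ℂ)}

theorem isVF_zero : IsVF (0 : Derivation ℂ O O) := by
  intro K _ ε hε
  refine ⟨∅, isCompact_empty, 1, one_pos, fun f _ x _ => ?_⟩
  show ‖(0 : ℂ)‖ < ε
  simpa using hε

theorem IsVF.add {D E : Derivation ℂ O O} (hD : IsVF D) (hE : IsVF E) : IsVF (D + E) := by
  intro K hK ε hε
  obtain ⟨K1, hK1, δ1, hδ1, h1⟩ := hD K hK (ε / 2) (by positivity)
  obtain ⟨K2, hK2, δ2, hδ2, h2⟩ := hE K hK (ε / 2) (by positivity)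
  refine ⟨K1 ∪ K2, hK1.union hK2, min δ1 δ2, lt_min hδ1 hδ2, fun f hf x hx => ?_⟩
  have a1 := h1 f (fun y hy => (hf y (Or.inl hy)).trans_le (min_le_left _ _)) x hx
  have a2 := h2 f (fun y hy => (hf y (Or.inr hy)).trans_le (min_le_right _ _)) x hx
  show ‖(D f) x + (E f) x‖ < ε
  have := norm_add_le ((D f) x) ((E f) x)
  linarith

theorem IsVF.csmul {D : Derivation ℂ O O} (hD : IsVF D) (c : ℂ) : IsVF (c • D) := by
  intro K hK ε hε
  obtain ⟨K1, hK1, δ1, hδ1, h1⟩ := hD K hK (ε / (‖c‖ + 1)) (by positivity)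
  refine ⟨K1, hK1, δ1, hδ1, fun f hf x hx => ?_⟩
  have a1 := h1 f hf x hx
  show ‖c * (D f) x‖ < ε
  rw [norm_mul]
  rw [lt_div_iff₀ (by positivity)] at a1
  have h2 : 0 ≤ ‖(D f) x‖ := norm_nonneg _
  nlinarith [norm_nonneg c]

theorem IsVF.fsmul (hc : ∀ f ∈ O, Continuous f) {D : Derivation ℂ O O} (hD : IsVF D) (F : O) :
    IsVF (F • D) := by
  intro K hK ε hε
  obtain ⟨C, hC⟩ := hK.exists_bound_of_continuousOn (hc F F.2).continuousOn
  obtain ⟨K1, hK1, δ1, hδ1, h1⟩ := hD K hK (ε / (|C| + 1)) (by positivity)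
  refine ⟨K1, hK1, δ1, hδ1, fun f hf x hx => ?_⟩
  have a1 := h1 f hf x hx
  show ‖F x * (D f) x‖ < ε
  rw [norm_mul]
  rw [lt_div_iff₀ (by positivity)] at a1
  have h2 : 0 ≤ ‖(D f) x‖ := norm_nonneg _
  have h3 : ‖F x‖ ≤ |C| := (hC x hx).trans (le_abs_self C)
  nlinarith [norm_nonneg (F x)]

theorem IsVF.lie {D E : Derivation ℂ O O} (hD : IsVF D) (hE : IsVF E) : IsVF ⁅D, E⁆ := by
  intro K hK ε hε
  obtain ⟨K1, hK1, δ1, hδ1, h1⟩ := hD K hK (ε / 2) (by positivity)
  obtain ⟨K2, hK2, δ2, hδ2, h2⟩ := hE K hK (ε / 2) (by positivity)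
  obtain ⟨K3, hK3, δ3, hδ3, h3⟩ := hE K1 hK1 δ1 hδ1
  obtain ⟨K4, hK4, δ4, hδ4, h4⟩ := hD K2 hK2 δ2 hδ2
  refine ⟨K3 ∪ K4, hK3.union hK4, min δ3 δ4, lt_min hδ3 hδ4, fun f hf x hx => ?_⟩
  have a1 := h1 (E f) (h3 f (fun y hy => (hf y (Or.inl hy)).trans_le (min_le_left _ _))) x hx
  have a2 := h2 (D f) (h4 f (fun y hy => (hf y (Or.inr hy)).trans_le (min_le_right _ _))) x hx
  rw [Derivation.commutator_apply]
  show ‖(D (E f)) x - (E (D f)) x‖ < ε
  have := norm_sub_le ((D (E f)) x) ((E (D f)) x)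
  linarith

theorem isVF_of_complete {U : Derivation ℂ O O} (hU : IsCompleteVF U) : IsVF U := hU.1

/-- the Lie algebra of the continuous derivations -/
def vfLie (O : Subalgebra ℂ (X → ℂ)) : LieSubalgebra ℂ (Derivation ℂ O O) where
  carrier := {D | IsVF D}
  add_mem' := fun h1 h2 => IsVF.add h1 h2
  zero_mem' := isVF_zero
  smul_mem' := fun c _ h => IsVF.csmul h c
  lie_mem' := fun h1 h2 => IsVF.lie h1 h2

theorem isVF_of_mem_completeLie {U : Derivation ℂ O O} (hU : U ∈ completeLie O) : IsVF U := by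
  have h : completeLie O ≤ vfLie O := LieSubalgebra.lieSpan_le.mpr fun E hE => hE.1
  exact h hU

theorem mem_clLie_of_completeLie {U : Derivation ℂ O O} (hU : U ∈ completeLie O) :
    U ∈ clLie O :=
  ⟨isVF_of_mem_completeLie hU, fun S K _ ε hε => ⟨U, hU, fun f _ x _ => by simpa using hε⟩⟩

theorem mem_clLie_of_complete {U : Derivation ℂ O O} (hU : IsCompleteVF U) : U ∈ clLie O :=
  mem_clLie_of_completeLie (LieSubalgebra.subset_lieSpan hU)

theorem clLie_zero : (0 : Derivation ℂ O O) ∈ clLie O :=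
  mem_clLie_of_completeLie (completeLie O).zero_mem

theorem clLie_add {D E : Derivation ℂ O O} (hD : D ∈ clLie O) (hE : E ∈ clLie O) :
    D + E ∈ clLie O := by
  refine ⟨hD.1.add hE.1, fun S K hK ε hε => ?_⟩
  obtain ⟨U, hU, h1⟩ := hD.2 S K hK (ε / 2) (by positivity)
  obtain ⟨V, hV, h2⟩ := hE.2 S K hK (ε / 2) (by positivity)
  refine ⟨U + V, (completeLie O).add_mem hU hV, fun f hf x hx => ?_⟩
  have a1 := h1 f hf x hx
  have a2 := h2 f hf x hx
  show ‖(D f) x + (E f) x - ((U f) x + (V f) x)‖ < ε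
  have h3 : (D f) x + (E f) x - ((U f) x + (V f) x) =
      ((D f) x - (U f) x) + ((E f) x - (V f) x) := by ring
  rw [h3]
  have := norm_add_le ((D f) x - (U f) x) ((E f) x - (V f) x)
  linarith

theorem clLie_csmul {D : Derivation ℂ O O} (hD : D ∈ clLie O) (c : ℂ) : c • D ∈ clLie O := by
  refine ⟨hD.1.csmul c, fun S K hK ε hε => ?_⟩
  obtain ⟨U, hU, h1⟩ := hD.2 S K hK (ε / (‖c‖ + 1)) (by positivity)
  refine ⟨c • U, (completeLie O).smul_mem c hU, fun f hf x hx => ?_⟩
  have a1 := h1 f hf x hx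
  show ‖c * (D f) x - c * (U f) x‖ < ε
  rw [← mul_sub, norm_mul]
  rw [lt_div_iff₀ (by positivity)] at a1
  nlinarith [norm_nonneg c, norm_nonneg ((D f) x - (U f) x)]

theorem clLie_neg {D : Derivation ℂ O O} (hD : D ∈ clLie O) : -D ∈ clLie O := by
  have e : -D = (-1 : ℂ) • D := by
    apply Derivation.ext
    intro f
    apply Subtype.ext
    funext x
    show -((D f) x) = (-1 : ℂ) * (D f) x
    ring
  rw [e]
  exact clLie_csmul hD (-1)

theorem clLie_sub {D E : Derivation ℂ O O} (hD : D ∈ clLie O) (hE : E ∈ clLie O) :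
    D - E ∈ clLie O := by
  have e : D - E = D + -E := by
    apply Derivation.ext
    intro f
    apply Subtype.ext
    funext x
    show (D f) x - (E f) x = (D f) x + -((E f) x)
    ring
  rw [e]
  exact clLie_add hD (clLie_neg hE)

theorem clLie_sum {ι : Type} (s : Finset ι) (D : ι → Derivation ℂ O O)
    (h : ∀ i ∈ s, D i ∈ clLie O) : ∑ i ∈ s, D i ∈ clLie O := by
  classical
  induction s using Finset.induction with
  | empty => simpa using clLie_zero
  | insert i s hi ih =>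
    rw [Finset.sum_insert hi]
    exact clLie_add (h i (Finset.mem_insert_self i s))
      (ih fun j hj => h j (Finset.mem_insert_of_mem hj))

theorem clLie_lie_aux {D E : Derivation ℂ O O} (hD : D ∈ clLie O) (hE : E ∈ completeLie O) :
    ⁅D, E⁆ ∈ clLie O := by
  classical
  have hEv := isVF_of_mem_completeLie hE
  refine ⟨hD.1.lie hEv, fun S K hK ε hε => ?_⟩
  obtain ⟨K1, hK1, δ1, hδ1, h1⟩ := hEv K hK (ε / 2) (by positivity)
  obtain ⟨U, hU, h2⟩ := hD.2 (S ∪ S.image E) (K ∪ K1) (hK.union hK1) (min δ1 (ε / 2))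
    (lt_min hδ1 (by positivity))
  refine ⟨⁅U, E⁆, (completeLie O).lie_mem hU hE, fun f hf x hx => ?_⟩
  rw [Derivation.commutator_apply, Derivation.commutator_apply]
  have a1 := h2 (E f) (Finset.mem_union_right _ (Finset.mem_image_of_mem _ hf)) x (Or.inl hx)
  have a2 := h1 (D f - U f) (fun y hy =>
    (h2 f (Finset.mem_union_left _ hf) y (Or.inr hy)).trans_le (min_le_left _ _)) x hx
  rw [map_sub] at a2
  have a3 : ‖(E (D f)) x - (E (U f)) x‖ < ε / 2 := a2
  have a4 : ‖(D (E f)) x - (U (E f)) x‖ < ε / 2 := a1.trans_le (min_le_right _ _)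
  show ‖((D (E f)) x - (E (D f)) x) - ((U (E f)) x - (E (U f)) x)‖ < ε
  have h3 : ((D (E f)) x - (E (D f)) x) - ((U (E f)) x - (E (U f)) x) =
      ((D (E f)) x - (U (E f)) x) - ((E (D f)) x - (E (U f)) x) := by ring
  rw [h3]
  have := norm_sub_le ((D (E f)) x - (U (E f)) x) ((E (D f)) x - (E (U f)) x)
  linarith

theorem clLie_lie {D E : Derivation ℂ O O} (hD : D ∈ clLie O) (hE : E ∈ clLie O) :
    ⁅D, E⁆ ∈ clLie O := by
  classical
  refine ⟨hD.1.lie hE.1, fun S K hK ε hε => ?_⟩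
  obtain ⟨K1, hK1, δ1, hδ1, h1⟩ := hD.1 K hK (ε / 4) (by positivity)
  obtain ⟨U, hU, h2⟩ := hE.2 (S ∪ S.image D) (K ∪ K1) (hK.union hK1) (min δ1 (ε / 4))
    (lt_min hδ1 (by positivity))
  obtain ⟨V, hV, h4⟩ := (clLie_lie_aux hD hU).2 S K hK (ε / 2) (by positivity)
  refine ⟨V, hV, fun f hf x hx => ?_⟩
  have a0 := h4 f hf x hx
  rw [Derivation.commutator_apply] at a0 ⊢
  have a1 := h2 (D f) (Finset.mem_union_right _ (Finset.mem_image_of_mem _ hf)) x (Or.inl hx)
  have a2 := h1 (E f - U f) (fun y hy =>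
    (h2 f (Finset.mem_union_left _ hf) y (Or.inr hy)).trans_le (min_le_left _ _)) x hx
  rw [map_sub] at a2
  have a3 : ‖(D (E f)) x - (D (U f)) x‖ < ε / 4 := a2
  have a4 : ‖(E (D f)) x - (U (D f)) x‖ < ε / 4 := a1.trans_le (min_le_right _ _)
  have a5 : ‖((D (U f)) x - (U (D f)) x) - (V f) x‖ < ε / 2 := a0
  show ‖((D (E f)) x - (E (D f)) x) - (V f) x‖ < ε
  have h3 : ((D (E f)) x - (E (D f)) x) - (V f) x =
      (((D (E f)) x - (D (U f)) x) - ((E (D f)) x - (U (D f)) x)) +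
        (((D (U f)) x - (U (D f)) x) - (V f) x) := by ring
  rw [h3]
  have b1 := norm_add_le (((D (E f)) x - (D (U f)) x) - ((E (D f)) x - (U (D f)) x))
        (((D (U f)) x - (U (D f)) x) - (V f) x)
  have b2 := norm_sub_le ((D (E f)) x - (D (U f)) x) ((E (D f)) x - (U (D f)) x)
  linarith

theorem clLie_closed (hc : ∀ f ∈ O, Continuous f) {D : Derivation ℂ O O} (hD : IsVF D) (F : O)
    (h : ∀ K : Set X, IsCompact K → ∀ ε > 0, ∃ G : O, G • D ∈ clLie O ∧
      ∀ x ∈ K, ‖F x - G x‖ < ε) : F • D ∈ clLie O := by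
  refine ⟨hD.fsmul hc F, fun S K hK ε hε => ?_⟩
  have hbd : ∃ C : ℝ, 0 ≤ C ∧ ∀ f ∈ S, ∀ x ∈ K, ‖(D f) x‖ ≤ C := by
    classical
    induction S using Finset.induction with
    | empty => exact ⟨0, le_rfl, by simp⟩
    | insert f S _ ih =>
      obtain ⟨C1, hC1, h1⟩ := ih
      obtain ⟨C2, h2⟩ := hK.exists_bound_of_continuousOn (hc _ (D f).2).continuousOn
      refine ⟨max C1 C2, le_max_of_le_left hC1, fun g hg x hx => ?_⟩
      rcases Finset.mem_insert.mp hg with rfl | hg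
      · exact (h2 x hx).trans (le_max_right _ _)
      · exact (h1 g hg x hx).trans (le_max_left _ _)
  obtain ⟨C, hC, hCb⟩ := hbd
  obtain ⟨G, hG, hFG⟩ := h K hK (ε / (2 * (C + 1))) (by positivity)
  obtain ⟨U, hU, h2⟩ := hG.2 S K hK (ε / 2) (by positivity)
  refine ⟨U, hU, fun f hf x hx => ?_⟩
  have a1 := h2 f hf x hx
  have a2 := hFG x hx
  have a3 := hCb f hf x hx
  have a4 : ‖G x * (D f) x - (U f) x‖ < ε / 2 := a1
  show ‖F x * (D f) x - (U f) x‖ < ε
  have h3 : F x * (D f) x - (U f) x = (F x - G x) * (D f) x + (G x * (D f) x - (U f) x) := by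
    ring
  rw [h3]
  have b1 := norm_add_le ((F x - G x) * (D f) x) (G x * (D f) x - (U f) x)
  rw [norm_mul] at b1
  rw [lt_div_iff₀ (by positivity)] at a2
  have b2 : ‖F x - G x‖ * ‖(D f) x‖ ≤ ‖F x - G x‖ * (C + 1) := by
    gcongr
    linarith
  have b3 : ‖F x - G x‖ * (C + 1) < ε / 2 := by linarith
  linarith

theorem densityProperty_of (h : ∀ D : Derivation ℂ O O, IsVF D → D ∈ clLie O) :
    DensityProperty O := fun D hD => (h D hD).2

end Pool.Agent.MP_fe3720
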