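import Pool.Agent.Work.MP_fe3720_an.Pub

/-! # Density property and RR-spaces: the same definitions with Mathlib's derivations -/

namespace Pool.Agent.MP_fe3720

open Topology

variable {X : Type} [TopologicalSpace X]

/-- A derivation of the algebra `O` of holomorphic functions is a holomorphic vector field if it
is continuous for the topology of uniform convergence on compact sets. -/
def IsVF {O : Subalgebra ℂ (X → ℂ)} (D : Derivation ℂ O O) : Prop :=
  ∀ K : Set X, IsCompact K → ∀ ε > 0, ∃ K' : Set X, IsCompact K' ∧ ∃ δ > 0,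
    ∀ f : O, (∀ x ∈ K', ‖f x‖ < δ) → ∀ x ∈ K, ‖(D f) x‖ < ε

/-- A holomorphic vector field `D` is complete: through every point there is an integral curve
defined for all complex times. -/
def IsCompleteVF {O : Subalgebra ℂ (X → ℂ)} (D : Derivation ℂ O O) : Prop :=
  IsVF D ∧ ∀ x : X, ∃ γ : ℂ → X, Continuous γ ∧ γ 0 = x ∧
    ∀ (f : O) (t : ℂ), HasDerivAt (fun s => f (γ s)) ((D f) (γ t)) t

/-- The Lie algebra generated by the complete holomorphic vector fields. -/
def completeLie (O : Subalgebra ℂ (X → ℂ)) : LieSubalgebra ℂ (Derivation ℂ O O) :=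
  LieSubalgebra.lieSpan ℂ (Derivation ℂ O O) {D | IsCompleteVF D}

/-- The density property: the Lie algebra generated by the complete holomorphic vector fields is
dense in the Lie algebra of all holomorphic vector fields, for the topology of uniform convergence
on compact sets. -/
def DensityProperty (O : Subalgebra ℂ (X → ℂ)) : Prop :=
  ∀ D : Derivation ℂ O O, IsVF D → ∀ (S : Finset O) (K : Set X), IsCompact K →
    ∀ ε > 0, ∃ U ∈ completeLie O, ∀ f ∈ S, ∀ x ∈ K, ‖(D f) x - (U f) x‖ < ε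

/-- RR-spaces: (RR1)-(RR4). -/
def IsRR (O : Subalgebra ℂ (X → ℂ)) : Prop :=
  ∃ T : Set (Set X),
    (∀ D ∈ T, D.Infinite ∧ IsClosed D ∧ DiscreteTopology D) ∧
    (∀ D ∈ T, ∀ D' ∈ T, ∀ ι : X → X, Set.MapsTo ι D D' → Set.InjOn ι D →
      ∃ φ : HolAut O, ∀ x ∈ D, φ x = ι x) ∧
    (∃ ρ : X → ℝ, Continuous ρ ∧ (∀ x, 0 ≤ ρ x) ∧ (∀ c, IsCompact {x | ρ x ≤ c}) ∧
      ∃ R : ℕ → ℝ, (∀ n, 0 < R n) ∧ ¬ BddAbove (Set.range R) ∧
        ∀ D : Set X, D.Infinite → (∀ n : ℕ, {x ∈ D | ρ x ≤ R n}.encard ≤ n) → D ∈ T) ∧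
    (∀ φ : HolAut O, ∀ D ∈ T, φ '' D ∈ T) ∧
    (∃ v : Derivation ℂ O O, IsCompleteVF v ∧ v ≠ 0 ∧
      ∃ f : O, (∃ x y, f x ≠ f y) ∧ v f = 0)

end Pool.Agent.MP_fe3720
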