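import Mathlib

/-! # Module EntireLem: a lemma on entire functions of one variable

`h` entire with `h' = h₁`; `k = (w h h₁)'`; `e = (w k)'`; if `e' = 0` everywhere then `h₁ = 0` everywhere.

Proof. `e` is constant, `e = α` (`is_const_of_deriv_eq_zero`). `(w k - α w)' = 0`, so `w k(w) - α w` is
constant, equal to its value `0` at `w = 0`. So `k(w) = α` for `w ≠ 0`; and `k(0) = e(0) = α`
because `e(0) = (w k)'(0) = lim k(w) = α`... (simply: `k` is the derivative of an entire function, so
continuous, so `k(0) = α` too). Then `(w h h₁ - α w)' = 0`, so `w h h₁ = α w` (value `0` at `0`), so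
`h h₁ = α` for `w ≠ 0`, and by continuity (`h`, `h₁` are entire) everywhere.
So `(h²)' = 2 α` and `h² = 2 α w + β`. If `α ≠ 0`, at `w* = -β/(2α)`: `h(w*)² = 0`, so `h(w*) = 0`, and
`α = h(w*) h₁(w*) = 0`, contradiction. So `α = 0`, `h² = β` is constant. If `β = 0`, `h = 0` and `h₁ = 0`. If
`β ≠ 0`, `h` has no zero and `h h₁ = 0` gives `h₁ = 0`. -/

namespace Pool.Agent.MP_fe3720

theorem const_of_deriv_zero (f : ℂ → ℂ) (hf : ∀ w, HasDerivAt f 0 w) (w : ℂ) : f w = f 0 :=
  is_const_of_deriv_eq_zero (fun w => (hf w).differentiableAt) (fun w => (hf w).deriv) w 0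

theorem entire_sq (h h₁ k e : ℂ → ℂ) (hh : ∀ w, HasDerivAt h (h₁ w) w)
    (hk : ∀ w, HasDerivAt (fun w => w * h w * h₁ w) (k w) w)
    (he : ∀ w, HasDerivAt (fun w => w * k w) (e w) w)
    (h0 : ∀ w, HasDerivAt e 0 w) : ∀ w, h₁ w = 0 := by
  -- continuity of `h`, `h₁`
  have hhd : Differentiable ℂ h := fun w => (hh w).differentiableAt
  have hh1 : deriv h = h₁ := funext fun w => (hh w).deriv
  have hh1d : Differentiable ℂ h₁ := by
    rw [← hh1]; exact hhd.deriv
  have hkd : Continuous k := by
    have h1 : deriv (fun w => w * h w * h₁ w) = k := funext fun w => (hk w).deriv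
    rw [← h1]
    have h2 : Differentiable ℂ (fun w => w * h w * h₁ w) := fun w => (hk w).differentiableAt
    exact h2.deriv.continuous
  set α := e 0 with hα
  have he' : ∀ w, e w = α := fun w => const_of_deriv_zero e h0 w
  -- `w k = α w`
  have h1 : ∀ w, w * k w = α * w := by
    intro w
    have h2 : ∀ w, HasDerivAt (fun w => w * k w - α * w) 0 w := by
      intro w
      have h3 := (he w).sub ((hasDerivAt_id w).const_mul α)
      rw [he' w, mul_one, sub_self] at h3
      exact h3
    have h3 := const_of_deriv_zero _ h2 w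
    simp only [zero_mul, mul_zero, sub_zero] at h3
    exact sub_eq_zero.mp h3
  have hk' : ∀ w, k w = α := by
    have h2 : ∀ w ∈ ({0}ᶜ : Set ℂ), k w = α := by
      intro w hw
      have hw' : w ≠ 0 := hw
      have := h1 w
      rw [mul_comm α w] at this
      exact mul_left_cancel₀ hw' this
    have hd : Dense ({0}ᶜ : Set ℂ) := dense_compl_singleton 0
    exact fun w => congrFun (hkd.ext_on hd continuous_const h2) w
  have h2 : ∀ w, w * h w * h₁ w = α * w := by
    intro w
    have h2 : ∀ w, HasDerivAt (fun w => w * h w * h₁ w - α * w) 0 w := by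
      intro w
      have h3 := (hk w).sub ((hasDerivAt_id w).const_mul α)
      rw [hk' w, mul_one, sub_self] at h3
      exact h3
    have h3 := const_of_deriv_zero _ h2 w
    simp only [zero_mul, mul_zero, sub_zero] at h3
    exact sub_eq_zero.mp h3
  have h3 : ∀ w, h w * h₁ w = α := by
    have h3 : ∀ w ∈ ({0}ᶜ : Set ℂ), h w * h₁ w = α := by
      intro w hw
      have hw' : w ≠ 0 := hw
      have := h2 w
      rw [mul_comm α w, mul_assoc] at this
      exact mul_left_cancel₀ hw' this
    have hd : Dense ({0}ᶜ : Set ℂ) := dense_compl_singleton 0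
    have hc : Continuous (fun w => h w * h₁ w) := hhd.continuous.mul hh1d.continuous
    exact fun w => congrFun (hc.ext_on hd continuous_const h3) w
  -- `h ^ 2 = 2 α w + β`
  set β := h 0 * h 0 with hβ
  have h4 : ∀ w, h w * h w = 2 * α * w + β := by
    intro w
    have h5 : ∀ w, HasDerivAt (fun w => h w * h w - 2 * α * w) 0 w := by
      intro w
      have h6 := ((hh w).mul (hh w)).sub ((hasDerivAt_id w).const_mul (2 * α))
      have h7 : h₁ w * h w + h w * h₁ w - 2 * α * 1 = 0 := by
        have := h3 w
        linear_combination 2 * this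
      rw [h7] at h6
      exact h6
    have h6 := const_of_deriv_zero _ h5 w
    simp only [mul_zero, sub_zero] at h6
    rw [hβ]
    linear_combination h6
  have hα0 : α = 0 := by
    by_contra hne
    have h5 := h4 (-β / (2 * α))
    have h6 : 2 * α * (-β / (2 * α)) + β = 0 := by field_simp; ring
    rw [h6] at h5
    have h7 : h (-β / (2 * α)) = 0 := by simpa using h5
    have h8 := h3 (-β / (2 * α))
    rw [h7, zero_mul] at h8
    exact hne h8.symm
  intro w
  by_cases hw : h w = 0
  · -- then `β = 0` and `h = 0`
    have h5 : β = 0 := by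
      have := h4 w
      rw [hw, hα0] at this
      simpa using this.symm
    have h6 : ∀ w, h w = 0 := by
      intro w
      have := h4 w
      rw [hα0, h5] at this
      simpa using this
    have h7 : h = fun _ => 0 := funext h6
    have h8 := hh w
    rw [h7] at h8
    exact h8.unique (hasDerivAt_const w 0)
  · have h5 := h3 w
    rw [hα0] at h5
    exact (mul_eq_zero.mp h5).resolve_left hw

end Pool.Agent.MP_fe3720
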