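import Pool.Agent.Work.MP_fe3720_an.FrobA
import Pool.Agent.Work.MP_fe3720_an.FrobCalc

/-! # Module Frob: Frobenius boxes

Let `q, κ, V` be a chart at `x₀` (`HasCharts`), `y₀ = (q j x₀)_j`. For `x ∈ Y × ℂ` let
`Q x : Submodule ℂ (Fin m → ℂ)` be the span of the vectors `((φ.push v (q j)) x)_j`, `φ ∈ Aut`.

(0) For `x = κ y`, `y ∈ V`: `finrank (Q x) = finrank (conjSpan v x) = r`. `Q x` is the image of
`conjSpan v x ⊆ (O → ℂ)` by the linear map `ξ ↦ (ξ (q j))_j`, which is injective on `conjSpan v x`: an element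
`ξ` of the span is `f ↦ (D f) x` with `D = ∑ c_i φ_i.push v` a continuous derivation
(`Submodule.span_induction` or `mem_span_range_iff_exists_finsupp`; `isVF_push`, `IsVF.add`,
`IsVF.csmul`), and by the chart property `(D f)(κ y) = fderiv (f ∘ κ) y (ξ (q j))_j = 0` if
`ξ (q j) = 0` for all `j`.

(1) Choose `φ : Fin r → HolAut O` with `ξ_i = ((φ_i.push v (q j)) x₀)_j` linearly independent (a spanning set of
the `r`-dimensional space `Q x₀` contains a basis: `exists_linearIndependent`,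
`Submodule.exists_fun_fin_finrank_span_eq`, `exists_linearIndependent'`…), and a linear map
`B : (Fin (m - r) → ℂ) → (Fin m → ℂ)`, injective, whose range is a complement of `span ξ_i`
(`Submodule.exists_isCompl`, dimension count, `LinearEquiv.ofFinrankEq`).

(2) `G (t, w) = (q j (Psi φ t (κ (y₀ + B w))))_j`. By `Psi_contDiff` it is `C¹` near `(0,0)`. `G(0,w) = y₀ + B w`
(`Psi_zero`, `q (κ y) = y`) for `w` near `0`, and `G (s e_i, 0) = q (flowMap (φ_i) s x₀)` (`Psi_single`), so
`fderiv G 0 (t, w) = ∑ t_i ξ_i + B w` (`flow_hasDerivAt` at `s = 0`), which is bijective.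

(3) By continuity (`Psi_cont`) there is a neighbourhood `S` of `0` such that for `(t,w) ∈ S`:
`y₀ + B w ∈ V` and `Psi φ t (κ (y₀ + B w)) ∈ κ '' V` (open). So `κ (G (t,w)) = Psi φ t (κ (y₀ + B w))`. Let
`𝒩, 𝒱, H` be from `inverse_box`. Put `U = {x ∈ κ '' V | (q j x)_j ∈ 𝒱}`, open (`q` is continuous,
`hL.top.cont`), contains `x₀`, and `p x = (H (q x)).2 : Fin (m - r) → ℂ`. For `x ∈ U`, with
`(t,w) = H (q x) ∈ 𝒩`: `q x = G (t,w)`, so `x = κ (q x) = κ (G (t,w)) = Psi φ t (κ (y₀ + B w))`. So the level set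
`{x ∈ U | p x = w}` is contained in the range of `t ↦ Psi φ t (κ (y₀ + B w))`.

(4) `p '' U` is uncountable: it contains all `w` with `(0,w) ∈ 𝒩` (take `x = κ (G (0,w))`, `q x = G (0,w) ∈ 𝒱`), an
open neighbourhood of `0` in `Fin (m - r) → ℂ`, which is uncountable because `m - r ≥ 1`
(e.g. `Set.Countable` sets have empty interior/dense complement in a nontrivial connected
space or real vector space: `Set.Countable.dense_compl ℂ` or `ℝ`; `dense_compl`).

(5) First integral: let `x ∈ U` and `ψ ∈ Aut`. For `s` near `0`, `x_s = flowMap ψ s x ∈ U` and the function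
`s ↦ q (x_s)` is differentiable with derivative `a = ((ψ.push v (q j)) x_s)_j ∈ Q x_s` (`flow_hasDerivAt`).
Let `(t,w) = H (q x_s)`. For every `i`, `∂_{t_i} G (t,w) = fderiv G (t,w) (e_i, 0)` is, by `Psi_update` and
`flow_hasDerivAt`, of the form `((α.push v (q j)) x_s)_j ∈ Q x_s`. As `fderiv G (t,w)` is injective these `r`
vectors are linearly independent, so they span `Q x_s` (of dimension `r` by (0)). So
`a = fderiv G (t,w) (b, 0)` for some `b`, and
`d/ds H (q x_s) = fderiv H (q x_s) a = (b, 0)`: the derivative of `s ↦ p (x_s)` is `0` for all `s` in a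
neighbourhood (a disc) of `0`, so `p (x_s) = p x` for `s` near `0` (constant on a ball:
`Convex.is_const_of_fderivWithin_eq_zero` or `IsOpen.is_const_of_deriv_eq_zero`). -/

namespace Pool.Agent.MP_fe3720

open Topology

variable {Y : Type} [TopologicalSpace Y] {OY : Subalgebra ℂ (Y → ℂ)}
  {O : Subalgebra ℂ (Y × ℂ → ℂ)}

theorem exists_box (hL : IsLine OY O) {v : Derivation ℂ O O} (hv : IsDw v) {m r : ℕ}
    (hch : HasCharts m O) (hr : r < m) (hrank : ∀ x, Module.finrank ℂ (conjSpan v x) = r)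
    (x₀ : Y × ℂ) : ∃ (U : Set (Y × ℂ)) (p : Y × ℂ → (Fin (m - r) → ℂ)),
      x₀ ∈ U ∧ IsBox O r U p := by
  obtain ⟨q, κ, V, hV, hy₀, hκ₀, hκ, hq, hopen, hf, htan⟩ := hch x₀
  set y₀ : Fin m → ℂ := fun j => (q j) x₀ with hy₀def
  have hrk : ∀ y ∈ V, Module.finrank ℂ (qSpan v q (κ y)) = r := fun y hy => by
    rw [finrank_qSpan hv q κ y (fun D hD f => htan D hD f y hy), hrank]
  have hκq : ∀ x ∈ κ '' V, κ (fun j => (q j) x) = x ∧ (fun j => (q j) x) ∈ V := by
    rintro x ⟨y, hy, rfl⟩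
    have : (fun j => (q j) (κ y)) = y := funext fun j => hq y hy j
    rw [this]
    exact ⟨rfl, hy⟩
  -- the frame at `x₀`
  have hr0 : Module.finrank ℂ (Submodule.span ℂ (Set.range
      fun φ : HolAut O => fun j => (φ.push v (q j)) x₀)) = r := by
    have := hrk y₀ hy₀
    rw [hκ₀] at this
    exact this
  obtain ⟨φ, B, hbij⟩ := frame (fun φ : HolAut O => fun j => (φ.push v (q j)) x₀) hr0
  set G := boxMap q κ y₀ φ B with hGdef
  have hG1 : ContDiffAt ℂ 1 G 0 := boxMap_contDiffAt hL q κ V hV hκ hf y₀ hy₀ φ B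
  have hGd : DifferentiableAt ℂ G 0 := hG1.differentiableAt (by norm_num)
  have hG' : ∀ e : (Fin r → ℂ) × (Fin (m - r) → ℂ), fderiv ℂ G 0 e =
      ∑ i, e.1 i • (fun j => ((φ i).push v (q j)) x₀) + B e.2 := by
    intro e
    have h1 : e = ∑ i, e.1 i • ((Pi.single i 1, 0) : (Fin r → ℂ) × (Fin (m - r) → ℂ))
        + (0, e.2) := by
      refine Prod.ext ?_ ?_
      · rw [Prod.fst_add, Prod.fst_sum]
        funext l
        simp [Finset.sum_apply, Pi.single_apply]
      · rw [Prod.snd_add, Prod.snd_sum]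
        simp
    conv_lhs => rw [h1]
    rw [map_add, map_sum, boxMap_partial_w q κ V hV hq y₀ hy₀ φ B hGd]
    congr 1
    refine Finset.sum_congr rfl fun i _ => ?_
    rw [map_smul, boxMap_partial_zero hv q κ y₀ φ B hGd, hκ₀]
  have hbij' : Function.Bijective (fderiv ℂ G 0) := by
    have : (fderiv ℂ G 0 : (Fin r → ℂ) × (Fin (m - r) → ℂ) → (Fin m → ℂ)) =
        fun e => ∑ i, e.1 i • (fun j => ((φ i).push v (q j)) x₀) + B e.2 := funext hG'
    rw [this]
    exact hbij
  -- the neighbourhood `S`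
  set Ψ : (Fin r → ℂ) × (Fin (m - r) → ℂ) → Y × ℂ := fun p => Psi φ p.1 (κ (y₀ + B p.2))
    with hΨdef
  have hBc : Continuous B := B.continuous_of_finiteDimensional
  have hΨc : ContinuousAt Ψ 0 := by
    have h1 : ContinuousAt κ (y₀ + B (0 : (Fin r → ℂ) × (Fin (m - r) → ℂ)).2) := by
      have : y₀ + B (0 : (Fin r → ℂ) × (Fin (m - r) → ℂ)).2 = y₀ := by simp
      rw [this]
      exact hκ.continuousAt (hV.mem_nhds hy₀)
    have h2 : ContinuousAt (fun p : (Fin r → ℂ) × (Fin (m - r) → ℂ) => y₀ + B p.2) 0 :=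
      (continuous_const.add (hBc.comp continuous_snd)).continuousAt
    have h3 : ContinuousAt (fun p : (Fin r → ℂ) × (Fin (m - r) → ℂ) =>
        (p.1, κ (y₀ + B p.2))) 0 :=
      continuous_fst.continuousAt.prodMk (ContinuousAt.comp (g := κ) h1 h2)
    exact ContinuousAt.comp (g := fun p : (Fin r → ℂ) × (Y × ℂ) => Psi φ p.1 p.2)
      (Psi_cont φ).continuousAt h3
  have hΨ0 : Ψ 0 = x₀ := by
    simp only [hΨdef, Prod.fst_zero, Prod.snd_zero, map_zero, add_zero, Psi_zero, hκ₀]
  have hx₀V : x₀ ∈ κ '' V := ⟨y₀, hy₀, hκ₀⟩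
  set S : Set ((Fin r → ℂ) × (Fin (m - r) → ℂ)) := {p | y₀ + B p.2 ∈ V ∧ Ψ p ∈ κ '' V}
    with hSdef
  have hS : S ∈ 𝓝 (0 : (Fin r → ℂ) × (Fin (m - r) → ℂ)) := by
    refine Filter.inter_mem ?_ ?_
    · have h2 : ContinuousAt (fun p : (Fin r → ℂ) × (Fin (m - r) → ℂ) => y₀ + B p.2) 0 :=
        (continuous_const.add (hBc.comp continuous_snd)).continuousAt
      refine h2.preimage_mem_nhds ?_
      simpa using hV.mem_nhds hy₀
    · have h5 : Ψ ⁻¹' (κ '' V) ∈ 𝓝 (0 : (Fin r → ℂ) × (Fin (m - r) → ℂ)) := by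
        refine hΨc.preimage_mem_nhds ?_
        rw [hΨ0]
        exact hopen.mem_nhds hx₀V
      exact h5
  obtain ⟨𝒩, 𝒱, H, hNo, hN0, hNS, hVo, hGN, hHV⟩ := inverse_box G hG1 hbij' S hS
  have hGΨ : ∀ p, G p = fun j => (q j) (Ψ p) := fun p => rfl
  -- the box
  set U : Set (Y × ℂ) := κ '' V ∩ {x | (fun j => (q j) x) ∈ 𝒱} with hUdef
  have hqc : Continuous (fun x : Y × ℂ => fun j => (q j) x) :=
    continuous_pi fun j => hL.top.cont _ (q j).2
  have hU : IsOpen U := hopen.inter (hVo.preimage hqc)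
  have hrec : ∀ x ∈ U, Ψ (H (fun j => (q j) x)) = x := by
    rintro x ⟨hx1, hx2⟩
    obtain ⟨h1, h2, -, -⟩ := hHV _ hx2
    have h3 : Ψ (H (fun j => (q j) x)) ∈ κ '' V := (hNS h1).2
    have h4 := (hκq _ h3).1
    rw [← h4, ← hGΨ, h2]
    exact (hκq x hx1).1
  refine ⟨U, fun x => (H (fun j => (q j) x)).2, ?_, hU, ?_, ?_, ?_⟩
  · refine ⟨hx₀V, ?_⟩
    have := (hGN 0 hN0).1
    rw [hGΨ, hΨ0] at this
    exact this
  · -- uncountable
    intro hcount
    have hsub : {w : Fin (m - r) → ℂ | ((0 : Fin r → ℂ), w) ∈ 𝒩} ⊆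
        (fun x => (H (fun j => (q j) x)).2) '' U := by
      intro w hw
      have h1 := (hNS hw).2
      obtain ⟨h2, h3, -, -⟩ := hGN _ hw
      refine ⟨Ψ (0, w), ⟨h1, ?_⟩, ?_⟩
      · rw [hGΨ] at h2; exact h2
      · rw [hGΨ] at h3
        simp only
        rw [h3]
    have hcount2 := hcount.mono hsub
    have hop : IsOpen {w : Fin (m - r) → ℂ | ((0 : Fin r → ℂ), w) ∈ 𝒩} :=
      hNo.preimage (by fun_prop : Continuous fun w : Fin (m - r) → ℂ => ((0 : Fin r → ℂ), w))
    have : Nonempty (Fin (m - r)) := ⟨⟨0, by omega⟩⟩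
    obtain ⟨w, hw1, hw2⟩ := (Set.Countable.dense_compl ℂ hcount2).exists_mem_open hop
      ⟨0, hN0⟩
    exact hw1 hw2
  · -- first integral
    intro x hx ψ
    have hcont : Continuous (fun s : ℂ => flowMap ψ s x) :=
      (flow_cont ψ).comp (by fun_prop : Continuous fun s : ℂ => (s, x))
    have hopen2 : IsOpen {s : ℂ | flowMap ψ s x ∈ U} := hU.preimage hcont
    have h0mem : (0 : ℂ) ∈ {s : ℂ | flowMap ψ s x ∈ U} := by
      rw [Set.mem_ofPred_eq, flow_zero]; exact hx
    obtain ⟨δ, hδ, hball⟩ := Metric.isOpen_iff.mp hopen2 0 h0mem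
    have hder : ∀ s ∈ Metric.ball (0 : ℂ) δ,
        HasDerivAt (fun s => (H (fun j => (q j) (flowMap ψ s x))).2) 0 s := by
      intro s hs
      have hsU : flowMap ψ s x ∈ U := hball hs
      set xs := flowMap ψ s x with hxs
      set n := H (fun j => (q j) xs) with hn
      obtain ⟨hn1, hn2, hn3, hn4⟩ := hHV _ hsU.2
      obtain ⟨-, -, hn5, hn6⟩ := hGN _ hn1
      have hqd : HasDerivAt (fun s => fun j => (q j) (flowMap ψ s x))
          (fun j => (ψ.push v (q j)) xs) s := by
        rw [hasDerivAt_pi]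
        exact fun j => flow_hasDerivAt hv ψ (q j) x s
      have hHd := hn3.hasFDerivAt.comp_hasDerivAt s hqd
      -- `a` is in the range of the partial derivative
      have hxsV := (hκq xs hsU.1).2
      have hfr : Module.finrank ℂ (qSpan v q xs) = r := by
        have := hrk _ hxsV
        rwa [(hκq xs hsU.1).1] at this
      have hpart : ∀ i : Fin r, fderiv ℂ G n (Pi.single i 1, 0) ∈ qSpan v q xs := by
        intro i
        obtain ⟨α, hα⟩ := boxMap_partial hL hv q κ y₀ φ B n hn5 i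
        rw [hα]
        have : Psi φ n.1 (κ (y₀ + B n.2)) = xs := hrec xs hsU
        rw [this]
        exact Submodule.subset_span ⟨α, rfl⟩
      have hli : LinearIndependent ℂ
          (fun i : Fin r => fderiv ℂ G n ((Pi.single i 1, 0) :
            (Fin r → ℂ) × (Fin (m - r) → ℂ))) := by
        have h1 : LinearIndependent ℂ (fun i : Fin r => (Pi.single i 1 : Fin r → ℂ)) := by
          have := (Pi.basisFun ℂ (Fin r)).linearIndependent
          convert this using 2 with i
          simp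
        have h2 := h1.map' ((fderiv ℂ G n).toLinearMap ∘ₗ
          LinearMap.inl ℂ (Fin r → ℂ) (Fin (m - r) → ℂ)) (by
            rw [LinearMap.ker_eq_bot]
            exact hn6.comp LinearMap.inl_injective)
        exact h2
      have hspan : Submodule.span ℂ (Set.range
          (fun i : Fin r => fderiv ℂ G n ((Pi.single i 1, 0) :
            (Fin r → ℂ) × (Fin (m - r) → ℂ)))) = qSpan v q xs := by
        refine Submodule.eq_of_le_of_finrank_eq (Submodule.span_le.mpr ?_) ?_
        · rintro _ ⟨i, rfl⟩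
          exact hpart i
        · rw [finrank_span_eq_card hli, hfr, Fintype.card_fin]
      have ha : (fun j => (ψ.push v (q j)) xs) ∈ Submodule.span ℂ (Set.range
          (fun i : Fin r => fderiv ℂ G n ((Pi.single i 1, 0) :
            (Fin r → ℂ) × (Fin (m - r) → ℂ)))) := by
        rw [hspan]
        exact Submodule.subset_span ⟨ψ, rfl⟩
      obtain ⟨b, hb⟩ := (Submodule.mem_span_range_iff_exists_fun ℂ).mp ha
      have hb2 : (fun j => (ψ.push v (q j)) xs) =
          fderiv ℂ G n ((b, 0) : (Fin r → ℂ) × (Fin (m - r) → ℂ)) := by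
        rw [← hb]
        have h1 : ((b, 0) : (Fin r → ℂ) × (Fin (m - r) → ℂ)) =
            ∑ i, b i • ((Pi.single i 1, 0) : (Fin r → ℂ) × (Fin (m - r) → ℂ)) := by
          refine Prod.ext ?_ ?_
          · rw [Prod.fst_sum]
            funext l
            simp [Finset.sum_apply, Pi.single_apply]
          · rw [Prod.snd_sum]
            simp
        rw [h1, map_sum]
        simp only [map_smul]
      rw [hb2, hn4] at hHd
      have hsnd := hHd.snd
      exact hsnd
    have hconst := (convex_ball (0 : ℂ) δ)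
    have hev : ∀ᶠ s in 𝓝 (0 : ℂ), s ∈ Metric.ball (0 : ℂ) δ := Metric.ball_mem_nhds 0 hδ
    filter_upwards [hev] with s hs
    have h1 := Metric.isOpen_ball.is_const_of_deriv_eq_zero (convex_ball (0 : ℂ) δ).isPreconnected
      (f := fun s => (H (fun j => (q j) (flowMap ψ s x))).2)
      (fun s hs => (hder s hs).differentiableAt.differentiableWithinAt)
      (fun s hs => (hder s hs).deriv) hs (Metric.mem_ball_self hδ)
    simpa [flow_zero] using h1
  · intro c
    refine ⟨φ, κ (y₀ + B c), ?_⟩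
    rintro x ⟨hx, hxc⟩
    refine ⟨(H (fun j => (q j) x)).1, ?_⟩
    have h1 := hrec x hx
    have h2 : (H (fun j => (q j) x)).2 = c := hxc
    simp only [hΨdef] at h1
    rw [h2] at h1
    exact h1

end Pool.Agent.MP_fe3720
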