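import Pool.Agent.Work.MP_fe3720_an.Cl
import Pool.Agent.Work.MP_fe3720_an.Push

/-! # Rank: the space `conjSpan` in a chart -/

namespace Pool.Agent.MP_fe3720

open Topology

variable {Y : Type} [TopologicalSpace Y] {O : Subalgebra ℂ (Y × ℂ → ℂ)}

theorem conjSpan_deriv {v : Derivation ℂ O O} (hv : IsDw v) (x : Y × ℂ) (ξ : O → ℂ)
    (hξ : ξ ∈ conjSpan v x) : ∃ D : Derivation ℂ O O, IsVF D ∧ ∀ f : O, ξ f = (D f) x := by
  unfold conjSpan at hξ
  induction hξ using Submodule.span_induction with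
  | mem ξ h =>
    obtain ⟨φ, rfl⟩ := h
    exact ⟨φ.push v, φ.isVF_push hv.vf, fun f => rfl⟩
  | zero => exact ⟨0, isVF_zero, fun f => rfl⟩
  | add ξ η _ _ h1 h2 =>
    obtain ⟨D, hD, h1⟩ := h1
    obtain ⟨E, hE, h2⟩ := h2
    refine ⟨D + E, hD.add hE, fun f => ?_⟩
    rw [Pi.add_apply, h1, h2]
    rfl
  | smul c ξ _ h1 =>
    obtain ⟨D, hD, h1⟩ := h1
    refine ⟨c • D, hD.csmul c, fun f => ?_⟩
    rw [Pi.smul_apply, h1]
    rfl

/-- evaluation of a functional at the coordinates -/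
noncomputable def evq {m : ℕ} (q : Fin m → O) : (O → ℂ) →ₗ[ℂ] (Fin m → ℂ) :=
  LinearMap.pi fun j => LinearMap.proj (q j)

omit [TopologicalSpace Y] in
theorem evq_apply {m : ℕ} (q : Fin m → O) (ξ : O → ℂ) (j : Fin m) : evq q ξ j = ξ (q j) := rfl

/-- the span of the coordinate vectors of the conjugate fields -/
noncomputable def qSpan (v : Derivation ℂ O O) {m : ℕ} (q : Fin m → O) (x : Y × ℂ) :
    Submodule ℂ (Fin m → ℂ) :=
  Submodule.span ℂ (Set.range fun φ : HolAut O => fun j => (φ.push v (q j)) x)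

theorem qSpan_eq_map (v : Derivation ℂ O O) {m : ℕ} (q : Fin m → O) (x : Y × ℂ) :
    qSpan v q x = (conjSpan v x).map (evq q) := by
  unfold qSpan conjSpan
  rw [Submodule.map_span, ← Set.range_comp]
  rfl

theorem evq_inj {v : Derivation ℂ O O} (hv : IsDw v) {m : ℕ} (q : Fin m → O)
    (κ : (Fin m → ℂ) → Y × ℂ) (y : Fin m → ℂ)
    (hy : ∀ D : Derivation ℂ O O, IsVF D → ∀ f : O,
      (D f) (κ y) = fderiv ℂ (fun y => f (κ y)) y (fun j => (D (q j)) (κ y)))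
    (ξ : O → ℂ) (hξ : ξ ∈ conjSpan v (κ y)) (h0 : evq q ξ = 0) : ξ = 0 := by
  obtain ⟨D, hD, h⟩ := conjSpan_deriv hv _ ξ hξ
  funext f
  rw [h, hy D hD f]
  have : (fun j => (D (q j)) (κ y)) = 0 := by
    funext j
    rw [← h]
    exact congrFun h0 j
  rw [this, map_zero]
  rfl

theorem finrank_qSpan {v : Derivation ℂ O O} (hv : IsDw v) {m : ℕ} (q : Fin m → O)
    (κ : (Fin m → ℂ) → Y × ℂ) (y : Fin m → ℂ)
    (hy : ∀ D : Derivation ℂ O O, IsVF D → ∀ f : O,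
      (D f) (κ y) = fderiv ℂ (fun y => f (κ y)) y (fun j => (D (q j)) (κ y))) :
    Module.finrank ℂ (qSpan v q (κ y)) = Module.finrank ℂ (conjSpan v (κ y)) := by
  rw [qSpan_eq_map, ← LinearMap.range_domRestrict]
  apply LinearMap.finrank_range_of_inj
  rw [← LinearMap.ker_eq_bot, LinearMap.ker_eq_bot']
  rintro ⟨ξ, hξ⟩ h
  exact Subtype.ext (evq_inj hv q κ y hy ξ hξ h)

end Pool.Agent.MP_fe3720
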