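import Pool.Agent.Work.MP_fe3720_an.ParB
import Pool.Agent.Work.MP_fe3720_an.Rank

/-! # Frobenius boxes: preparations -/

namespace Pool.Agent.MP_fe3720

open Topology

theorem frame {I : Type} {m r : ℕ} (ξ : I → (Fin m → ℂ))
    (hr : Module.finrank ℂ (Submodule.span ℂ (Set.range ξ)) = r) :
    ∃ (a : Fin r → I) (B : (Fin (m - r) → ℂ) →ₗ[ℂ] (Fin m → ℂ)),
      Function.Bijective (fun p : (Fin r → ℂ) × (Fin (m - r) → ℂ) =>
        ∑ i, p.1 i • ξ (a i) + B p.2) := by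
  subst hr
  obtain ⟨f, hf, hspan, hli⟩ := Submodule.exists_fun_fin_finrank_span_eq ℂ (Set.range ξ)
  choose a ha using hf
  obtain ⟨W, hW⟩ := Submodule.exists_isCompl (Submodule.span ℂ (Set.range ξ))
  have hsum := Submodule.finrank_add_eq_of_isCompl hW
  have hm : Module.finrank ℂ (Fin m → ℂ) = m := by simp
  have hWd : Module.finrank ℂ (Fin (m - Module.finrank ℂ (Submodule.span ℂ (Set.range ξ))) → ℂ)
      = Module.finrank ℂ W := by
    rw [Module.finrank_fin_fun]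
    omega
  let e := LinearEquiv.ofFinrankEq
    (Fin (m - Module.finrank ℂ (Submodule.span ℂ (Set.range ξ))) → ℂ) W hWd
  let L : (Fin (Module.finrank ℂ (Submodule.span ℂ (Set.range ξ))) → ℂ) ×
      (Fin (m - Module.finrank ℂ (Submodule.span ℂ (Set.range ξ))) → ℂ) →ₗ[ℂ] (Fin m → ℂ) :=
    (Fintype.linearCombination ℂ f).coprod (W.subtype ∘ₗ e.toLinearMap)
  have hL : ∀ p, L p = ∑ i, p.1 i • ξ (a i) + (W.subtype ∘ₗ e.toLinearMap) p.2 := by
    intro p
    simp only [L, LinearMap.coprod_apply, Fintype.linearCombination_apply, ha]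
  refine ⟨a, W.subtype ∘ₗ e.toLinearMap, ?_⟩
  have hinj : Function.Injective L := by
    rw [← LinearMap.ker_eq_bot, LinearMap.ker_eq_bot']
    rintro ⟨t, w⟩ h
    have h1 : Fintype.linearCombination ℂ f t + (e w : Fin m → ℂ) = 0 := by
      simpa [L, LinearMap.coprod_apply] using h
    have h2 : Fintype.linearCombination ℂ f t ∈ Submodule.span ℂ (Set.range ξ) := by
      refine hspan.le ?_
      rw [Fintype.linearCombination_apply]
      exact Submodule.sum_mem _ fun i _ => Submodule.smul_mem _ _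
        (Submodule.subset_span ⟨i, rfl⟩)
    have h3 : (e w : Fin m → ℂ) ∈ Submodule.span ℂ (Set.range ξ) := by
      have : (e w : Fin m → ℂ) = -Fintype.linearCombination ℂ f t := by
        rw [eq_neg_iff_add_eq_zero, add_comm]; exact h1
      rw [this]
      exact Submodule.neg_mem _ h2
    have h4 : (e w : Fin m → ℂ) = 0 := by
      have := hW.disjoint.le_bot (⟨h3, (e w).2⟩ : (e w : Fin m → ℂ) ∈ _ ⊓ W)
      simpa using this
    have h5 : w = 0 := by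
      have : e w = 0 := Subtype.ext h4
      simpa using this
    have h6 : Fintype.linearCombination ℂ f t = 0 := by
      rw [h4, add_zero] at h1; exact h1
    have h7 : t = 0 := by
      rw [Fintype.linearCombination_apply] at h6
      funext i
      exact (Fintype.linearIndependent_iff.mp hli) t h6 i
    rw [h5, h7]; rfl
  have hsurj : Function.Surjective L := by
    refine (LinearMap.injective_iff_surjective_of_finrank_eq_finrank ?_).mp hinj
    rw [Module.finrank_prod, Module.finrank_fin_fun, Module.finrank_fin_fun, hm]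
    omega
  have : (fun p : (Fin (Module.finrank ℂ (Submodule.span ℂ (Set.range ξ))) → ℂ) ×
      (Fin (m - Module.finrank ℂ (Submodule.span ℂ (Set.range ξ))) → ℂ) =>
        ∑ i, p.1 i • ξ (a i) + (W.subtype ∘ₗ e.toLinearMap) p.2) = L := by
    funext p
    exact (hL p).symm
  rw [this]
  exact ⟨hinj, hsurj⟩

variable {Y : Type} [TopologicalSpace Y] {OY : Subalgebra ℂ (Y → ℂ)}
  {O : Subalgebra ℂ (Y × ℂ → ℂ)}

/-- the map `(t, w) ↦ q (Psi φ t (κ (y₀ + B w)))` -/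
noncomputable def boxMap {m r k : ℕ} (q : Fin m → O) (κ : (Fin m → ℂ) → Y × ℂ)
    (y₀ : Fin m → ℂ) (φ : Fin r → HolAut O) (B : (Fin k → ℂ) →ₗ[ℂ] (Fin m → ℂ))
    (p : (Fin r → ℂ) × (Fin k → ℂ)) : Fin m → ℂ :=
  fun j => (q j) (Psi φ p.1 (κ (y₀ + B p.2)))

theorem boxMap_contDiffAt (hL : IsLine OY O) {m r k : ℕ} (q : Fin m → O)
    (κ : (Fin m → ℂ) → Y × ℂ) (V : Set (Fin m → ℂ)) (hV : IsOpen V) (hκ : ContinuousOn κ V)
    (hf : ∀ f : O, ContDiffOn ℂ 1 (fun y => f (κ y)) V)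
    (y₀ : Fin m → ℂ) (hy₀ : y₀ ∈ V) (φ : Fin r → HolAut O)
    (B : (Fin k → ℂ) →ₗ[ℂ] (Fin m → ℂ)) : ContDiffAt ℂ 1 (boxMap q κ y₀ φ B) 0 := by
  rw [contDiffAt_pi]
  intro j
  have h1 := Psi_contDiff hL κ V hV hκ hf φ (q j)
  have h2 : ContDiffAt ℂ 1 (fun p : (Fin r → ℂ) × (Fin m → ℂ) => (q j) (Psi φ p.1 (κ p.2)))
      ((0 : Fin r → ℂ), y₀) :=
    h1.contDiffAt ((isOpen_univ.prod hV).mem_nhds ⟨Set.mem_univ _, hy₀⟩)
  have h3 : ContDiff ℂ 1 (fun p : (Fin r → ℂ) × (Fin k → ℂ) => (p.1, y₀ + B p.2)) := by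
    have hB : ContDiff ℂ 1 (fun w : Fin k → ℂ => B w) :=
      (LinearMap.toContinuousLinearMap B).contDiff
    exact contDiff_fst.prodMk (contDiff_const.add (hB.comp contDiff_snd))
  have h4 : ContDiffAt ℂ 1 (fun p : (Fin r → ℂ) × (Fin m → ℂ) => (q j) (Psi φ p.1 (κ p.2)))
      ((fun p : (Fin r → ℂ) × (Fin k → ℂ) => (p.1, y₀ + B p.2)) 0) := by
    simpa using h2
  exact ContDiffAt.comp (f := fun p : (Fin r → ℂ) × (Fin k → ℂ) => (p.1, y₀ + B p.2))
    (g := fun p : (Fin r → ℂ) × (Fin m → ℂ) => (q j) (Psi φ p.1 (κ p.2)))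
    (0 : (Fin r → ℂ) × (Fin k → ℂ)) h4 h3.contDiffAt

theorem boxMap_partial (hL : IsLine OY O) {v : Derivation ℂ O O} (hv : IsDw v) {m r k : ℕ}
    (q : Fin m → O) (κ : (Fin m → ℂ) → Y × ℂ) (y₀ : Fin m → ℂ) (φ : Fin r → HolAut O)
    (B : (Fin k → ℂ) →ₗ[ℂ] (Fin m → ℂ)) (n : (Fin r → ℂ) × (Fin k → ℂ))
    (hn : DifferentiableAt ℂ (boxMap q κ y₀ φ B) n) (i : Fin r) :
    ∃ α : HolAut O, (fderiv ℂ (boxMap q κ y₀ φ B) n (Pi.single i 1, 0)) =
      fun j => (α.push v (q j)) (Psi φ n.1 (κ (y₀ + B n.2))) := by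
  obtain ⟨α, hα⟩ := Psi_update hL φ i n.1
  refine ⟨α, ?_⟩
  have h1 : HasDerivAt (fun s : ℂ => n + s • ((Pi.single i 1, 0) : (Fin r → ℂ) × (Fin k → ℂ)))
      (Pi.single i 1, 0) 0 := by
    have := ((hasDerivAt_id (0 : ℂ)).smul_const
      ((Pi.single i 1, 0) : (Fin r → ℂ) × (Fin k → ℂ))).const_add n
    simpa using this
  have h2 : HasFDerivAt (boxMap q κ y₀ φ B) (fderiv ℂ (boxMap q κ y₀ φ B) n)
      ((fun s : ℂ => n + s • ((Pi.single i 1, 0) : (Fin r → ℂ) × (Fin k → ℂ))) 0) := by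
    simpa using hn.hasFDerivAt
  have h3 := h2.comp_hasDerivAt (0 : ℂ) h1
  have h4 : HasDerivAt (boxMap q κ y₀ φ B ∘
      fun s : ℂ => n + s • ((Pi.single i 1, 0) : (Fin r → ℂ) × (Fin k → ℂ)))
      (fun j => (α.push v (q j)) (Psi φ n.1 (κ (y₀ + B n.2)))) 0 := by
    rw [hasDerivAt_pi]
    intro j
    have h5 := flow_hasDerivAt hv α (q j) (Psi φ n.1 (κ (y₀ + B n.2))) 0
    rw [flow_zero] at h5
    refine h5.congr_of_eventuallyEq (Filter.Eventually.of_forall fun s => ?_)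
    simp only [Function.comp, boxMap]
    have h6 : (n + s • ((Pi.single i 1, 0) : (Fin r → ℂ) × (Fin k → ℂ))).1 =
        Function.update n.1 i (n.1 i + s) := by
      funext l
      by_cases hl : l = i
      · subst hl; simp
      · simp [hl]
    have h7 : (n + s • ((Pi.single i 1, 0) : (Fin r → ℂ) × (Fin k → ℂ))).2 = n.2 := by simp
    rw [h6, h7, hα]
  exact h3.unique h4

theorem boxMap_partial_zero {v : Derivation ℂ O O} (hv : IsDw v) {m r k : ℕ}
    (q : Fin m → O) (κ : (Fin m → ℂ) → Y × ℂ) (y₀ : Fin m → ℂ) (φ : Fin r → HolAut O)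
    (B : (Fin k → ℂ) →ₗ[ℂ] (Fin m → ℂ))
    (hn : DifferentiableAt ℂ (boxMap q κ y₀ φ B) 0) (i : Fin r) :
    (fderiv ℂ (boxMap q κ y₀ φ B) 0 (Pi.single i 1, 0)) =
      fun j => ((φ i).push v (q j)) (κ y₀) := by
  have h1 : HasDerivAt (fun s : ℂ => s • ((Pi.single i 1, 0) : (Fin r → ℂ) × (Fin k → ℂ)))
      (Pi.single i 1, 0) 0 := by
    have := ((hasDerivAt_id (0 : ℂ)).smul_const
      ((Pi.single i 1, 0) : (Fin r → ℂ) × (Fin k → ℂ)))
    simpa using this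
  have h2 : HasFDerivAt (boxMap q κ y₀ φ B) (fderiv ℂ (boxMap q κ y₀ φ B) 0)
      ((fun s : ℂ => s • ((Pi.single i 1, 0) : (Fin r → ℂ) × (Fin k → ℂ))) 0) := by
    simpa using hn.hasFDerivAt
  have h3 := h2.comp_hasDerivAt (0 : ℂ) h1
  have h4 : HasDerivAt (boxMap q κ y₀ φ B ∘
      fun s : ℂ => s • ((Pi.single i 1, 0) : (Fin r → ℂ) × (Fin k → ℂ)))
      (fun j => ((φ i).push v (q j)) (κ y₀)) 0 := by
    rw [hasDerivAt_pi]
    intro j
    have h5 := flow_hasDerivAt hv (φ i) (q j) (κ y₀) 0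
    rw [flow_zero] at h5
    refine h5.congr_of_eventuallyEq (Filter.Eventually.of_forall fun s => ?_)
    simp only [Function.comp, boxMap]
    have h6 : (s • ((Pi.single i 1, 0) : (Fin r → ℂ) × (Fin k → ℂ))).1 =
        Function.update (0 : Fin r → ℂ) i s := by
      funext l
      by_cases hl : l = i
      · subst hl; simp
      · simp [hl]
    have h7 : (s • ((Pi.single i 1, 0) : (Fin r → ℂ) × (Fin k → ℂ))).2 = 0 := by simp
    rw [h6, h7, Psi_single, map_zero, add_zero]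
  exact h3.unique h4

theorem boxMap_zero {m r k : ℕ} (q : Fin m → O) (κ : (Fin m → ℂ) → Y × ℂ)
    (V : Set (Fin m → ℂ)) (hq : ∀ y ∈ V, ∀ j, (q j) (κ y) = y j) (y₀ : Fin m → ℂ)
    (φ : Fin r → HolAut O) (B : (Fin k → ℂ) →ₗ[ℂ] (Fin m → ℂ)) (w : Fin k → ℂ)
    (hw : y₀ + B w ∈ V) : boxMap q κ y₀ φ B (0, w) = y₀ + B w := by
  funext j
  simp only [boxMap, Psi_zero]
  exact hq _ hw j

theorem boxMap_partial_w {m r k : ℕ} (q : Fin m → O) (κ : (Fin m → ℂ) → Y × ℂ)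
    (V : Set (Fin m → ℂ)) (hV : IsOpen V) (hq : ∀ y ∈ V, ∀ j, (q j) (κ y) = y j)
    (y₀ : Fin m → ℂ) (hy₀ : y₀ ∈ V)
    (φ : Fin r → HolAut O) (B : (Fin k → ℂ) →ₗ[ℂ] (Fin m → ℂ))
    (hn : DifferentiableAt ℂ (boxMap q κ y₀ φ B) 0) (w : Fin k → ℂ) :
    (fderiv ℂ (boxMap q κ y₀ φ B) 0 (0, w)) = B w := by
  have h1 : HasDerivAt (fun s : ℂ => s • ((0, w) : (Fin r → ℂ) × (Fin k → ℂ)))
      (0, w) 0 := by
    have := ((hasDerivAt_id (0 : ℂ)).smul_const
      ((0, w) : (Fin r → ℂ) × (Fin k → ℂ)))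
    simpa using this
  have h2 : HasFDerivAt (boxMap q κ y₀ φ B) (fderiv ℂ (boxMap q κ y₀ φ B) 0)
      ((fun s : ℂ => s • ((0, w) : (Fin r → ℂ) × (Fin k → ℂ))) 0) := by
    simpa using hn.hasFDerivAt
  have h3 := h2.comp_hasDerivAt (0 : ℂ) h1
  have h4 : HasDerivAt (boxMap q κ y₀ φ B ∘
      fun s : ℂ => s • ((0, w) : (Fin r → ℂ) × (Fin k → ℂ))) (B w) 0 := by
    have h5 : HasDerivAt (fun s : ℂ => y₀ + s • B w) (B w) 0 := by
      have := ((hasDerivAt_id (0 : ℂ)).smul_const (B w)).const_add y₀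
      simpa using this
    refine h5.congr_of_eventuallyEq ?_
    have h6 : ∀ᶠ s : ℂ in 𝓝 0, y₀ + s • B w ∈ V := by
      have : Filter.Tendsto (fun s : ℂ => y₀ + s • B w) (𝓝 0) (𝓝 (y₀ + (0 : ℂ) • B w)) :=
        h5.continuousAt
      rw [zero_smul, add_zero] at this
      exact this (hV.mem_nhds hy₀)
    filter_upwards [h6] with s hs
    have h7 : s • ((0, w) : (Fin r → ℂ) × (Fin k → ℂ)) = (0, s • w) := by simp
    simp only [Function.comp]
    rw [h7, boxMap_zero q κ V hq y₀ φ B (s • w) (by rwa [map_smul]), map_smul]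
  exact h3.unique h4

end Pool.Agent.MP_fe3720
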