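import Pool.Agent.Work.MP_fe3720_an.Base

/-! # Module Gel: ideals without common zeros are dense (Gelfand theory)

Let `I` be an ideal of `closedAlg g` without common zeros, `K` compact, `ε > 0`; let `K' ⊇ K` be the compact
set of `hconv`. Let `B ⊆ C(K', ℂ)` be the closure of the subalgebra generated by the
`g i |_{K'}` (`Subalgebra.topologicalClosure` of `Algebra.adjoin`), a commutative complex Banach
algebra (if `K'` is empty the statement is trivial, so assume it is nonempty; `C(K', ℂ)` is a normed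
algebra as `K'` is a compact space; `B` is complete because closed: `IsClosed.completeSpace_coe`).

Every function `f ∈ closedAlg g` restricts to an element `f|_{K'} ∈ B` (it is a uniform limit on `K'` of
elements of the adjoin; the elements of `Algebra.adjoin ℂ (range g)` restrict to elements of
`Algebra.adjoin` of the restrictions; continuity of `f|_{K'}` as uniform limit).

Let `I_B` be the ideal of `B` generated by the restrictions of the elements of `I`. Claim:
`I_B = ⊤`. Otherwise `I_B ⊆ M` with `M` a maximal ideal (`Ideal.exists_le_maximal`); by Gelfand–Mazur there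
is a character `χ : B → ℂ` vanishing on `M` (`Ideal.toCharacterSpace`,
`Ideal.toCharacterSpace_apply_eq_zero_of_mem`, in Mathlib.Analysis.CStarAlgebra.GelfandDuality).
Put `a i = χ (g i |_{K'})`. For every polynomial `P : MvPolynomial ι ℂ`, `eval a P = χ (P(g)|_{K'})`
(`MvPolynomial.aeval`), and `‖χ b‖ ≤ ‖b‖` (characters are contractive: `WeakDual.CharacterSpace.norm_le_norm_one`,
`AlgHom.norm_apply_le_self` or the spectrum: `χ b ∈ spectrum ℂ b`,
`spectrum.norm_le_norm_of_mem`), so `‖eval a P‖ ≤ C` if `‖P(g)‖ ≤ C` on `K'`. By `hconv` there is `x ∈ K'` with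
`a i = g i x` for all `i`. So `χ b = b x` for `b` in the adjoin, and by continuity for all `b ∈ B`. There is
`f ∈ I` with `f x ≠ 0`; but `χ (f|_{K'}) = 0`, contradiction.

So `1 = ∑_{j ∈ s} b_j f_j|_{K'}` with `b_j ∈ B`, `f_j ∈ I` (finite sum; `Ideal.span` membership:
`Submodule.mem_span_set'`/`Finsupp.mem_ideal_span_iff...` or use `Submodule.span_induction` to prove
directly: every element `c` of `I_B` has the property: for every ε > 0 there is `f ∈ I` with
`‖c - f|_{K'}‖ < ε`. This property is stable by sums and by multiplication by `b ∈ B`: if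
`f` is close to `c` and `p` in the adjoin is close to `b` then `p f ∈ I` is close to `b c`). Apply it
to `c = 1`. -/

namespace Pool.Agent.MP_fe3720

open Topology

variable {X : Type} [TopologicalSpace X]

theorem adjoin_cont' {ι : Type} (g : ι → C(X, ℂ)) (P : X → ℂ)
    (hP : P ∈ Algebra.adjoin ℂ (Set.range fun i => (g i : X → ℂ))) : Continuous P := by
  induction hP using Algebra.adjoin_induction with
  | mem x hx => obtain ⟨i, rfl⟩ := hx; exact (g i).continuous
  | algebraMap r => exact continuous_const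
  | add x y _ _ hx hy => exact hx.add hy
  | mul x y _ _ hx hy => exact hx.mul hy

section Restr

variable {ι : Type} (g : ι → C(X, ℂ)) (K : Set X)

/-- restriction of the generators -/
noncomputable def gr (i : ι) : C(K, ℂ) := (g i).restrict K

/-- the polynomials on `K` -/
noncomputable def polyK : Subalgebra ℂ C(K, ℂ) := Algebra.adjoin ℂ (Set.range (gr g K))

theorem polyK_of_adjoin (P : X → ℂ)
    (hP : P ∈ Algebra.adjoin ℂ (Set.range fun i => (g i : X → ℂ))) :
    ∃ Q ∈ polyK g K, ∀ x : K, Q x = P x := by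
  induction hP using Algebra.adjoin_induction with
  | mem x hx =>
    obtain ⟨i, rfl⟩ := hx
    exact ⟨gr g K i, Algebra.subset_adjoin ⟨i, rfl⟩, fun x => rfl⟩
  | algebraMap r => exact ⟨algebraMap ℂ _ r, Subalgebra.algebraMap_mem _ r, fun x => rfl⟩
  | add x y _ _ hx hy =>
    obtain ⟨Q, hQ, h⟩ := hx
    obtain ⟨Q', hQ', h'⟩ := hy
    exact ⟨Q + Q', Subalgebra.add_mem _ hQ hQ', fun x => by
      rw [ContinuousMap.add_apply, h, h']; rfl⟩
  | mul x y _ _ hx hy =>
    obtain ⟨Q, hQ, h⟩ := hx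
    obtain ⟨Q', hQ', h'⟩ := hy
    exact ⟨Q * Q', Subalgebra.mul_mem _ hQ hQ', fun x => by
      rw [ContinuousMap.mul_apply, h, h']; rfl⟩

theorem adjoin_of_polyK (Q : C(K, ℂ)) (hQ : Q ∈ polyK g K) :
    ∃ P ∈ Algebra.adjoin ℂ (Set.range fun i => (g i : X → ℂ)), ∀ x : K, Q x = P x := by
  unfold polyK at hQ
  induction hQ using Algebra.adjoin_induction with
  | mem x hx =>
    obtain ⟨i, rfl⟩ := hx
    exact ⟨g i, Algebra.subset_adjoin ⟨i, rfl⟩, fun x => rfl⟩
  | algebraMap r => exact ⟨algebraMap ℂ _ r, Subalgebra.algebraMap_mem _ r, fun x => rfl⟩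
  | add x y _ _ hx hy =>
    obtain ⟨Q, hQ, h⟩ := hx
    obtain ⟨Q', hQ', h'⟩ := hy
    exact ⟨Q + Q', Subalgebra.add_mem _ hQ hQ', fun x => by
      rw [ContinuousMap.add_apply, h, h']; rfl⟩
  | mul x y _ _ hx hy =>
    obtain ⟨Q, hQ, h⟩ := hx
    obtain ⟨Q', hQ', h'⟩ := hy
    exact ⟨Q * Q', Subalgebra.mul_mem _ hQ hQ', fun x => by
      rw [ContinuousMap.mul_apply, h, h']; rfl⟩

variable [CompactSpace K]

/-- the closure of the polynomials on `K` -/
noncomputable def closK : Subalgebra ℂ C(K, ℂ) := (polyK g K).topologicalClosure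

theorem closK_approx (b : C(K, ℂ)) (hb : b ∈ closK g K) (ε : ℝ) (hε : 0 < ε) :
    ∃ Q ∈ polyK g K, ‖b - Q‖ < ε := by
  have h : b ∈ closure (polyK g K : Set C(K, ℂ)) := hb
  obtain ⟨Q, hQ, h1⟩ := Metric.mem_closure_iff.mp h ε hε
  exact ⟨Q, hQ, by rwa [dist_eq_norm] at h1⟩

theorem closK_of_closedAlg (f : X → ℂ) (hf : f ∈ closedAlg g) :
    ∃ b ∈ closK g K, ∀ x : K, b x = f x := by
  have hK : IsCompact K := isCompact_iff_compactSpace.mpr inferInstance
  have happ : ∀ ε > 0, ∃ Q ∈ polyK g K, ∀ x : K, ‖f x - Q x‖ < ε := by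
    intro ε hε
    obtain ⟨P, hP, h⟩ := hf K hK ε hε
    obtain ⟨Q, hQ, hQP⟩ := polyK_of_adjoin g K P hP
    exact ⟨Q, hQ, fun x => by rw [hQP]; exact h x x.2⟩
  have hc : Continuous (fun x : K => f x) := by
    refine continuous_of_uniform_approx_of_continuous fun u hu => ?_
    obtain ⟨ε, hε, h⟩ := Metric.mem_uniformity_dist.mp hu
    obtain ⟨Q, -, hQ⟩ := happ ε hε
    exact ⟨Q, Q.continuous, fun y => h (by rw [dist_eq_norm]; exact hQ y)⟩
  refine ⟨⟨_, hc⟩, ?_, fun x => rfl⟩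
  show (⟨_, hc⟩ : C(K, ℂ)) ∈ closure (polyK g K : Set C(K, ℂ))
  rw [Metric.mem_closure_iff]
  intro ε hε
  obtain ⟨Q, hQ, h⟩ := happ ε hε
  refine ⟨Q, hQ, ?_⟩
  rw [ContinuousMap.dist_lt_iff hε]
  intro x
  rw [dist_eq_norm]
  exact h x

end Restr

theorem idealsDense_closedAlg {ι : Type} (g : ι → C(X, ℂ))
    (hconv : ∀ K : Set X, IsCompact K → ∃ K' : Set X, IsCompact K' ∧ K ⊆ K' ∧
      ∀ a : ι → ℂ, (∀ (P : MvPolynomial ι ℂ) (C : ℝ),
        (∀ x ∈ K', ‖MvPolynomial.eval (fun i => g i x) P‖ ≤ C) → ‖MvPolynomial.eval a P‖ ≤ C) →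
        ∃ x ∈ K', a = fun i => g i x) :
    IdealsDense (closedAlg g) := by
  classical
  intro I hI K hK ε hε
  obtain ⟨K', hK', hKK', hhull⟩ := hconv K hK
  rcases K'.eq_empty_or_nonempty with rfl | hne
  · exact ⟨0, I.zero_mem, fun x hx => absurd (hKK' hx) (Set.notMem_empty x)⟩
  have hcs : CompactSpace K' := isCompact_iff_compactSpace.mp hK'
  have hnes : Nonempty K' := hne.to_subtype
  have hcomp : CompleteSpace (closK g K') :=
    (Subalgebra.isClosed_topologicalClosure (polyK g K')).completeSpace_coe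
  let gB : ι → closK g K' := fun i =>
    ⟨gr g K' i, Subalgebra.le_topologicalClosure _ (Algebra.subset_adjoin ⟨i, rfl⟩)⟩
  let IB : Ideal (closK g K') :=
    Ideal.span {b | ∃ f ∈ I, ∀ x : K', (b : C(K', ℂ)) x = f x}
  have hone : ‖(1 : closK g K')‖ = 1 := by
    have h1 : ‖(1 : closK g K')‖ = ‖(1 : C(K', ℂ))‖ := rfl
    rw [h1]
    exact CStarRing.norm_one
  have htop : IB = ⊤ := by
    by_contra hnt
    obtain ⟨M, hM, hIM⟩ := Ideal.exists_le_maximal IB hnt
    let χ := M.toCharacterSpace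
    have hχ0 : ∀ b ∈ M, χ b = 0 := fun b hb => M.toCharacterSpace_apply_eq_zero_of_mem hb
    let χ' : closK g K' →ₐ[ℂ] ℂ := WeakDual.CharacterSpace.toAlgHom χ
    have hχ' : ∀ b, χ' b = χ b := fun b => rfl
    have hnorm : ∀ b : closK g K', ‖χ' b‖ ≤ ‖b‖ := fun b => by
      have h1 := AlgHom.norm_apply_le_self_mul_norm_one χ' b
      rwa [hone, mul_one] at h1
    set a : ι → ℂ := fun i => χ' (gB i) with ha
    have heval : ∀ P : MvPolynomial ι ℂ, MvPolynomial.eval a P =
        χ' (MvPolynomial.aeval gB P) := by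
      intro P
      have h1 := congrArg (fun f => f P) (MvPolynomial.comp_aeval (f := gB) χ')
      have h2 : χ' (MvPolynomial.aeval gB P) = MvPolynomial.aeval a P := h1
      rw [h2]
      rfl
    have hevalx : ∀ (P : MvPolynomial ι ℂ) (x : K'),
        ((MvPolynomial.aeval gB P : closK g K') : C(K', ℂ)) x =
          MvPolynomial.eval (fun i => g i x) P := by
      intro P x
      let ev : closK g K' →ₐ[ℂ] ℂ :=
        (ContinuousMap.evalAlgHom ℂ ℂ x).comp (closK g K').val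
      have h1 := congrArg (fun f => f P) (MvPolynomial.comp_aeval (f := gB) ev)
      exact h1
    obtain ⟨x, hx, hax⟩ := hhull a (by
      intro P C hC
      rw [heval]
      refine (hnorm _).trans ?_
      have hC0 : 0 ≤ C := by
        obtain ⟨x₀, hx₀⟩ := hne
        exact (norm_nonneg _).trans (hC x₀ hx₀)
      have h1 : ‖(MvPolynomial.aeval gB P : closK g K')‖ =
          ‖((MvPolynomial.aeval gB P : closK g K') : C(K', ℂ))‖ := rfl
      rw [h1, ContinuousMap.norm_le _ hC0]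
      intro y
      rw [hevalx]
      exact hC y y.2)
    -- `χ` is the evaluation at `x`
    have hpoly : ∀ Q : closK g K', (Q : C(K', ℂ)) ∈ polyK g K' →
        χ' Q = (Q : C(K', ℂ)) ⟨x, hx⟩ := by
      rintro ⟨Q, hQ'⟩ hQ
      have hQ2 : Q ∈ polyK g K' := hQ
      unfold polyK at hQ2
      have key : ∃ h : Q ∈ closK g K', χ' ⟨Q, h⟩ = Q ⟨x, hx⟩ := by
        induction hQ2 using Algebra.adjoin_induction with
        | mem Q hx' =>
          obtain ⟨i, rfl⟩ := hx'
          exact ⟨(gB i).2, congrFun hax i⟩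
        | algebraMap r =>
          exact ⟨Subalgebra.algebraMap_mem _ r, χ'.commutes r⟩
        | add x y hx' hy' h1 h2 =>
          obtain ⟨m1, e1⟩ := h1 (Subalgebra.le_topologicalClosure _ hx') hx'
          obtain ⟨m2, e2⟩ := h2 (Subalgebra.le_topologicalClosure _ hy') hy'
          refine ⟨Subalgebra.add_mem _ m1 m2, ?_⟩
          have h3 := map_add χ' ⟨x, m1⟩ ⟨y, m2⟩
          rw [e1, e2] at h3
          exact h3
        | mul x y hx' hy' h1 h2 =>
          obtain ⟨m1, e1⟩ := h1 (Subalgebra.le_topologicalClosure _ hx') hx'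
          obtain ⟨m2, e2⟩ := h2 (Subalgebra.le_topologicalClosure _ hy') hy'
          refine ⟨Subalgebra.mul_mem _ m1 m2, ?_⟩
          have h3 := map_mul χ' ⟨x, m1⟩ ⟨y, m2⟩
          rw [e1, e2] at h3
          exact h3
      exact key.2
    have hall : ∀ b : closK g K', χ' b = (b : C(K', ℂ)) ⟨x, hx⟩ := by
      intro b
      have hlim : ∀ δ > 0, ‖χ' b - (b : C(K', ℂ)) ⟨x, hx⟩‖ ≤ δ := by
        intro δ hδ
        obtain ⟨Q, hQ, h1⟩ := closK_approx g K' b b.2 (δ / 2) (by positivity)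
        let Q' : closK g K' := ⟨Q, Subalgebra.le_topologicalClosure _ hQ⟩
        have h2 := hnorm (b - Q')
        rw [map_sub, hpoly Q' hQ] at h2
        have h3 : ‖b - Q'‖ < δ / 2 := h1
        have h4 : ‖(b : C(K', ℂ)) ⟨x, hx⟩ - Q ⟨x, hx⟩‖ ≤ ‖(b : C(K', ℂ)) - Q‖ :=
          ((b : C(K', ℂ)) - Q).norm_coe_le_norm ⟨x, hx⟩
        have h5 : χ' b - (b : C(K', ℂ)) ⟨x, hx⟩ =
            (χ' b - Q ⟨x, hx⟩) - ((b : C(K', ℂ)) ⟨x, hx⟩ - Q ⟨x, hx⟩) := by ring
        rw [h5]
        have h6 := norm_sub_le (χ' b - Q ⟨x, hx⟩) ((b : C(K', ℂ)) ⟨x, hx⟩ - Q ⟨x, hx⟩)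
        have h7 : ‖χ' b - Q ⟨x, hx⟩‖ ≤ ‖b - Q'‖ := h2
        linarith
      have h0 : ‖χ' b - (b : C(K', ℂ)) ⟨x, hx⟩‖ ≤ 0 :=
        le_of_forall_pos_le_add fun δ hδ => by simpa using hlim δ hδ
      exact sub_eq_zero.mp (norm_le_zero_iff.mp h0)
    obtain ⟨f, hf, hfx⟩ := hI x
    obtain ⟨b, hb, hbf⟩ := closK_of_closedAlg g K' f f.2
    have h1 : (⟨b, hb⟩ : closK g K') ∈ IB := Ideal.subset_span ⟨f, hf, hbf⟩
    have h2 := hχ0 _ (hIM h1)
    rw [← hχ', hall] at h2
    exact hfx ((hbf ⟨x, hx⟩).symm.trans h2)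
  -- approximation property of the elements of `IB`
  have happ : ∀ c ∈ IB, ∀ δ > 0, ∃ f ∈ I, ∀ x : K', ‖(c : C(K', ℂ)) x - f x‖ < δ := by
    intro c hc
    refine Submodule.span_induction (p := fun (c : closK g K') _ =>
      ∀ δ > 0, ∃ f ∈ I, ∀ x : K', ‖(c : C(K', ℂ)) x - f x‖ < δ) ?_ ?_ ?_ ?_ hc
    · rintro c ⟨f, hf, h⟩ δ hδ
      exact ⟨f, hf, fun x => by rw [h]; simpa using hδ⟩
    · intro δ hδ
      refine ⟨0, I.zero_mem, fun x => ?_⟩
      have h1 : ((0 : closK g K') : C(K', ℂ)) x - (0 : closedAlg g) x = 0 := by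
        show (0 : ℂ) - 0 = 0
        ring
      rw [h1, norm_zero]
      exact hδ
    · intro c d _ _ h1 h2 δ hδ
      obtain ⟨f, hf, h1⟩ := h1 (δ / 2) (by positivity)
      obtain ⟨f', hf', h2⟩ := h2 (δ / 2) (by positivity)
      refine ⟨f + f', I.add_mem hf hf', fun x => ?_⟩
      have a1 := h1 x
      have a2 := h2 x
      have a3 : ((c + d : closK g K') : C(K', ℂ)) x - (f + f') x =
          ((c : C(K', ℂ)) x - f x) + ((d : C(K', ℂ)) x - f' x) := by
        show ((c : C(K', ℂ)) x + (d : C(K', ℂ)) x) - (f x + f' x) = _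
        ring
      rw [a3]
      have := norm_add_le ((c : C(K', ℂ)) x - f x) ((d : C(K', ℂ)) x - f' x)
      linarith
    · intro b c _ h1 δ hδ
      obtain ⟨f, hf, h1⟩ := h1 (min 1 (δ / (2 * (‖b‖ + 1)))) (lt_min one_pos (by positivity))
      obtain ⟨Q, hQ, h2⟩ := closK_approx g K' b b.2 (δ / (2 * (‖c‖ + 1))) (by positivity)
      obtain ⟨P, hP, hPQ⟩ := adjoin_of_polyK g K' Q hQ
      have hPm : P ∈ closedAlg g := fun K _ ε hε => ⟨P, hP, fun x _ => by simpa using hε⟩
      refine ⟨⟨P, hPm⟩ * f, I.mul_mem_left _ hf, fun x => ?_⟩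
      have a1 := (h1 x).trans_le (min_le_right _ _)
      have a0 := (h1 x).trans_le (min_le_left _ _)
      have a2 : ‖(b : C(K', ℂ)) x - P x‖ < δ / (2 * (‖c‖ + 1)) := by
        rw [← hPQ]
        exact (((b : C(K', ℂ)) - Q).norm_coe_le_norm x).trans_lt h2
      have a3 : ‖(b : C(K', ℂ)) x‖ ≤ ‖b‖ := (b : C(K', ℂ)).norm_coe_le_norm x
      have a4 : ‖(c : C(K', ℂ)) x‖ ≤ ‖c‖ := (c : C(K', ℂ)).norm_coe_le_norm x
      have a5 : ‖f x‖ ≤ ‖c‖ + 1 := by
        have h3 : f x = (c : C(K', ℂ)) x - ((c : C(K', ℂ)) x - f x) := by ring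
        rw [h3]
        have := norm_sub_le ((c : C(K', ℂ)) x) ((c : C(K', ℂ)) x - f x)
        linarith
      have a6 : ((b • c : closK g K') : C(K', ℂ)) x - ((⟨P, hPm⟩ : closedAlg g) * f) x =
          (b : C(K', ℂ)) x * ((c : C(K', ℂ)) x - f x) + ((b : C(K', ℂ)) x - P x) * f x := by
        show (b : C(K', ℂ)) x * (c : C(K', ℂ)) x - P x * f x = _
        ring
      rw [a6]
      have a7 := norm_add_le ((b : C(K', ℂ)) x * ((c : C(K', ℂ)) x - f x))
        (((b : C(K', ℂ)) x - P x) * f x)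
      rw [norm_mul, norm_mul] at a7
      rw [lt_div_iff₀ (by positivity)] at a1 a2
      have a8 : ‖(b : C(K', ℂ)) x‖ * ‖(c : C(K', ℂ)) x - f x‖ ≤
          (‖b‖ + 1) * ‖(c : C(K', ℂ)) x - f x‖ := by
        gcongr
        linarith
      have a9 : ‖(b : C(K', ℂ)) x - P x‖ * ‖f x‖ ≤
          ‖(b : C(K', ℂ)) x - P x‖ * (‖c‖ + 1) := by gcongr
      linarith
  obtain ⟨f, hf, h1⟩ := happ 1 (htop ▸ Submodule.mem_top) ε hε
  exact ⟨f, hf, fun x hx => h1 ⟨x, hKK' hx⟩⟩

end Pool.Agent.MP_fe3720
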