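import Pool.Agent.Work.MP_fe3720_an.Base

/-! # Module LineA: the vector field `∂/∂w` on `Y × ℂ`

Let `O` be the algebra of `Y × ℂ` and `OY` the algebra of `Y` (`IsLine OY O`). Write
`P(z,w) = ∑_{k<n} a_k(z) w^k` with `a_k ∈ OY` for the approximants given by `hL.approx`.

* `slice_mem`: for `K ⊆ Y` compact use `hL.approx` on `K ×ˢ {c}`: `P(·,c) = ∑ c^k a_k ∈ OY`; conclude by
  `hL.base.closed`.
* `fibre_differentiable`: for fixed `z`, `w ↦ F(z,w)` is on each disc `closedBall 0 R` a uniform limit of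
  polynomials (`hL.approx` on `{z} ×ˢ closedBall 0 R`), hence entire
  (`TendstoLocallyUniformlyOn.differentiableOn`, choose approximants `P_n` with ε = 1/(n+1)).
* `exists_dw`: put `(v F)(z,w) = deriv (fun w => F(z,w)) w`. It is in `O`: let `K` be compact,
  `K ⊆ K₁ ×ˢ closedBall 0 R` (`K₁` = image of `K` by `fst`, which is compact). If
  `‖F - P‖ < ε` on `K₁ ×ˢ closedBall 0 (R+1)` then, by Cauchy's estimate
  (`Complex.norm_deriv_le_of_forall_mem_sphere_norm_le` with radius 1) applied to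
  `w ↦ F(z,w) - P(z,w)`, `‖∂_w F - ∂_w P‖ ≤ ε` on `K`, and `∂_w P = ∑ k a_k w^(k-1) ∈ O`
  (use ε/2 and `hL.top.closed`). Leibniz rule: product rule of `deriv`. The derivation can be built
  by `Derivation.mk'`. `IsVF`: the same estimate: if `‖F‖ < δ = ε/2` on
  `K₁ ×ˢ closedBall 0 (R+1)` then `‖v F‖ ≤ ε/2 < ε` on `K`.
* `vertical`: for an approximant `P = ∑ a_k w^k = ∑ up(a_k) * w^k ∈ O` we have
  `(D P) x = ∑ a_k(z) k w^(k-1) (D w)(x) = (D w)(x) (v P)(x)` by the Leibniz rule and the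
  hypothesis. As `D` and `v` are continuous (`IsVF`) both sides are limits: for given ε choose
  `K', δ` for `D` and `v` at the compact set `{x}`, and an approximant `P` of `F` within `δ` on `K'`. -/

namespace Pool.Agent.MP_fe3720

open Topology

variable {Y : Type} [TopologicalSpace Y] {OY : Subalgebra ℂ (Y → ℂ)}
  {O : Subalgebra ℂ (Y × ℂ → ℂ)}

theorem slice_mem (hL : IsLine OY O) (F : O) (c : ℂ) : (fun z => F (z, c)) ∈ OY := by
  refine hL.base.closed _ fun K hK ε hε => ?_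
  obtain ⟨n, a, ha, h⟩ := hL.approx F F.2 (K ×ˢ {c}) (hK.prod isCompact_singleton) ε hε
  refine ⟨∑ k ∈ Finset.range n, a k * algebraMap ℂ (Y → ℂ) (c ^ k), ?_, fun z hz => ?_⟩
  · exact Subalgebra.sum_mem _ fun k _ =>
      Subalgebra.mul_mem _ (ha k) (Subalgebra.algebraMap_mem _ _)
  · have h1 := h (z, c) ⟨hz, rfl⟩
    rw [Finset.sum_apply]
    exact h1

theorem fibre_differentiable (hL : IsLine OY O) (F : O) (z : Y) :
    Differentiable ℂ (fun w => F (z, w)) := by
  intro w₀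
  set R := ‖w₀‖ + 1 with hR
  have hap : ∀ n : ℕ, ∃ P : ℂ → ℂ, Differentiable ℂ P ∧
      ∀ w ∈ Metric.closedBall (0 : ℂ) R, ‖F (z, w) - P w‖ < 1 / ((n : ℝ) + 1) := by
    intro n
    obtain ⟨m, a, ha, h⟩ := hL.approx F F.2 ({z} ×ˢ Metric.closedBall (0 : ℂ) R)
      (isCompact_singleton.prod (isCompact_closedBall _ _)) (1 / ((n : ℝ) + 1)) (by positivity)
    refine ⟨fun w => ∑ k ∈ Finset.range m, a k z * w ^ k, by fun_prop, fun w hw => ?_⟩
    exact h (z, w) ⟨rfl, hw⟩
  choose P hP hPF using hap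
  have hunif : TendstoUniformlyOn P (fun w => F (z, w)) Filter.atTop
      (Metric.ball (0 : ℂ) R) := by
    rw [Metric.tendstoUniformlyOn_iff]
    intro ε hε
    obtain ⟨N, hN⟩ := exists_nat_one_div_lt hε
    filter_upwards [Filter.eventually_ge_atTop N] with n hn w hw
    rw [dist_eq_norm]
    refine (hPF n w (Metric.ball_subset_closedBall hw)).trans ?_
    refine lt_of_le_of_lt ?_ hN
    have : (N : ℝ) ≤ n := by exact_mod_cast hn
    gcongr
  have hd := hunif.tendstoLocallyUniformlyOn.differentiableOn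
    (Filter.Eventually.of_forall fun n => (hP n).differentiableOn) Metric.isOpen_ball
  exact hd.differentiableAt (Metric.isOpen_ball.mem_nhds (by
    rw [Metric.mem_ball, dist_zero_right, hR]; linarith))

/-- Cauchy's estimate for the derivative along the fibres -/
theorem cauchy_fibre (hL : IsLine OY O) (K : Set (Y × ℂ)) (hK : IsCompact K) :
    ∃ K' : Set (Y × ℂ), IsCompact K' ∧ ∀ (F : O) (C : ℝ), (∀ x ∈ K', ‖F x‖ ≤ C) →
      ∀ p ∈ K, ‖deriv (fun w => F (p.1, w)) p.2‖ ≤ C := by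
  obtain ⟨R, hR⟩ := (hK.image continuous_snd).isBounded.subset_closedBall (0 : ℂ)
  refine ⟨(Prod.fst '' K) ×ˢ Metric.closedBall (0 : ℂ) (R + 1),
    (hK.image continuous_fst).prod (isCompact_closedBall _ _), fun F C hF p hp => ?_⟩
  have h1 := Complex.norm_deriv_le_of_forall_mem_sphere_norm_le (f := fun w => F (p.1, w))
    (c := p.2) (R := 1) (C := C) one_pos
    (fibre_differentiable hL F p.1).diffContOnCl ?_
  · simpa using h1
  · intro w hw
    refine hF (p.1, w) ⟨⟨p, hp, rfl⟩, ?_⟩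
    have h2 := hR ⟨p, hp, rfl⟩
    rw [mem_closedBall_zero_iff] at h2 ⊢
    rw [mem_sphere_iff_norm] at hw
    have h3 : w = (w - p.2) + p.2 := by ring
    rw [h3]
    have := norm_add_le (w - p.2) p.2
    linarith

theorem poly_mem (hL : IsLine OY O) (n : ℕ) (a : ℕ → Y → ℂ) (ha : ∀ k, a k ∈ OY) :
    (fun p : Y × ℂ => ∑ k ∈ Finset.range n, a k p.1 * p.2 ^ k) ∈ O := by
  have h : (∑ k ∈ Finset.range n, (fun p : Y × ℂ => a k p.1) * (fun p : Y × ℂ => p.2) ^ k) ∈ O :=
    Subalgebra.sum_mem _ fun k _ => Subalgebra.mul_mem _ (hL.lift _ (ha k))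
      (Subalgebra.pow_mem _ hL.snd k)
  convert h using 1
  funext p
  rw [Finset.sum_apply]
  rfl

theorem deriv_mem (hL : IsLine OY O) (F : O) :
    (fun p : Y × ℂ => deriv (fun w => F (p.1, w)) p.2) ∈ O := by
  refine hL.top.closed _ fun K hK ε hε => ?_
  obtain ⟨K', hK', hC⟩ := cauchy_fibre hL K hK
  obtain ⟨n, a, ha, h⟩ := hL.approx F F.2 K' hK' (ε / 2) (by positivity)
  let P : O := ⟨fun p : Y × ℂ => ∑ k ∈ Finset.range n, a k p.1 * p.2 ^ k, poly_mem hL n a ha⟩
  have hPd : ∀ p : Y × ℂ, HasDerivAt (fun w => P (p.1, w))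
      (∑ k ∈ Finset.range n, a k p.1 * ((k : ℂ) * p.2 ^ (k - 1))) p.2 := by
    intro p
    have h1 : HasDerivAt (fun w : ℂ => ∑ k ∈ Finset.range n, a k p.1 * w ^ k)
        (∑ k ∈ Finset.range n, a k p.1 * ((k : ℂ) * p.2 ^ (k - 1))) p.2 :=
      HasDerivAt.fun_sum fun k _ => (hasDerivAt_pow k p.2).const_mul (a k p.1)
    exact h1
  refine ⟨fun p : Y × ℂ => ∑ k ∈ Finset.range n, a k p.1 * ((k : ℂ) * p.2 ^ (k - 1)), ?_,
    fun p hp => ?_⟩
  · have h : (∑ k ∈ Finset.range n, (fun p : Y × ℂ => a k p.1) *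
        (algebraMap ℂ (Y × ℂ → ℂ) (k : ℂ) * (fun p : Y × ℂ => p.2) ^ (k - 1))) ∈ O :=
      Subalgebra.sum_mem _ fun k _ => Subalgebra.mul_mem _ (hL.lift _ (ha k))
        (Subalgebra.mul_mem _ (Subalgebra.algebraMap_mem _ _) (Subalgebra.pow_mem _ hL.snd _))
    convert h using 1
    funext p
    rw [Finset.sum_apply]
    rfl
  · have h1 := hC (F - P) (ε / 2) (fun x hx => (h x hx).le) p hp
    have h2 : deriv (fun w => (F - P) (p.1, w)) p.2 =
        deriv (fun w => F (p.1, w)) p.2 -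
          ∑ k ∈ Finset.range n, a k p.1 * ((k : ℂ) * p.2 ^ (k - 1)) := by
      have h3 := ((fibre_differentiable hL F p.1) p.2).hasDerivAt.sub (hPd p)
      exact h3.deriv
    rw [h2] at h1
    linarith

theorem exists_dw (hL : IsLine OY O) : ∃ v : Derivation ℂ O O, IsDw v := by
  have hder : ∀ (F : O) (z : Y) (w : ℂ), HasDerivAt (fun w => F (z, w))
      (deriv (fun w => F (z, w)) w) w :=
    fun F z w => (fibre_differentiable hL F z w).hasDerivAt
  let L : O →ₗ[ℂ] O :=
    { toFun := fun F => ⟨_, deriv_mem hL F⟩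
      map_add' := by
        intro F G
        apply Subtype.ext
        funext p
        exact ((hder F p.1 p.2).add (hder G p.1 p.2)).deriv
      map_smul' := by
        intro c F
        apply Subtype.ext
        funext p
        exact ((hder F p.1 p.2).const_mul c).deriv }
  have hLap : ∀ (F : O) (p : Y × ℂ), (L F) p = deriv (fun w => F (p.1, w)) p.2 :=
    fun F p => rfl
  let v : Derivation ℂ O O := Derivation.mk' L (by
    intro F G
    apply Subtype.ext
    funext p
    have h := ((hder F p.1 p.2).mul (hder G p.1 p.2)).deriv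
    show deriv (fun w => F (p.1, w) * G (p.1, w)) p.2 =
      F p * deriv (fun w => G (p.1, w)) p.2 + G p * deriv (fun w => F (p.1, w)) p.2
    refine h.trans ?_
    have h1 : F (p.1, p.2) = F p := rfl
    have h2 : G (p.1, p.2) = G p := rfl
    rw [h1, h2]
    ring)
  refine ⟨v, ?_, fun F z w => hder F z w⟩
  intro K hK ε hε
  obtain ⟨K', hK', hC⟩ := cauchy_fibre hL K hK
  refine ⟨K', hK', ε / 2, by positivity, fun F hF p hp => ?_⟩
  have h1 := hC F (ε / 2) (fun x hx => (hF x hx).le) p hp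
  show ‖deriv (fun w => F (p.1, w)) p.2‖ < ε
  linarith

theorem dw_w (hL : IsLine OY O) {v : Derivation ℂ O O} (hv : IsDw v) : v hL.w = 1 := by
  apply Subtype.ext
  funext p
  have h := hv.hasDerivAt hL.w p.1 p.2
  exact h.unique (hasDerivAt_id p.2)

theorem dw_up (hL : IsLine OY O) {v : Derivation ℂ O O} (hv : IsDw v) (f : OY) :
    v (hL.up f) = 0 := by
  apply Subtype.ext
  funext p
  have h := hv.hasDerivAt (hL.up f) p.1 p.2
  exact h.unique (hasDerivAt_const p.2 (f p.1))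

theorem vertical (hL : IsLine OY O) {v : Derivation ℂ O O} (hv : IsDw v)
    (D : Derivation ℂ O O) (hD : IsVF D) (x : Y × ℂ) (h : ∀ f : OY, (D (hL.up f)) x = 0)
    (F : O) : (D F) x = (D hL.w) x * (v F) x := by
  -- the identity for polynomials
  have hpoly : ∀ (n : ℕ) (a : ℕ → OY), (D (∑ k ∈ Finset.range n, hL.up (a k) * hL.w ^ k)) x =
      (D hL.w) x * (v (∑ k ∈ Finset.range n, hL.up (a k) * hL.w ^ k)) x := by
    intro n a
    induction n with
    | zero => simp
    | succ n ih =>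
      rw [Finset.sum_range_succ, map_add, map_add]
      have h1 : (D (hL.up (a n) * hL.w ^ n)) x = (D hL.w) x * (v (hL.up (a n) * hL.w ^ n)) x := by
        rw [Derivation.leibniz, Derivation.leibniz, Derivation.leibniz_pow,
          Derivation.leibniz_pow, dw_up hL hv, dw_w hL hv]
        show (hL.up (a n)) x * ((n • (hL.w ^ (n - 1) * D hL.w) : O) x) +
          ((hL.w ^ n : O) x) * (D (hL.up (a n))) x =
          (D hL.w) x * ((hL.up (a n)) x * ((n • (hL.w ^ (n - 1) * 1) : O) x) +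
            ((hL.w ^ n : O) x) * 0)
        rw [h (a n), nsmul_eq_mul, nsmul_eq_mul]
        show (hL.up (a n)) x * (((n : O) x) * (((hL.w ^ (n - 1) : O) x) * (D hL.w) x)) +
          ((hL.w ^ n : O) x) * 0 =
          (D hL.w) x * ((hL.up (a n)) x * (((n : O) x) * (((hL.w ^ (n - 1) : O) x) * 1)) +
            ((hL.w ^ n : O) x) * 0)
        ring
      show (D (∑ k ∈ Finset.range n, hL.up (a k) * hL.w ^ k)) x + (D (hL.up (a n) * hL.w ^ n)) x =
        (D hL.w) x * ((v (∑ k ∈ Finset.range n, hL.up (a k) * hL.w ^ k)) x +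
          (v (hL.up (a n) * hL.w ^ n)) x)
      rw [ih, h1]
      ring
  -- limit
  have hlim : ∀ ε > 0, ‖(D F) x - (D hL.w) x * (v F) x‖ ≤ ε := by
    intro ε hε
    set C := ‖(D hL.w) x‖ + 1 with hC
    have hCpos : 0 < C := by positivity
    obtain ⟨K1, hK1, δ1, hδ1, h1⟩ := hD {x} isCompact_singleton (ε / 2) (by positivity)
    obtain ⟨K2, hK2, δ2, hδ2, h2⟩ := hv.vf {x} isCompact_singleton (ε / (2 * C))
      (by positivity)
    obtain ⟨n, a, ha, h3⟩ := hL.approx F F.2 (K1 ∪ K2) (hK1.union hK2) (min δ1 δ2)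
      (lt_min hδ1 hδ2)
    set P : O := ∑ k ∈ Finset.range n, hL.up ⟨a k, ha k⟩ * hL.w ^ k with hP
    have hPx : ∀ p, P p = ∑ k ∈ Finset.range n, a k p.1 * p.2 ^ k := by
      intro p
      have h4 : (P : Y × ℂ → ℂ) = ∑ k ∈ Finset.range n,
          ((hL.up ⟨a k, ha k⟩ * hL.w ^ k : O) : Y × ℂ → ℂ) := by
        rw [hP]
        exact map_sum O.val _ _
      show (P : Y × ℂ → ℂ) p = _
      rw [h4, Finset.sum_apply]
      rfl
    have h5 : ∀ y ∈ K1 ∪ K2, ‖(F - P) y‖ < min δ1 δ2 := by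
      intro y hy
      have := h3 y hy
      rw [← hPx] at this
      exact this
    have h6 := h1 (F - P) (fun y hy => (h5 y (Or.inl hy)).trans_le (min_le_left _ _)) x rfl
    have h7 := h2 (F - P) (fun y hy => (h5 y (Or.inr hy)).trans_le (min_le_right _ _)) x rfl
    rw [map_sub] at h6 h7
    have h8 := hpoly n (fun k => ⟨a k, ha k⟩)
    have h6' : ‖(D F) x - (D P) x‖ < ε / 2 := h6
    have h7' : ‖(v F) x - (v P) x‖ < ε / (2 * C) := h7
    have h9 : (D F) x - (D hL.w) x * (v F) x =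
        ((D F) x - (D P) x) - (D hL.w) x * ((v F) x - (v P) x) := by
      rw [hP, h8]; ring
    rw [h9]
    have h10 := norm_sub_le ((D F) x - (D P) x) ((D hL.w) x * ((v F) x - (v P) x))
    rw [norm_mul] at h10
    have h11 : ‖(D hL.w) x‖ * ‖(v F) x - (v P) x‖ ≤ C * (ε / (2 * C)) := by
      gcongr
      rw [hC]; linarith
    have h12 : C * (ε / (2 * C)) = ε / 2 := by field_simp
    linarith
  have h0 : ‖(D F) x - (D hL.w) x * (v F) x‖ ≤ 0 :=
    le_of_forall_pos_le_add fun ε hε => by simpa using hlim ε hε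
  exact sub_eq_zero.mp (norm_le_zero_iff.mp h0)

end Pool.Agent.MP_fe3720
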