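import Pool.Agent.Work.MP_fe3720_an.Base
import Pool.Agent.Work.MP_fe3720_an.Cl

/-! # Module LineB: affine automorphisms and complete fields of `Y × ℂ`

* `aff_mem`: if `P = ∑ a_k(z) w^k` then `P(z, a w + c) ∈ O` because `O` is an algebra containing the
  lifts and `w`. For `F ∈ O` and `K` compact use the approximants (`hL.approx`) on the compact
  image of `K` by `(z,w) ↦ (z, a w + c)`, and `hL.top.closed`.
* `exists_aff`: homeomorphism `(z,w) ↦ (z, a w + c)` with inverse `(z,w) ↦ (z, a⁻¹ w - a⁻¹ c)`.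
* `push_aff`: chain rule: `∂_w (F (z, a w + c)) = a (∂_w F)(z, a w + c)`.
* `complete_up`: the integral curve of `g(z) ∂_w` through `(z,w)` is `t ↦ (z, w + t g(z))`; `IsVF` as in
  Cl (`K' = K'` of `v` for `K` and `ε / (C+1)`, `C` a bound of `g` on `K`; the elements of `O` are
  continuous: `hL.top.cont`).
* `complete_up_w`: the integral curve of `g(z) w ∂_w` is `t ↦ (z, w exp(t g(z)))`.
In both cases use `hv.hasDerivAt` and the chain rule `HasDerivAt.comp`/`scomp`. -/

namespace Pool.Agent.MP_fe3720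

open Topology

variable {Y : Type} [TopologicalSpace Y] {OY : Subalgebra ℂ (Y → ℂ)}
  {O : Subalgebra ℂ (Y × ℂ → ℂ)}

theorem aff_mem (hL : IsLine OY O) (a c : ℂ) (F : Y × ℂ → ℂ) (hF : F ∈ O) :
    (fun p : Y × ℂ => F (p.1, a * p.2 + c)) ∈ O := by
  refine hL.top.closed _ fun K hK ε hε => ?_
  have hcont : Continuous (fun p : Y × ℂ => (p.1, a * p.2 + c)) := by fun_prop
  obtain ⟨n, b, hb, h⟩ := hL.approx F hF _ (hK.image hcont) ε hε
  refine ⟨∑ k ∈ Finset.range n, (fun p : Y × ℂ => b k p.1) *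
    ((algebraMap ℂ (Y × ℂ → ℂ) a) * (fun p : Y × ℂ => p.2) +
      algebraMap ℂ (Y × ℂ → ℂ) c) ^ k, ?_, fun p hp => ?_⟩
  · refine Subalgebra.sum_mem _ fun k _ => Subalgebra.mul_mem _ (hL.lift _ (hb k))
      (Subalgebra.pow_mem _ (Subalgebra.add_mem _ (Subalgebra.mul_mem _
        (Subalgebra.algebraMap_mem _ a) hL.snd) (Subalgebra.algebraMap_mem _ c)) k)
  · have h1 := h _ ⟨p, hp, rfl⟩
    rw [Finset.sum_apply]
    exact h1

theorem exists_aff (hL : IsLine OY O) (a : ℂ) (ha : a ≠ 0) (c : ℂ) :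
    ∃ φ : HolAut O, ∀ p : Y × ℂ, φ p = (p.1, a * p.2 + c) := by
  let h : Y × ℂ ≃ₜ Y × ℂ :=
    { toFun := fun p => (p.1, a * p.2 + c)
      invFun := fun p => (p.1, a⁻¹ * p.2 + (-(a⁻¹ * c)))
      left_inv := by
        intro p
        refine Prod.ext rfl ?_
        simp only
        field_simp
        ring
      right_inv := by
        intro p
        refine Prod.ext rfl ?_
        simp only
        field_simp
        ring
      continuous_toFun := by fun_prop
      continuous_invFun := by fun_prop }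
  exact ⟨⟨h, fun f hf => aff_mem hL a c f hf, fun f hf => aff_mem hL a⁻¹ (-(a⁻¹ * c)) f hf⟩,
    fun p => rfl⟩

theorem push_aff {v : Derivation ℂ O O} (hv : IsDw v) (a c : ℂ) (φ : HolAut O)
    (hφ : ∀ p : Y × ℂ, φ p = (p.1, a * p.2 + c)) : φ.push v = a • v := by
  apply Derivation.ext
  intro f
  ext x
  obtain ⟨y, rfl⟩ : ∃ y, x = φ y := ⟨φ.symm x, (φ.apply_symm x).symm⟩
  show (φ.push v f) (φ y) = a * (v f) (φ y)
  rw [HolAut.push_apply]
  have h1 := hv.hasDerivAt (φ.pull f) y.1 y.2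
  have h2 := hv.hasDerivAt f (φ y).1 (φ y).2
  have h3 : HasDerivAt (fun w : ℂ => a * w + c) a y.2 := by
    have := ((hasDerivAt_id y.2).const_mul a).add_const c
    simpa using this
  have h4 : HasDerivAt (fun w => f ((φ y).1, w)) ((v f) (φ y)) (a * y.2 + c) := by
    have h5 : (φ y).2 = a * y.2 + c := by rw [hφ]
    rw [← h5]
    exact h2
  have h6 := HasDerivAt.comp y.2 h4 h3
  have h7 : (fun w => (φ.pull f) (y.1, w)) = (fun w => f ((φ y).1, w)) ∘
      (fun w : ℂ => a * w + c) := by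
    funext w
    show f (φ (y.1, w)) = f ((φ y).1, a * w + c)
    rw [hφ, hφ]
  rw [h7] at h1
  have h8 := h1.unique h6
  rw [h8]
  ring

theorem complete_up (hL : IsLine OY O) {v : Derivation ℂ O O} (hv : IsDw v) (g : OY) :
    IsCompleteVF (hL.up g • v) := by
  refine ⟨hv.vf.fsmul hL.top.cont _, fun x => ⟨fun t => (x.1, x.2 + t * g x.1), ?_, ?_, ?_⟩⟩
  · fun_prop
  · simp
  · intro f t
    have h1 := hv.hasDerivAt f x.1 (x.2 + t * g x.1)
    have h2 : HasDerivAt (fun t : ℂ => x.2 + t * g x.1) (g x.1) t := by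
      have := ((hasDerivAt_id t).mul_const (g x.1)).const_add x.2
      simpa using this
    have h3 := HasDerivAt.comp t h1 h2
    have h4 : ((hL.up g • v) f) (x.1, x.2 + t * g x.1) =
        (v f) (x.1, x.2 + t * g x.1) * g x.1 := by
      show g x.1 * (v f) (x.1, x.2 + t * g x.1) = _
      ring
    rw [h4]
    exact h3

theorem complete_up_w (hL : IsLine OY O) {v : Derivation ℂ O O} (hv : IsDw v) (g : OY) :
    IsCompleteVF ((hL.up g * hL.w) • v) := by
  refine ⟨hv.vf.fsmul hL.top.cont _,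
    fun x => ⟨fun t => (x.1, x.2 * Complex.exp (t * g x.1)), ?_, ?_, ?_⟩⟩
  · fun_prop
  · simp
  · intro f t
    have h1 := hv.hasDerivAt f x.1 (x.2 * Complex.exp (t * g x.1))
    have h2 : HasDerivAt (fun t : ℂ => x.2 * Complex.exp (t * g x.1))
        (x.2 * (Complex.exp (t * g x.1) * g x.1)) t := by
      have := (((hasDerivAt_id t).mul_const (g x.1)).cexp).const_mul x.2
      simpa using this
    have h3 := HasDerivAt.comp t h1 h2
    have h4 : (((hL.up g * hL.w) • v) f) (x.1, x.2 * Complex.exp (t * g x.1)) =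
        (v f) (x.1, x.2 * Complex.exp (t * g x.1)) *
          (x.2 * (Complex.exp (t * g x.1) * g x.1)) := by
      show (g x.1 * (x.2 * Complex.exp (t * g x.1))) *
        (v f) (x.1, x.2 * Complex.exp (t * g x.1)) = _
      ring
    rw [h4]
    exact h3

end Pool.Agent.MP_fe3720
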