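import Pool.Agent.Work.MP_fe3720_an.Base

/-! # Module LineC: limits of rescalings

`F ∈ O`, `K ⊆ Y × ℂ` compact, `K ⊆ K₁ ×ˢ closedBall 0 R` with `K₁` the image of `K` by `fst` (compact) and
`R ≥ 1`.

* `limit0`: `F` is continuous (`hL.top.cont`), so uniformly continuous on the compact
  `K₁ ×ˢ closedBall 0 R`; or directly: the set of `(p, a)`... Simplest: the function
  `(p, a) ↦ F (p.1, 0) - F (p.1, a p.2)` is continuous on `K × ℂ` and vanishes for `a = 0`;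
  by compactness of `K` (tube lemma, e.g. `generalized_tube_lemma` or
  `IsCompact.eventually_forall_of_forall_eventually`) for all `a` near `0` it is `< ε` on `K`;
  choose such an `a ≠ 0`.
* `limit1`: the same with the function
  `h(p, a) = p.2 (v F)(p.1, 0) - a⁻¹ (F (p.1, a p.2) - F (p.1, 0))`. Bound it: for fixed `p = (z,w)`,
  `|w| ≤ R`, let `g(u) = F(z,u)`, entire. By the mean value inequality applied to
  `u ↦ F(z,u) - u (v F)(z,0)` on the disc of radius `|a| R` (derivative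
  `(v F)(z,u) - (v F)(z,0)`): `‖F(z, a w) - F(z,0) - a w (v F)(z,0)‖ ≤ |a| |w| sup ‖(v F)(z,u) - (v F)(z,0)‖`
  over `|u| ≤ |a| R`, and by `limit0`-type uniform continuity of `v F ∈ O` (again continuous) the
  sup is `< ε/(R+1)` for `a` small, uniformly in `z ∈ K₁`
  (`Convex.norm_image_sub_le_of_norm_deriv_le`). -/

namespace Pool.Agent.MP_fe3720

open Topology

variable {Y : Type} [TopologicalSpace Y] {OY : Subalgebra ℂ (Y → ℂ)}
  {O : Subalgebra ℂ (Y × ℂ → ℂ)}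

/-- uniform continuity at the zero section -/
theorem near_zero (hL : IsLine OY O) (F : O) (K : Set (Y × ℂ)) (hK : IsCompact K) (ε : ℝ)
    (hε : 0 < ε) : ∀ᶠ a : ℂ in 𝓝 0, ∀ p ∈ K, ‖F (p.1, (0 : ℂ)) - F (p.1, a * p.2)‖ < ε := by
  refine hK.eventually_forall_of_forall_eventually fun p _ => ?_
  have hF : Continuous F := hL.top.cont F F.2
  have hc : Continuous (fun z : ℂ × (Y × ℂ) =>
      ‖F (z.2.1, (0 : ℂ)) - F (z.2.1, z.1 * z.2.2)‖) := by
    refine Continuous.norm (Continuous.sub ?_ ?_)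
    · exact hF.comp (by fun_prop)
    · exact hF.comp (by fun_prop)
  have h0 : (fun z : ℂ × (Y × ℂ) =>
      ‖F (z.2.1, (0 : ℂ)) - F (z.2.1, z.1 * z.2.2)‖) (0, p) < ε := by
    simpa using hε
  exact hc.continuousAt.eventually (gt_mem_nhds h0)

theorem limit0 (hL : IsLine OY O) (F : O) (K : Set (Y × ℂ)) (hK : IsCompact K) (ε : ℝ)
    (hε : 0 < ε) : ∃ a : ℂ, a ≠ 0 ∧ ∀ p ∈ K, ‖F (p.1, (0 : ℂ)) - F (p.1, a * p.2)‖ < ε := by
  have h := near_zero hL F K hK ε hε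
  have h2 : ∀ᶠ a : ℂ in 𝓝[≠] 0, ∀ p ∈ K, ‖F (p.1, (0 : ℂ)) - F (p.1, a * p.2)‖ < ε :=
    h.filter_mono nhdsWithin_le_nhds
  obtain ⟨a, ha, ha0⟩ := (h2.and self_mem_nhdsWithin).exists
  exact ⟨a, ha0, ha⟩

theorem limit1 (hL : IsLine OY O) {v : Derivation ℂ O O} (hv : IsDw v) (F : O)
    (K : Set (Y × ℂ)) (hK : IsCompact K) (ε : ℝ) (hε : 0 < ε) :
    ∃ a : ℂ, a ≠ 0 ∧ ∀ p ∈ K,
      ‖p.2 * (v F) (p.1, (0 : ℂ)) - a⁻¹ * (F (p.1, a * p.2) - F (p.1, (0 : ℂ)))‖ < ε := by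
  obtain ⟨R₀, hR₀⟩ := (hK.image continuous_snd).isBounded.subset_closedBall (0 : ℂ)
  set R := max R₀ 1 with hR
  have hRpos : 0 < R := lt_of_lt_of_le one_pos (le_max_right _ _)
  have hK2 : IsCompact ((Prod.fst '' K) ×ˢ Metric.closedBall (0 : ℂ) R) :=
    (hK.image continuous_fst).prod (isCompact_closedBall _ _)
  obtain ⟨a, ha0, ha⟩ := limit0 hL (v F) _ hK2 (ε / (2 * R)) (by positivity)
  refine ⟨a, ha0, fun p hp => ?_⟩
  have hp2 : ‖p.2‖ ≤ R := by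
    have := hR₀ ⟨p, hp, rfl⟩
    rw [mem_closedBall_zero_iff] at this
    exact this.trans (le_max_left _ _)
  -- mean value inequality
  set f : ℂ → ℂ := fun u => F (p.1, u) - u * (v F) (p.1, (0 : ℂ)) with hf
  have hder : ∀ u : ℂ, HasDerivAt f ((v F) (p.1, u) - (v F) (p.1, (0 : ℂ))) u := by
    intro u
    have h1 := hv.hasDerivAt F p.1 u
    have h2 : HasDerivAt (fun u : ℂ => u * (v F) (p.1, (0 : ℂ))) ((v F) (p.1, (0 : ℂ))) u := by
      have := (hasDerivAt_id u).mul_const ((v F) (p.1, (0 : ℂ)))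
      simpa using this
    exact h1.sub h2
  have hbound : ∀ u ∈ Metric.closedBall (0 : ℂ) (‖a‖ * R), ‖deriv f u‖ ≤ ε / (2 * R) := by
    intro u hu
    rw [(hder u).deriv]
    rw [mem_closedBall_zero_iff] at hu
    have h1 := ha (p.1, a⁻¹ * u) ⟨⟨p, hp, rfl⟩, by
      rw [mem_closedBall_zero_iff, norm_mul, norm_inv]
      rw [inv_mul_le_iff₀ (norm_pos_iff.mpr ha0)]
      exact hu⟩
    have h2 : a * (a⁻¹ * u) = u := by field_simp
    simp only [h2] at h1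
    rw [norm_sub_rev]
    exact h1.le
  have hmv := (convex_closedBall (0 : ℂ) (‖a‖ * R)).norm_image_sub_le_of_norm_deriv_le
    (f := f) (fun u _ => (hder u).differentiableAt) hbound
    (x := 0) (y := a * p.2) (by simp; positivity)
    (by rw [mem_closedBall_zero_iff, norm_mul]; gcongr)
  have hap : 0 < ‖a‖ := norm_pos_iff.mpr ha0
  have h3 : p.2 * (v F) (p.1, (0 : ℂ)) - a⁻¹ * (F (p.1, a * p.2) - F (p.1, (0 : ℂ))) =
      -(a⁻¹ * (f (a * p.2) - f 0)) := by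
    simp only [hf, zero_mul, sub_zero]
    field_simp
    ring
  rw [h3, norm_neg, norm_mul, norm_inv]
  rw [sub_zero, norm_mul] at hmv
  have h4 : ‖a‖⁻¹ * ‖f (a * p.2) - f 0‖ ≤ ‖a‖⁻¹ * (ε / (2 * R) * (‖a‖ * ‖p.2‖)) := by
    gcongr
  refine h4.trans_lt ?_
  have h5 : ‖a‖⁻¹ * (ε / (2 * R) * (‖a‖ * ‖p.2‖)) = ε / (2 * R) * ‖p.2‖ := by
    field_simp
  rw [h5]
  have h6 : ε / (2 * R) * ‖p.2‖ ≤ ε / (2 * R) * R := by gcongr
  have h7 : ε / (2 * R) * R = ε / 2 := by field_simp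
  linarith

end Pool.Agent.MP_fe3720
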