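import Pool.Agent.Work.MP_fe3720_an.Closed
import Pool.Agent.Work.MP_fe3720_an.Conv

/-! # Module LineHol: `holLine Z` is the algebra of `Z × ℂ`

`Z` is closed in `ℂ^N` (`isClosed_of_submanifold`), so `Z` and `Z × ℂ` are locally compact, and `hol Z`, `holLine Z`
are closed algebras of continuous functions (`closedAlg_isClosedAlg`). Lift: `comp_mem` with
`θ = Prod.fst`. `snd`: `gen_mem`. `approx`: it is enough that every element `P` of
`Algebra.adjoin ℂ (range generators)` is of the form `∑_{k<n} a_k(z) w^k` with `a_k ∈ hol Z`: induction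
(`Algebra.adjoin_induction`): generators `z_i` (`n = 1`), `w` (`n = 2`), constants, sums (take `a_k = 0` for
`k ≥ n` first and pad: it may be convenient to prove the claim in the form
(a) `∃ p : Polynomial (hol Z), ∀ x, P x = p.sum (fun k a => a x.1 * x.2^k)` or
(b) `∃ n a, (∀ k, a k ∈ hol Z) ∧ (∀ k ≥ n, a k = 0) ∧ …`), products (Cauchy product; with
polynomials over the commutative ring `hol Z`: `Polynomial.eval₂` of the ring homomorphism
`hol Z → (Z × ℂ → ℂ)`, `a ↦ a ∘ fst`, at the element `snd`; `Polynomial.eval₂_mul`, `Polynomial.eval₂_eq_sum_range`). -/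

namespace Pool.Agent.MP_fe3720

open Topology

variable {N d : ℕ} {Z : Set (Fin N → ℂ)}

theorem isLine_hol (hZ : IsSteinSubmanifold N d Z) : IsLine (hol Z) (holLine Z) := by
  have hc := isClosed_of_submanifold hZ
  have : LocallyCompactSpace Z := hc.isClosedEmbedding_subtypeVal.locallyCompactSpace
  have htop : IsClosedAlg (holLine Z) := closedAlg_isClosedAlg _
  refine ⟨closedAlg_isClosedAlg _, htop, fun f hf => ?_, ?_, fun F hF K hK ε hε => ?_⟩
  · refine comp_mem htop (fun i : Fin N => (⟨fun z : Z => z.1 i,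
      (continuous_apply i).comp continuous_subtype_val⟩ : C(Z, ℂ))) Prod.fst continuous_fst ?_ f hf
    intro i
    exact gen_mem (Sum.elim
      (fun i : Fin N => (⟨fun p : Z × ℂ => p.1.1 i,
        (continuous_apply i).comp (continuous_subtype_val.comp continuous_fst)⟩ : C(Z × ℂ, ℂ)))
      (fun _ : Unit => (⟨fun p : Z × ℂ => p.2, continuous_snd⟩ : C(Z × ℂ, ℂ)))) (Sum.inl i)
  · exact gen_mem (Sum.elim
      (fun i : Fin N => (⟨fun p : Z × ℂ => p.1.1 i,
        (continuous_apply i).comp (continuous_subtype_val.comp continuous_fst)⟩ : C(Z × ℂ, ℂ)))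
      (fun _ : Unit => (⟨fun p : Z × ℂ => p.2, continuous_snd⟩ : C(Z × ℂ, ℂ)))) (Sum.inr ())
  · obtain ⟨P, hP, h1⟩ := hF K hK ε hε
    -- the evaluation homomorphisms
    set ev : Z → hol Z →+* ℂ := fun z =>
      (Pi.evalRingHom (fun _ : Z => ℂ) z).comp (hol Z).val.toRingHom with hev
    have heva : ∀ z (f : hol Z), ev z f = (f : Z → ℂ) z := fun z f => rfl
    have key : ∃ p : Polynomial (hol Z), ∀ x : Z × ℂ, P x = p.eval₂ (ev x.1) x.2 := by
      clear h1
      induction hP using Algebra.adjoin_induction with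
      | mem P hx =>
        obtain ⟨i, rfl⟩ := hx
        rcases i with i | i
        · exact ⟨Polynomial.C ⟨_, gen_mem _ i⟩, fun x => by
            rw [Polynomial.eval₂_C]
            rfl⟩
        · exact ⟨Polynomial.X, fun x => by
            rw [Polynomial.eval₂_X]
            rfl⟩
      | algebraMap r => exact ⟨Polynomial.C (algebraMap ℂ (hol Z) r), fun x => by
          rw [Polynomial.eval₂_C]
          rfl⟩
      | add a b _ _ ha hb =>
        obtain ⟨p, hp⟩ := ha
        obtain ⟨q, hq⟩ := hb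
        exact ⟨p + q, fun x => by
          rw [Polynomial.eval₂_add, ← hp, ← hq]
          rfl⟩
      | mul a b _ _ ha hb =>
        obtain ⟨p, hp⟩ := ha
        obtain ⟨q, hq⟩ := hb
        exact ⟨p * q, fun x => by
          rw [Polynomial.eval₂_mul, ← hp, ← hq]
          rfl⟩
    obtain ⟨p, hp⟩ := key
    refine ⟨p.natDegree + 1, fun k => (p.coeff k : Z → ℂ), fun k => (p.coeff k).2, fun x hx => ?_⟩
    have h2 := h1 x hx
    rw [hp x, Polynomial.eval₂_eq_sum_range] at h2
    exact h2

theorem separates_hol (z z' : Z) (h : z ≠ z') : ∃ f : hol Z, f z ≠ f z' := by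
  have h1 : ∃ i, z.1 i ≠ z'.1 i := by
    by_contra hc
    push Not at hc
    exact h (Subtype.ext (funext hc))
  obtain ⟨i, hi⟩ := h1
  exact ⟨⟨_, gen_mem _ i⟩, hi⟩

end Pool.Agent.MP_fe3720
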