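import Pool.Agent.Work.MP_fe3720_an.LineB

/-! # Module RRT: if `Y × ℂ` is an RR-space then its automorphism group is 2-transitive

Let `T`, `ρ`, `R` be as in `IsRR`. Let `x ≠ y` and `x' ≠ y'` be given.

Let `C = max (R 0) (R 1)`. `{ρ ≤ C}` is compact, so its projection to `ℂ` is bounded, and for a suitable
`c ∈ ℂ` the four points `τ x, τ y, τ x', τ y'` have `ρ > C`, where `τ (z,w) = (z, w + c)` is the automorphism
`exists_aff 1 c`. More generally for every bound `M` and every finite set `A ⊆ Y × ℂ` there is a point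
`p ∉ A` with `ρ p > M` (take `p = (x.1, w)` with `|w|` large). Choose recursively (or by
`∀ k, ∃ p` and strong recursion) points `p_k`, `k = 0, 1, 2, …`, pairwise distinct and
different from the four points, with `ρ (p_k) > max (R 0, …, R (k+2))`, (e.g. `p_k = (x.1, w_k)` with
`|w_k|` strictly increasing, larger than the norms of the second coordinates of the four points).

`D = {τ x, τ y} ∪ {p_k}` and `D' = {τ x', τ y'} ∪ {p_k}` are infinite and satisfy
`#{ρ ≤ R n} ≤ n`: for `n = 0, 1` there is no such point; for `n ≥ 2` only `τ x, τ y` and `p_k` with `k + 2 < n`,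
at most `2 + (n - 2)` points (in fact `{x ∈ D | ρ x ≤ R n} ⊆ {τ x, τ y} ∪ {p_k | k < n - 2}`; use
`Set.encard_le_encard`, `Set.encard_insert_le`, `Set.encard_image_le`, or `Set.encard_coe_eq_coe_finsetCard`).
So `D, D' ∈ T`. Let `ι` be the map with `τ x ↦ τ x'`, `τ y ↦ τ y'`, identity elsewhere (`Function.update` twice,
or if-then-else); it maps `D` injectively to `D'`. By (RR1) there is `φ ∈ Aut` with `φ = ι` on `D`; then
`τ⁻¹ φ τ` maps `x, y` to `x', y'`. -/

namespace Pool.Agent.MP_fe3720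

open Topology

variable {Y : Type} [TopologicalSpace Y] {OY : Subalgebra ℂ (Y → ℂ)}
  {O : Subalgebra ℂ (Y × ℂ → ℂ)}

/-- the sparse set `{u, v} ∪ {p k}` -/
theorem sparse_card {X : Type} (ρ : X → ℝ) (R : ℕ → ℝ) (p : ℕ → X)
    (hp : ∀ k n, n ≤ k + 2 → R n < ρ (p k)) (u v : X) (hu0 : R 0 < ρ u) (hu1 : R 1 < ρ u)
    (hv0 : R 0 < ρ v) (hv1 : R 1 < ρ v) (n : ℕ) :
    {q ∈ insert u (insert v (Set.range p)) | ρ q ≤ R n}.encard ≤ n := by
  classical
  rcases Nat.lt_or_ge n 2 with hn | hn
  · have hempty : {q ∈ insert u (insert v (Set.range p)) | ρ q ≤ R n} = ∅ := by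
      rw [Set.eq_empty_iff_forall_notMem]
      rintro q ⟨hq, hqR⟩
      rcases hq with rfl | rfl | ⟨k, rfl⟩
      · interval_cases n
        · exact absurd hqR (not_le.mpr hu0)
        · exact absurd hqR (not_le.mpr hu1)
      · interval_cases n
        · exact absurd hqR (not_le.mpr hv0)
        · exact absurd hqR (not_le.mpr hv1)
      · exact absurd hqR (not_le.mpr (hp k n (by omega)))
    rw [hempty, Set.encard_empty]
    exact zero_le
  · have hsub : {q ∈ insert u (insert v (Set.range p)) | ρ q ≤ R n} ⊆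
        ((insert u (insert v ((Finset.range (n - 2)).image p)) : Finset X) : Set X) := by
      rintro q ⟨hq, hqR⟩
      rcases hq with rfl | rfl | ⟨k, rfl⟩
      · simp
      · simp
      · have hk : k < n - 2 := by
          by_contra hcon
          exact absurd hqR (not_le.mpr (hp k n (by omega)))
        simp only [Finset.coe_insert, Finset.coe_image, Set.mem_insert_iff, Set.mem_image,
          Finset.mem_coe, Finset.mem_range]
        exact Or.inr (Or.inr ⟨k, hk, rfl⟩)
    refine (Set.encard_le_encard hsub).trans ?_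
    rw [Set.encard_coe_eq_coe_finsetCard]
    have h1 : (insert u (insert v ((Finset.range (n - 2)).image p))).card ≤ n := by
      refine (Finset.card_insert_le _ _).trans ?_
      have h2 := Finset.card_insert_le v ((Finset.range (n - 2)).image p)
      have h3 := Finset.card_image_le (s := Finset.range (n - 2)) (f := p)
      rw [Finset.card_range] at h3
      omega
    exact_mod_cast h1

theorem twoTransitive_of_RR (hL : IsLine OY O) (hRR : IsRR O) : IsTwoTransitive O := by
  classical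
  obtain ⟨T, -, hRR1, ⟨ρ, hρc, hρ0, hρK, R, hR0, hRub, hRR2⟩, -, -⟩ := hRR
  intro x y x' y' hxy hxy'
  -- bounds
  have hbd : ∀ M : ℝ, ∃ r : ℝ, ∀ q : Y × ℂ, ρ q ≤ M → ‖q.2‖ ≤ r := by
    intro M
    obtain ⟨r, hr⟩ := ((hρK M).image continuous_snd).isBounded.subset_closedBall (0 : ℂ)
    refine ⟨r, fun q hq => ?_⟩
    have := hr ⟨q, hq, rfl⟩
    rwa [mem_closedBall_zero_iff] at this
  choose r hr using hbd
  set C := max (R 0) (R 1) with hC
  set S := ‖x.2‖ + ‖y.2‖ + ‖x'.2‖ + ‖y'.2‖ with hS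
  set c₀ : ℝ := |r C| + S + 1 with hc₀
  have hc₀pos : 0 < c₀ := by positivity
  obtain ⟨τ, hτ⟩ := exists_aff hL 1 one_ne_zero (c₀ : ℂ)
  have hτ2 : ∀ q : Y × ℂ, (τ q).2 = q.2 + c₀ := fun q => by rw [hτ]; simp
  have hnc : ‖(c₀ : ℂ)‖ = c₀ := by
    rw [Complex.norm_real, Real.norm_eq_abs, abs_of_pos hc₀pos]
  have hbig : ∀ q : Y × ℂ, ‖q.2‖ ≤ S → C < ρ (τ q) := by
    intro q hq
    by_contra hcon
    have h1 := hr C (τ q) (not_lt.mp hcon)
    rw [hτ2] at h1
    have h2 : ‖(c₀ : ℂ)‖ ≤ ‖q.2 + c₀‖ + ‖q.2‖ := by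
      have h3 : (c₀ : ℂ) = (q.2 + c₀) - q.2 := by ring
      calc ‖(c₀ : ℂ)‖ = ‖(q.2 + c₀) - q.2‖ := by rw [← h3]
        _ ≤ _ := norm_sub_le _ _
    rw [hnc] at h2
    have h4 := le_abs_self (r C)
    linarith
  have hsmall : ∀ q : Y × ℂ, ‖q.2‖ ≤ S → ‖(τ q).2‖ ≤ S + c₀ := by
    intro q hq
    rw [hτ2]
    have := norm_add_le q.2 (c₀ : ℂ)
    rw [hnc] at this
    linarith
  have hnx : ‖x.2‖ ≤ S := by rw [hS]; linarith [norm_nonneg y.2, norm_nonneg x'.2, norm_nonneg y'.2]
  have hny : ‖y.2‖ ≤ S := by rw [hS]; linarith [norm_nonneg x.2, norm_nonneg x'.2, norm_nonneg y'.2]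
  have hnx' : ‖x'.2‖ ≤ S := by
    rw [hS]; linarith [norm_nonneg y.2, norm_nonneg x.2, norm_nonneg y'.2]
  have hny' : ‖y'.2‖ ≤ S := by
    rw [hS]; linarith [norm_nonneg y.2, norm_nonneg x'.2, norm_nonneg x.2]
  -- the tail
  set M : ℕ → ℝ := fun k => ∑ i ∈ Finset.range (k + 3), |R i| with hM
  have hMR : ∀ k n, n ≤ k + 2 → R n ≤ M k := by
    intro k n hn
    refine (le_abs_self _).trans ?_
    exact Finset.single_le_sum (f := fun i => |R i|) (fun i _ => abs_nonneg _)
      (Finset.mem_range.mpr (by omega))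
  set w : ℕ → ℝ := fun k => S + c₀ + 1 + ∑ i ∈ Finset.range (k + 1), (|r (M i)| + 1) with hw
  have hwpos : ∀ k, S + c₀ + 1 ≤ w k := by
    intro k
    have : 0 ≤ ∑ i ∈ Finset.range (k + 1), (|r (M i)| + 1) :=
      Finset.sum_nonneg fun i _ => by positivity
    simp only [hw]
    linarith
  have hSnn : 0 ≤ S := by positivity
  have hwmono : StrictMono w := by
    refine strictMono_nat_of_lt_succ fun k => ?_
    simp only [hw]
    rw [Finset.sum_range_succ (fun i => |r (M i)| + 1) (k + 1)]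
    have : 0 < |r (M (k + 1))| + 1 := by positivity
    linarith
  have hwr : ∀ k, |r (M k)| + 1 ≤ w k := by
    intro k
    have h1 : |r (M k)| + 1 ≤ ∑ i ∈ Finset.range (k + 1), (|r (M i)| + 1) :=
      Finset.single_le_sum (f := fun i => |r (M i)| + 1) (fun i _ => by positivity)
        (Finset.mem_range.mpr (by omega))
    simp only [hw]
    linarith
  set p : ℕ → Y × ℂ := fun k => (x.1, (w k : ℂ)) with hp
  have hpn : ∀ k, ‖(p k).2‖ = w k := by
    intro k
    show ‖((w k : ℝ) : ℂ)‖ = w k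
    rw [Complex.norm_real, Real.norm_eq_abs, abs_of_nonneg (by linarith [hwpos k])]
  have hpρ : ∀ k n, n ≤ k + 2 → R n < ρ (p k) := by
    intro k n hn
    refine lt_of_le_of_lt (hMR k n hn) ?_
    by_contra hcon
    have h1 := hr (M k) (p k) (not_lt.mp hcon)
    rw [hpn] at h1
    have h2 := le_abs_self (r (M k))
    linarith [hwr k]
  have hpinj : Function.Injective p := by
    intro i j hij
    have h1 : ((w i : ℝ) : ℂ) = (w j : ℝ) := congrArg Prod.snd hij
    exact hwmono.injective (Complex.ofReal_injective h1)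
  have hpne : ∀ k (q : Y × ℂ), ‖q.2‖ ≤ S → p k ≠ τ q := by
    intro k q hq h
    have h1 := hsmall q hq
    rw [← h, hpn] at h1
    linarith [hwpos k]
  -- membership in `T`
  have hDT : ∀ a b : Y × ℂ, ‖a.2‖ ≤ S → ‖b.2‖ ≤ S →
      insert (τ a) (insert (τ b) (Set.range p)) ∈ T := by
    intro a b ha hb
    refine hRR2 _ ?_ ?_
    · exact (Set.infinite_range_of_injective hpinj).mono
        ((Set.subset_insert _ _).trans (Set.subset_insert _ _))
    · intro n
      exact sparse_card ρ R p hpρ (τ a) (τ b)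
        (lt_of_le_of_lt (le_max_left _ _) (hbig a ha))
        (lt_of_le_of_lt (le_max_right _ _) (hbig a ha))
        (lt_of_le_of_lt (le_max_left _ _) (hbig b hb))
        (lt_of_le_of_lt (le_max_right _ _) (hbig b hb)) n
  have hτinj : Function.Injective (fun q => τ q) := τ.toHomeo.injective
  have hτxy : τ x ≠ τ y := fun h => hxy (hτinj h)
  have hτxy' : τ x' ≠ τ y' := fun h => hxy' (hτinj h)
  let ι : Y × ℂ → Y × ℂ := fun q => if q = τ x then τ x' else if q = τ y then τ y' else q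
  have hιx : ι (τ x) = τ x' := if_pos rfl
  have hιy : ι (τ y) = τ y' := by
    show (if τ y = τ x then τ x' else if τ y = τ y then τ y' else τ y) = τ y'
    rw [if_neg hτxy.symm, if_pos rfl]
  have hιp : ∀ k, ι (p k) = p k := by
    intro k
    show (if p k = τ x then τ x' else if p k = τ y then τ y' else p k) = p k
    rw [if_neg (hpne k x hnx), if_neg (hpne k y hny)]
  obtain ⟨φ, hφ⟩ := hRR1 _ (hDT x y hnx hny) _ (hDT x' y' hnx' hny') ι (by
      rintro q (rfl | rfl | ⟨k, rfl⟩)
      · rw [hιx]; exact Or.inl rfl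
      · rw [hιy]; exact Or.inr (Or.inl rfl)
      · rw [hιp]; exact Or.inr (Or.inr ⟨k, rfl⟩)) (by
      rintro a (rfl | rfl | ⟨k, rfl⟩) b (rfl | rfl | ⟨l, rfl⟩) hab
      · rfl
      · rw [hιx, hιy] at hab; exact absurd hab hτxy'
      · rw [hιx, hιp] at hab; exact absurd hab.symm (hpne l x' hnx')
      · rw [hιx, hιy] at hab; exact absurd hab.symm hτxy'
      · rfl
      · rw [hιy, hιp] at hab; exact absurd hab.symm (hpne l y' hny')
      · rw [hιx, hιp] at hab; exact absurd hab (hpne k x' hnx')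
      · rw [hιy, hιp] at hab; exact absurd hab (hpne k y' hny')
      · rw [hιp, hιp] at hab; exact hab)
  refine ⟨τ.symm.comp (φ.comp τ), ?_, ?_⟩
  · show τ.symm (φ (τ x)) = x'
    rw [hφ _ (Or.inl rfl), hιx, HolAut.symm_apply_self]
  · show τ.symm (φ (τ y)) = y'
    rw [hφ _ (Or.inr (Or.inl rfl)), hιy, HolAut.symm_apply_self]

end Pool.Agent.MP_fe3720
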