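import Pool.Agent.Work.MP_fe3720_an.Frob
import Pool.Agent.Work.MP_fe3720_an.Leaf
import Pool.Agent.Work.MP_fe3720_an.Cl

/-! # Module SpanT: the fields `φ_* (∂/∂w)` span the tangent spaces

(1) `finrank (conjSpan v x) ≤ m` and the map `ξ ↦ (ξ (q j))_j` is injective on `conjSpan v x` (chart `q, κ, V` at
`x`, `y = (q j x)_j ∈ V`, `κ y = x`): an element `ξ` of the span is `f ↦ (D f) x` for a finite linear combination
`D` of the `φ.push v`, which is `IsVF`, and `(D f) x = fderiv (f ∘ κ) y (fun j => ξ (q j))`.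
(2) For `A ∈ Aut`: `conjSpan v (A x)` is the image of `conjSpan v x` by the linear automorphism
`ξ ↦ ξ ∘ A.pull` of `O → ℂ` (`(φ.push v f)(A x) = ((A.symm.comp φ).push v (A.pull f)) x`, by `push_comp`), so they have the
same finrank. By (2-)transitivity (`Y × ℂ` has at least two points) the finrank is a constant `r ≤ m`.
(3) Suppose `r < m`. `exists_box` and `no_boxes` give a contradiction: for `y ≠ x₀` choose by 2-transitivity `φ`
with `φ (x₀.1, 0) = x₀` and `φ (x₀.1, 1) = y`; then `y = flowMap φ 1 x₀`.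
(4) So `r = m`: the vectors `((φ.push v (q j)) x)_j ∈ ℂ^m`, `φ ∈ Aut`, span a space of dimension `m`, so `m` of them are
linearly independent, i.e. the matrix has nonzero determinant, with `f = q`
(`exists_linearIndependent'`, `Matrix.linearIndependent_rows_iff_isUnit`). -/

namespace Pool.Agent.MP_fe3720

open Topology

variable {Y : Type} [TopologicalSpace Y] {OY : Subalgebra ℂ (Y → ℂ)}
  {O : Subalgebra ℂ (Y × ℂ → ℂ)}

theorem conjSpan_finrank_aut (v : Derivation ℂ O O) (A : HolAut O) (x : Y × ℂ) :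
    Module.finrank ℂ (conjSpan v (A x)) = Module.finrank ℂ (conjSpan v x) := by
  let T : (O → ℂ) ≃ₗ[ℂ] (O → ℂ) := LinearEquiv.funCongrLeft ℂ ℂ A.pull.toEquiv
  have hT : ∀ (ξ : O → ℂ) (f : O), T ξ f = ξ (A.pull f) := fun ξ f => rfl
  have hmap : (conjSpan v x).map (T : (O → ℂ) →ₗ[ℂ] (O → ℂ)) = conjSpan v (A x) := by
    unfold conjSpan
    rw [Submodule.map_span, ← Set.range_comp]
    congr 1
    ext ξ
    constructor
    · rintro ⟨ψ, rfl⟩
      refine ⟨A.comp ψ, ?_⟩
      funext f
      simp only [Function.comp]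
      rw [HolAut.push_comp, HolAut.push_apply]
      rfl
    · rintro ⟨φ, rfl⟩
      refine ⟨A.symm.comp φ, ?_⟩
      funext f
      simp only [Function.comp]
      rw [HolAut.push_comp]
      have h : (T fun f => ((A.symm.push (φ.push v)) f) x) f =
          ((A.symm.push (φ.push v)) (A.pull f)) x := rfl
      refine h.trans ?_
      rw [← HolAut.push_apply, HolAut.push_push_symm]
  rw [← hmap]
  exact LinearEquiv.finrank_map_eq T (conjSpan v x)

theorem conjSpan_finrank_le {v : Derivation ℂ O O} (hv : IsDw v) {m : ℕ}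
    (hch : HasCharts m O) (x : Y × ℂ) : Module.finrank ℂ (conjSpan v x) ≤ m := by
  obtain ⟨q, κ, V, hV, hy₀, hκ₀, hκ, hq, hopen, hf, htan⟩ := hch x
  have h := finrank_qSpan hv q κ (fun j => (q j) x) (fun D hD f => htan D hD f _ hy₀)
  rw [hκ₀] at h
  rw [← h]
  refine (Submodule.finrank_le _).trans ?_
  rw [Module.finrank_fin_fun]

theorem span_of_twoTransitive [SecondCountableTopology Y] (hL : IsLine OY O)
    {v : Derivation ℂ O O} (hv : IsDw v) {m : ℕ} (hch : HasCharts m O)
    (h2 : IsTwoTransitive O) (x : Y × ℂ) :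
    ∃ (φ : Fin m → HolAut O) (f : Fin m → O),
      (Matrix.of fun i j => ((φ i).push v (f j)) x).det ≠ 0 := by
  obtain ⟨r, hr⟩ : ∃ r, Module.finrank ℂ (conjSpan v x) = r := ⟨_, rfl⟩
  have hrank : ∀ x', Module.finrank ℂ (conjSpan v x') = r := by
    intro x'
    obtain ⟨A, hA, -⟩ := h2 x (x.1, x.2 + 1) x' (x'.1, x'.2 + 1)
      (fun h => by simpa using congrArg Prod.snd h) (fun h => by simpa using congrArg Prod.snd h)
    rw [← hA, conjSpan_finrank_aut, hr]
  have hle : r ≤ m := hr ▸ conjSpan_finrank_le hv hch x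
  have hrm : r = m := by
    by_contra hne
    have hlt : r < m := lt_of_le_of_ne hle hne
    refine no_boxes hL (fun x₀ => exists_box hL hv hch hlt hrank x₀) x ?_
    intro y hy
    obtain ⟨φ, h1, h3⟩ := h2 (x.1, 0) (x.1, 1) x y
      (fun h => by simpa using congrArg Prod.snd h) (Ne.symm hy)
    refine ⟨φ, 1, ?_⟩
    unfold flowMap
    rw [← h1, HolAut.symm_apply_self]
    simp only [zero_add]
    exact h3.symm
  obtain ⟨q, κ, V, hV, hy₀, hκ₀, hκ, hq, hopen, hf, htan⟩ := hch x
  have h := finrank_qSpan hv q κ (fun j => (q j) x) (fun D hD f => htan D hD f _ hy₀)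
  rw [hκ₀, hr, hrm] at h
  obtain ⟨φ, B, hbij⟩ := frame (fun φ : HolAut O => fun j => (φ.push v (q j)) x) h
  refine ⟨φ, q, ?_⟩
  have hli : LinearIndependent ℂ (fun i => fun j => ((φ i).push v (q j)) x) := by
    rw [Fintype.linearIndependent_iff]
    intro t ht i
    have h3 : (t, (0 : Fin (m - m) → ℂ)) = (0, 0) := by
      apply hbij.1
      simp only [map_zero, add_zero, Pi.zero_apply, zero_smul, Finset.sum_const_zero]
      exact ht
    exact congrFun (congrArg Prod.fst h3) i
  have h4 := (Matrix.linearIndependent_rows_iff_isUnit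
    (A := Matrix.of fun i j => ((φ i).push v (q j)) x)).mp hli
  rw [Matrix.isUnit_iff_isUnit_det] at h4
  exact h4.ne_zero

end Pool.Agent.MP_fe3720
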