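import Pool.Agent.Work.MP_fe3720_an.Cl
import Pool.Agent.Work.MP_fe3720_an.Push
import Pool.Agent.Work.MP_fe3720_an.LineA
import Pool.Agent.Work.MP_fe3720_an.LineB

/-! # Module TwoT: 2-transitivity implies the nondegeneracy `(H7)`

Let `π = Prod.fst`. For `φ ∈ Aut` and `p ∈ Y × ℂ` say `E(φ, p)` if for all `f ∈ OY`
`(v (φ.pull (up f))) p = 0` (i.e. `dφ (∂_w)` is vertical at `φ p`).

Suppose that `(H7)` fails at `z₀`: for all `u ∈ clLie`, `f ∈ OY`, `c`: `(v (u (up f))) (z₀, c) = 0`. So for all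
`u ∈ clLie`, `f ∈ OY` the function `w ↦ (u (up f)) (z₀, w)` is constant (`hv.hasDerivAt`,
`is_const_of_deriv_eq_zero`).

Step 1. If `φ p₁, φ p₂ ∈ {z₀} × ℂ` and `π p₁ ≠ π p₂` then `E(φ, p₁)`. Let `f ∈ OY`. For `F ∈ OY` let
`u_F = φ.push (up F • v)`, a complete field (`complete_up`, `isComplete_push`). By `push_smul`,
`(u_F (up f)) (φ p) = F(π p) * (v (φ.pull (up f))) p` for every `p`. Put
`k(p) = (v (φ.pull (up f))) p`. With `F = 1`: `k(p₁) = k(p₂)` (as `φ p₁, φ p₂` are on the fibre over `z₀`). With `F`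
separating `π p₁` and `π p₂` (`hsep`): `F(π p₁) k(p₁) = F(π p₂) k(p₂)`, so `k(p₁) = 0`.

Step 2. For all `ψ ∈ Aut`, `p`: `E(ψ, p)`. Choose `q` with `π q ≠ π p` and `π (ψ q) ≠ π (ψ p)`: the sets
`{q | π q = π p}` and `{q | π (ψ q) = π (ψ p)}` are closed with empty interior (`Y` is Hausdorff without
isolated points, `ψ` is a homeomorphism), so their union is not everything
(`interior_union_isClosed_of_interior_empty`). By 2-transitivity there is `φ` with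
`φ (ψ p) = (z₀, 0)` and `φ (ψ q) = (z₀, 1)`. By step 1: `E(φ, ψ p)`, and `E(φ ∘ ψ, p)`. So the derivations
`D₁ = φ.push v` and `D₃ = (φ.comp ψ).push v` satisfy `(D (up f)) (z₀,0) = 0` for all `f ∈ OY`, and by
`vertical` (module LineA), for all `F ∈ O`: `(D₁ F)(z₀,0) = a (v F)(z₀,0)`, `(D₃ F)(z₀,0) = b (v F)(z₀,0)` with
`a = (D₁ w)(z₀,0)`, `b = (D₃ w)(z₀,0)`. `a ≠ 0`: for `F = φ.symm.pull w` we have
`(D₁ F)(z₀,0) = (v w)(ψ p) = 1`. So `(D₃ F)(z₀,0) = (b/a) (D₁ F)(z₀,0)` for all `F`. For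
`F = φ.symm.pull (up f)` this is `(v (ψ.pull (up f)))(p) = (b/a) (v (up f))(ψ p) = 0`. So `E(ψ, p)`.

Step 3. By 2-transitivity choose `ψ` with `ψ (z₀, 0) = (z₀, 0)`, `ψ (z₀, 1) = (z₁, 0)` with `z₁ ≠ z₀` (exists as
`z₀` is not isolated), and `f ∈ OY` with `f z₀ ≠ f z₁`. By step 2 `w ↦ (up f) (ψ (z₀, w)) = f (π ψ (z₀,w))` has
derivative `(v (ψ.pull (up f))) (z₀, w) = 0`, so is constant: `f z₀ = f z₁`, contradiction. -/

namespace Pool.Agent.MP_fe3720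

open Topology

variable {Y : Type} [TopologicalSpace Y] {OY : Subalgebra ℂ (Y → ℂ)}
  {O : Subalgebra ℂ (Y × ℂ → ℂ)}

/-- step 1 -/
theorem vert_of_pair (hL : IsLine OY O) {v : Derivation ℂ O O} (hv : IsDw v) (z₀ : Y)
    (hsep : ∀ z z' : Y, z ≠ z' → ∃ f : OY, f z ≠ f z')
    (hfail : ∀ u ∈ clLie O, ∀ f : OY, ∀ c : ℂ, (v (u (hL.up f))) (z₀, c) = 0)
    (φ : HolAut O) (p₁ p₂ : Y × ℂ) (h1 : (φ p₁).1 = z₀) (h2 : (φ p₂).1 = z₀)
    (hne : p₁.1 ≠ p₂.1) (f : OY) : (v (φ.pull (hL.up f))) p₁ = 0 := by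
  have hconst : ∀ u ∈ clLie O, ∀ a b : Y × ℂ, a.1 = z₀ → b.1 = z₀ →
      (u (hL.up f)) a = (u (hL.up f)) b := by
    intro u hu a b ha hb
    have h3 : ∀ w, HasDerivAt (fun w => (u (hL.up f)) (z₀, w)) 0 w := by
      intro w
      have h := hv.hasDerivAt (u (hL.up f)) z₀ w
      rwa [hfail u hu f w] at h
    have h4 := is_const_of_deriv_eq_zero (fun w => (h3 w).differentiableAt)
      (fun w => (h3 w).deriv) a.2 b.2
    have ha' : a = (z₀, a.2) := Prod.ext ha rfl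
    have hb' : b = (z₀, b.2) := Prod.ext hb rfl
    rw [ha', hb']
    exact h4
  have hF : ∀ F : OY, F p₁.1 * (v (φ.pull (hL.up f))) p₁ =
      F p₂.1 * (v (φ.pull (hL.up f))) p₂ := by
    intro F
    have h3 := hconst (φ.push (hL.up F • v))
      (φ.push_clLie (mem_clLie_of_complete (complete_up hL hv F))) (φ p₁) (φ p₂) h1 h2
    rw [HolAut.push_apply, HolAut.push_apply] at h3
    exact h3
  have h3 := hF 1
  have h3' : (v (φ.pull (hL.up f))) p₁ = (v (φ.pull (hL.up f))) p₂ := by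
    have h4 : (1 : ℂ) * (v (φ.pull (hL.up f))) p₁ = 1 * (v (φ.pull (hL.up f))) p₂ := h3
    simpa using h4
  obtain ⟨F, hFne⟩ := hsep _ _ hne
  have h4 := hF F
  rw [← h3'] at h4
  have h5 : (F p₁.1 - F p₂.1) * (v (φ.pull (hL.up f))) p₁ = 0 := by
    rw [sub_mul, h4, sub_self]
  exact (mul_eq_zero.mp h5).resolve_left (sub_ne_zero.mpr hFne)

theorem fibre_interior [T2Space Y] (hperf : ∀ z : Y, (𝓝[≠] z).NeBot) (z : Y) :
    interior {q : Y × ℂ | q.1 = z} = ∅ := by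
  rw [Set.eq_empty_iff_forall_notMem]
  intro q hq
  rw [mem_interior_iff_mem_nhds] at hq
  have hqz' : q ∈ {q : Y × ℂ | q.1 = z} := mem_of_mem_nhds hq
  have hqz : q.1 = z := hqz'
  have hc : Continuous (fun y : Y => (y, q.2)) := by fun_prop
  have h1 : {y : Y | (y, q.2) ∈ {q : Y × ℂ | q.1 = z}} ∈ 𝓝 q.1 :=
    hc.continuousAt.preimage_mem_nhds hq
  have h2 : ∀ᶠ y in 𝓝[≠] q.1, y = z := by
    have : ∀ᶠ y in 𝓝 q.1, y = z := h1
    exact this.filter_mono nhdsWithin_le_nhds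
  have := hperf q.1
  obtain ⟨y, hy1, hy2⟩ := (h2.and self_mem_nhdsWithin).exists
  exact hy2 (by rw [hy1, hqz]; rfl)

/-- step 2 -/
theorem vert_all [T2Space Y] (hL : IsLine OY O) {v : Derivation ℂ O O} (hv : IsDw v) (z₀ : Y)
    (hsep : ∀ z z' : Y, z ≠ z' → ∃ f : OY, f z ≠ f z')
    (hperf : ∀ z : Y, (𝓝[≠] z).NeBot) (h2 : IsTwoTransitive O)
    (hfail : ∀ u ∈ clLie O, ∀ f : OY, ∀ c : ℂ, (v (u (hL.up f))) (z₀, c) = 0)
    (ψ : HolAut O) (p : Y × ℂ) (f : OY) : (v (ψ.pull (hL.up f))) p = 0 := by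
  -- choice of `q`
  obtain ⟨q, hq1, hq2⟩ : ∃ q : Y × ℂ, q.1 ≠ p.1 ∧ (ψ q).1 ≠ (ψ p).1 := by
    by_contra hcon
    push Not at hcon
    have hA : IsClosed {q : Y × ℂ | q.1 = p.1} := isClosed_eq continuous_fst continuous_const
    have hB : IsClosed {q : Y × ℂ | (ψ q).1 = (ψ p).1} :=
      isClosed_eq (continuous_fst.comp ψ.toHomeo.continuous) continuous_const
    have hAi : interior {q : Y × ℂ | q.1 = p.1} = ∅ := fibre_interior hperf p.1
    have hBi : interior {q : Y × ℂ | (ψ q).1 = (ψ p).1} = ∅ := by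
      have h3 : {q : Y × ℂ | (ψ q).1 = (ψ p).1} =
          ψ.toHomeo ⁻¹' {q : Y × ℂ | q.1 = (ψ p).1} := rfl
      rw [h3, ← ψ.toHomeo.preimage_interior, fibre_interior hperf, Set.preimage_empty]
    have h3 := interior_union_isClosed_of_interior_empty hA hBi
    have h4 : {q : Y × ℂ | q.1 = p.1} ∪ {q : Y × ℂ | (ψ q).1 = (ψ p).1} = Set.univ := by
      rw [Set.eq_univ_iff_forall]
      intro q
      by_cases hq : q.1 = p.1
      · exact Or.inl hq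
      · exact Or.inr (hcon q hq)
    rw [h4, interior_univ, hAi] at h3
    exact Set.notMem_empty p (h3 ▸ Set.mem_univ p)
  obtain ⟨φ, hφ1, hφ2⟩ := h2 (ψ p) (ψ q) (z₀, 0) (z₀, 1)
    (fun h => hq2 (congrArg Prod.fst h).symm) (fun h => by simpa using congrArg Prod.snd h)
  have hE1 : ∀ g : OY, (v (φ.pull (hL.up g))) (ψ p) = 0 := fun g =>
    vert_of_pair hL hv z₀ hsep hfail φ (ψ p) (ψ q) (by rw [hφ1]) (by rw [hφ2]) hq2.symm g
  have hE3 : ∀ g : OY, (v ((φ.comp ψ).pull (hL.up g))) p = 0 := fun g =>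
    vert_of_pair hL hv z₀ hsep hfail (φ.comp ψ) p q
      (by rw [HolAut.comp_apply, hφ1]) (by rw [HolAut.comp_apply, hφ2]) hq1.symm g
  have hD1 : ∀ g : O, ((φ.push v) g) (z₀, (0 : ℂ)) = (v (φ.pull g)) (ψ p) := by
    intro g; rw [← hφ1, HolAut.push_apply]
  have hD3 : ∀ g : O, (((φ.comp ψ).push v) g) (z₀, (0 : ℂ)) = (v ((φ.comp ψ).pull g)) p := by
    intro g
    have : (z₀, (0 : ℂ)) = (φ.comp ψ) p := by rw [HolAut.comp_apply, hφ1]
    rw [this, HolAut.push_apply]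
  have hV1 := vertical hL hv (φ.push v) (φ.isVF_push hv.vf) (z₀, 0)
    (fun g => by rw [hD1]; exact hE1 g)
  have hV3 := vertical hL hv ((φ.comp ψ).push v) ((φ.comp ψ).isVF_push hv.vf) (z₀, 0)
    (fun g => by rw [hD3]; exact hE3 g)
  -- `a ≠ 0`
  have ha : ((φ.push v) hL.w) (z₀, (0 : ℂ)) ≠ 0 := by
    intro h0
    have h3 := hV1 (φ.symm.pull hL.w)
    rw [h0, zero_mul, hD1, HolAut.pull_pull_symm, dw_w hL hv] at h3
    exact one_ne_zero h3
  -- apply to `F = φ.symm.pull (up f)`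
  have h4 := hV1 (φ.symm.pull (hL.up f))
  rw [hD1, HolAut.pull_pull_symm, dw_up hL hv] at h4
  have h5 : (v (φ.symm.pull (hL.up f))) (z₀, (0 : ℂ)) = 0 := by
    have h6 : (0 : ℂ) = ((φ.push v) hL.w) (z₀, (0 : ℂ)) *
      (v (φ.symm.pull (hL.up f))) (z₀, (0 : ℂ)) := h4
    exact (mul_eq_zero.mp h6.symm).resolve_left ha
  have h6 := hV3 (φ.symm.pull (hL.up f))
  rw [h5, mul_zero, hD3] at h6
  have h7 : (φ.comp ψ).pull (φ.symm.pull (hL.up f)) = ψ.pull (hL.up f) := by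
    apply Subtype.ext
    funext x
    show (hL.up f) (φ.symm (φ (ψ x))) = (hL.up f) (ψ x)
    rw [HolAut.symm_apply_self]
  rwa [h7] at h6

theorem nondeg_of_twoTransitive [T2Space Y] (hL : IsLine OY O) {v : Derivation ℂ O O}
    (hv : IsDw v) (hsep : ∀ z z' : Y, z ≠ z' → ∃ f : OY, f z ≠ f z')
    (hperf : ∀ z : Y, (𝓝[≠] z).NeBot) (h2 : IsTwoTransitive O) : Nondeg hL v := by
  intro z₀
  by_contra hcon
  push Not at hcon
  obtain ⟨z₁, hz₁⟩ : ∃ z₁ : Y, z₁ ≠ z₀ := by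
    have := hperf z₀
    obtain ⟨z₁, hz₁⟩ := (self_mem_nhdsWithin : {z₀}ᶜ ∈ 𝓝[≠] z₀) |> Filter.nonempty_of_mem
    exact ⟨z₁, hz₁⟩
  obtain ⟨ψ, h3, h4⟩ := h2 (z₀, 0) (z₀, 1) (z₀, 0) (z₁, 0)
    (fun h => by simpa using congrArg Prod.snd h) (fun h => hz₁ (congrArg Prod.fst h).symm)
  obtain ⟨f, hf⟩ := hsep _ _ hz₁
  have h5 : ∀ w, HasDerivAt (fun w => (ψ.pull (hL.up f)) (z₀, w)) 0 w := by
    intro w
    have h := hv.hasDerivAt (ψ.pull (hL.up f)) z₀ w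
    rwa [vert_all hL hv z₀ hsep hperf h2 hcon ψ (z₀, w) f] at h
  have h6 := is_const_of_deriv_eq_zero (fun w => (h5 w).differentiableAt)
    (fun w => (h5 w).deriv) 1 0
  have h7 : (hL.up f) (ψ (z₀, 1)) = (hL.up f) (ψ (z₀, 0)) := h6
  rw [h3, h4] at h7
  exact hf h7

end Pool.Agent.MP_fe3720
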