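import Pool.Agent.Work.MP_fe3720_an.MultB
import Pool.Agent.Work.MP_fe3720_an.TwoT
import Pool.Agent.Work.MP_fe3720_an.RRT
import Pool.Agent.Work.MP_fe3720_an.LineHol
import Pool.Agent.Work.MP_fe3720_an.ChartHol
import Pool.Agent.Work.MP_fe3720_an.SpanT
import Pool.Agent.Work.MP_fe3720_an.Fin

/-! # Assembly -/

namespace Pool.Agent.MP_fe3720

open Topology

/-- general form on a product `Y × ℂ` -/
theorem density_of_twoTransitive {Y : Type} [TopologicalSpace Y] [T2Space Y]
    [SecondCountableTopology Y] {OY : Subalgebra ℂ (Y → ℂ)} {O : Subalgebra ℂ (Y × ℂ → ℂ)}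
    (hL : IsLine OY O) {m : ℕ} (hch : HasCharts m O) (hIY : IdealsDense OY)
    (hI : IdealsDense O) (hsep : ∀ z z' : Y, z ≠ z' → ∃ f : OY, f z ≠ f z')
    (hperf : ∀ z : Y, (𝓝[≠] z).NeBot) (h2 : IsTwoTransitive O) : DensityProperty O := by
  obtain ⟨v, hv⟩ := exists_dw hL
  have hN := nondeg_of_twoTransitive hL hv hsep hperf h2
  refine density_of_span hL.top hch hI (Set.range fun φ : HolAut O => φ.push v) ?_ ?_ ?_
  · rintro _ ⟨φ, rfl⟩
    exact φ.isVF_push hv.vf
  · rintro _ ⟨φ, rfl⟩ F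
    have h := φ.push_clLie (all_coefs hL hv hIY hN (φ.pull F))
    rw [HolAut.push_smul] at h
    have h3 : φ.symm.pull (φ.pull F) = F := by
      ext x
      exact congrArg F.1 (φ.apply_symm x)
    rwa [h3] at h
  · intro x
    obtain ⟨φ, f, hf⟩ := span_of_twoTransitive hL hv hch h2 x
    exact ⟨fun i => (φ i).push v, f, fun i => ⟨φ i, rfl⟩, hf⟩

theorem main {N d : ℕ} (hd : 1 ≤ d) (Z : Set (Fin N → ℂ)) (hZ : IsSteinSubmanifold N d Z) :
    (IsRR (holLine Z) → DensityProperty (holLine Z)) ∧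
      (IsTwoTransitive (holLine Z) → DensityProperty (holLine Z)) := by
  have hL := isLine_hol hZ
  have key : IsTwoTransitive (holLine Z) → DensityProperty (holLine Z) :=
    density_of_twoTransitive hL (hasCharts_holLine hZ) (idealsDense_hol hZ)
      (idealsDense_holLine hZ) separates_hol (perfect_of_charts hd (hasCharts_hol hZ))
  exact ⟨fun h => key (twoTransitive_of_RR hL h), key⟩

end Pool.Agent.MP_fe3720
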