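import Pool.Agent.Work.MP_fe3720_an.Alg
import Pool.Agent.Work.MP_fe3720_an.Cl
import Pool.Agent.Work.MP_fe3720_an.Push
import Pool.Agent.Work.MP_fe3720_an.LineA
import Pool.Agent.Work.MP_fe3720_an.LineB
import Pool.Agent.Work.MP_fe3720_an.LineC

/-! # Module MultA: the multipliers of the coefficients of `∂/∂w`

Let `V = {c ∈ O | c • v ∈ clLie O}`; `mults v = {m | m V ⊆ V}` (Base). Let `s = hL.w`.

* `mults_*` (algebra): immediate from the definition, `clLie_add`, `clLie_csmul`, associativity.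
* `mults_closed`: if `m` is approximated by `m' ∈ mults v` on every compact set, then for `c ∈ V`,
  `m c` is approximated by `m' c` (`c` is bounded on compact sets), with `(m' c) • v ∈ clLie`;
  use `clLie_closed hL.top.cont hv.vf`.
* `coef_up`: by `alg_Q v u s (up f) (up g)` of module Alg (`v s = 1` by `dw_w`, `v (up f) = 0` by `dw_up`):
  `-((up g * u (up f)) • v) = ⁅(up f * s) • v, ⁅up g • v, u⁆⁆ - ⁅s • v, ⁅(up f * up g) • v, u⁆⁆`;
  the fields `up g • v`, `(up g * s) • v` are complete (`complete_up`, `complete_up_w`; for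
  `s • v` take `g = 1`, and `up f * up g = up (f * g)`), so in `clLie`; use `clLie_lie`, `clLie_sub`,
  `clLie_neg`.
* `mult_up`: let `c ∈ V`. `u' = ⁅c • v, u⁆ ∈ clLie` and `u' (up f) = c * v (u (up f))` (`alg_c`), so by
  `coef_up` for `u'`: `(up g * (c * v (u (up f)))) • v ∈ clLie`.
* `mults_aff`: let `φ` be the automorphism `φ(z,w) = (z, a w + c)` (`exists_aff`), so `m' = φ.pull m`.
  For `b ∈ V`: `b • v ∈ clLie`, push it by `φ`: `φ.push (b • v) = (φ.symm.pull b) • φ.push v =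
  (φ.symm.pull b) • a • v` (`push_smul`, `push_aff`), so (multiplying by `a⁻¹`)
  `φ.symm.pull b ∈ V`; hence `m * φ.symm.pull b ∈ V`; push by `φ.symm`:
  `φ.symm.push v = a⁻¹ • v` (from `push_symm_push`), `(φ.pull (m * φ.symm.pull b)) = m' * b ∈ V`.
* `mults_slice`: first replace `m` by `m₁(z,w) = m(z, w + c) ∈ mults` (`mults_aff` with `a = 1`; the
  function is in `O` by `aff_mem`), then `m' (z,w) = m₁(z,0)` is the limit of
  `m₁(z, a w)` (`limit0`), which are in `mults` by `mults_aff`; use `mults_closed`.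
* `mults_w_slice`: `m'(z,w) = w (v m)(z,c) = w (v m₁)(z,0)` is the limit (`limit1`) of
  `a⁻¹ (m₁(z, a w) - m₁(z,0))`, which are in `mults` by `mults_aff`, `mults_slice`. -/

namespace Pool.Agent.MP_fe3720

open Topology

variable {Y : Type} [TopologicalSpace Y] {OY : Subalgebra ℂ (Y → ℂ)}
  {O : Subalgebra ℂ (Y × ℂ → ℂ)}

theorem mults_one (v : Derivation ℂ O O) : (1 : O) ∈ mults v := by
  intro c hc
  rwa [one_mul]

theorem mults_add {v : Derivation ℂ O O} {a b : O} (ha : a ∈ mults v) (hb : b ∈ mults v) :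
    a + b ∈ mults v := by
  intro c hc
  rw [add_mul, add_smul]
  exact clLie_add (ha c hc) (hb c hc)

theorem mults_mul {v : Derivation ℂ O O} {a b : O} (ha : a ∈ mults v) (hb : b ∈ mults v) :
    a * b ∈ mults v := by
  intro c hc
  rw [mul_assoc]
  exact ha _ (hb c hc)

omit [TopologicalSpace Y] in
theorem csmul_smul (v : Derivation ℂ O O) (c : ℂ) (a : O) : (c • a) • v = c • (a • v) := by
  apply Derivation.ext
  intro f
  apply Subtype.ext
  funext x
  show (c * a x) * (v f) x = c * (a x * (v f) x)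
  ring

theorem mults_csmul {v : Derivation ℂ O O} {a : O} (ha : a ∈ mults v) (c : ℂ) :
    c • a ∈ mults v := by
  intro b hb
  have h := clLie_csmul (ha b hb) c
  rw [← csmul_smul] at h
  convert h using 2
  exact smul_mul_assoc c a b

theorem mults_neg {v : Derivation ℂ O O} {a : O} (ha : a ∈ mults v) : -a ∈ mults v := by
  have h := mults_csmul ha (-1)
  convert h using 1
  apply Subtype.ext
  funext x
  show -(a x) = (-1 : ℂ) * a x
  ring

theorem mults_sub {v : Derivation ℂ O O} {a b : O} (ha : a ∈ mults v) (hb : b ∈ mults v) :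
    a - b ∈ mults v := by
  rw [sub_eq_add_neg]
  exact mults_add ha (mults_neg hb)

theorem mults_closed (hL : IsLine OY O) {v : Derivation ℂ O O} (hv : IsDw v) (m : O)
    (h : ∀ K : Set (Y × ℂ), IsCompact K → ∀ ε > 0, ∃ m' ∈ mults v, ∀ x ∈ K, ‖m x - m' x‖ < ε) :
    m ∈ mults v := by
  intro c hc
  refine clLie_closed hL.top.cont hv.vf (m * c) fun K hK ε hε => ?_
  obtain ⟨C, hC⟩ := hK.exists_bound_of_continuousOn (hL.top.cont c c.2).continuousOn
  obtain ⟨m', hm', h1⟩ := h K hK (ε / (|C| + 1)) (by positivity)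
  refine ⟨m' * c, hm' c hc, fun x hx => ?_⟩
  have a1 := h1 x hx
  have a2 : ‖c x‖ ≤ |C| := (hC x hx).trans (le_abs_self C)
  show ‖m x * c x - m' x * c x‖ < ε
  rw [← sub_mul, norm_mul]
  rw [lt_div_iff₀ (by positivity)] at a1
  nlinarith [norm_nonneg (m x - m' x), norm_nonneg (c x)]

theorem up_one (hL : IsLine OY O) : hL.up 1 = 1 := rfl

theorem up_mul (hL : IsLine OY O) (f g : OY) : hL.up (f * g) = hL.up f * hL.up g := rfl

theorem coef_up (hL : IsLine OY O) {v : Derivation ℂ O O} (hv : IsDw v)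
    {u : Derivation ℂ O O} (hu : u ∈ clLie O) (f g : OY) :
    (hL.up g * u (hL.up f)) • v ∈ clLie O := by
  have h := alg_Q v u hL.w (hL.up f) (hL.up g) (dw_w hL hv) (dw_up hL hv f) (dw_up hL hv g)
  have h1 := mem_clLie_of_complete (complete_up_w hL hv f)
  have h2 := mem_clLie_of_complete (complete_up hL hv g)
  have h3 : hL.w • v ∈ clLie O := by
    have := mem_clLie_of_complete (complete_up_w hL hv 1)
    rwa [up_one, one_mul] at this
  have h4 := mem_clLie_of_complete (complete_up hL hv (f * g))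
  rw [up_mul] at h4
  have h5 := clLie_sub (clLie_lie h1 (clLie_lie h2 hu)) (clLie_lie h3 (clLie_lie h4 hu))
  rw [h] at h5
  have h6 := clLie_neg h5
  convert h6 using 1
  apply Derivation.ext
  intro f'
  apply Subtype.ext
  funext x
  show ((hL.up g * u (hL.up f)) • v) f' x = -(-(((hL.up g * u (hL.up f)) • v) f' x))
  ring

theorem mult_up (hL : IsLine OY O) {v : Derivation ℂ O O} (hv : IsDw v)
    {u : Derivation ℂ O O} (hu : u ∈ clLie O) (f g : OY) :
    hL.up g * v (u (hL.up f)) ∈ mults v := by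
  intro c hc
  have h1 := coef_up hL hv (clLie_lie hc hu) f g
  rw [alg_c v u c (hL.up f) (dw_up hL hv f)] at h1
  convert h1 using 2
  ring

theorem mults_aff (hL : IsLine OY O) {v : Derivation ℂ O O} (hv : IsDw v) {m : O}
    (hm : m ∈ mults v) (a : ℂ) (ha : a ≠ 0) (c : ℂ) (m' : O)
    (h : ∀ p : Y × ℂ, m' p = m (p.1, a * p.2 + c)) : m' ∈ mults v := by
  obtain ⟨φ, hφ⟩ := exists_aff hL a ha c
  have hpush := push_aff hv a c φ hφ
  have hm' : m' = φ.pull m := by
    apply Subtype.ext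
    funext p
    show m' p = m (φ p)
    rw [h, hφ]
  have hpush' : φ.symm.push v = a⁻¹ • v := by
    have h1 := φ.push_symm_push v
    rw [hpush, HolAut.push_csmul] at h1
    conv_rhs => rw [← h1]
    rw [smul_smul, inv_mul_cancel₀ ha, one_smul]
  intro b hb
  -- `φ.symm.pull b ∈ V`
  have h1 : (φ.symm.pull b) • v ∈ clLie O := by
    have h2 := φ.push_clLie hb
    rw [HolAut.push_smul, hpush] at h2
    have h3 := clLie_csmul h2 a⁻¹
    convert h3 using 1
    rw [smul_comm (φ.symm.pull b) a v, smul_smul, inv_mul_cancel₀ ha, one_smul]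
  have h4 := hm _ h1
  have h5 := φ.symm.push_clLie h4
  rw [HolAut.push_smul, hpush'] at h5
  have h6 := clLie_csmul h5 a
  have h7 : φ.symm.symm.pull (m * φ.symm.pull b) = m' * b := by
    rw [hm', map_mul]
    have h8 : φ.symm.symm = φ := rfl
    rw [h8, HolAut.pull_pull_symm]
  rw [h7, smul_comm (m' * b) a⁻¹ v, smul_smul, mul_inv_cancel₀ ha, one_smul] at h6
  exact h6

theorem mults_slice (hL : IsLine OY O) {v : Derivation ℂ O O} (hv : IsDw v) {m : O}
    (hm : m ∈ mults v) (c : ℂ) (m' : O) (h : ∀ p : Y × ℂ, m' p = m (p.1, c)) :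
    m' ∈ mults v := by
  let m₁ : O := ⟨_, aff_mem hL 1 c m m.2⟩
  have hm₁ : m₁ ∈ mults v := mults_aff hL hv hm 1 one_ne_zero c m₁ fun p => rfl
  refine mults_closed hL hv m' fun K hK ε hε => ?_
  obtain ⟨a, ha, h1⟩ := limit0 hL m₁ K hK ε hε
  refine ⟨⟨_, aff_mem hL a 0 m₁ m₁.2⟩, mults_aff hL hv hm₁ a ha 0 _ fun p => rfl,
    fun x hx => ?_⟩
  have h2 := h1 x hx
  have h3 : m₁ (x.1, (0 : ℂ)) = m' x := by
    show m (x.1, 1 * 0 + c) = m' x
    rw [h]; simp
  rw [h3] at h2
  have h4 : m₁ (x.1, a * x.2) = m₁ (x.1, a * x.2 + 0) := by rw [add_zero]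
  rw [h4] at h2
  exact h2

theorem mults_w_slice (hL : IsLine OY O) {v : Derivation ℂ O O} (hv : IsDw v) {m : O}
    (hm : m ∈ mults v) (c : ℂ) (m' : O) (h : ∀ p : Y × ℂ, m' p = p.2 * (v m) (p.1, c)) :
    m' ∈ mults v := by
  let m₁ : O := ⟨_, aff_mem hL 1 c m m.2⟩
  have hm₁ : m₁ ∈ mults v := mults_aff hL hv hm 1 one_ne_zero c m₁ fun p => rfl
  let m₀ : O := hL.up ⟨_, slice_mem hL m₁ 0⟩
  have hm₀ : m₀ ∈ mults v := mults_slice hL hv hm₁ 0 m₀ fun p => rfl
  have hvm : ∀ p : Y × ℂ, (v m₁) (p.1, (0 : ℂ)) = (v m) (p.1, c) := by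
    intro p
    have h1 := hv.hasDerivAt m₁ p.1 0
    have h2 := hv.hasDerivAt m p.1 c
    have h3 : HasDerivAt (fun w : ℂ => 1 * w + c) 1 0 := by
      have := ((hasDerivAt_id (0 : ℂ)).const_mul 1).add_const c
      simpa using this
    have h4 : HasDerivAt (fun w => m (p.1, w)) ((v m) (p.1, c)) (1 * 0 + c) := by
      simpa using h2
    have h5 := HasDerivAt.comp (0 : ℂ) h4 h3
    rw [mul_one] at h5
    exact h1.unique h5
  refine mults_closed hL hv m' fun K hK ε hε => ?_
  obtain ⟨a, ha, h1⟩ := limit1 hL hv m₁ K hK ε hε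
  refine ⟨a⁻¹ • ((⟨_, aff_mem hL a 0 m₁ m₁.2⟩ : O) - m₀),
    mults_csmul (mults_sub (mults_aff hL hv hm₁ a ha 0 _ fun p => rfl) hm₀) _,
    fun x hx => ?_⟩
  have h2 := h1 x hx
  rw [hvm, ← h] at h2
  have h4 : m₁ (x.1, a * x.2) = m₁ (x.1, a * x.2 + 0) := by rw [add_zero]
  rw [h4] at h2
  exact h2

end Pool.Agent.MP_fe3720
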