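import Pool.Agent.Work.MP_fe3720_an.MultA
import Pool.Agent.Work.MP_fe3720_an.EntireLem

/-! # Module MultB: all the fields `F ∂/∂w` are in the closed Lie algebra

Assume `Nondeg hL v`: for every `z₀` there are `u ∈ clLie O`, `f ∈ OY`, `c ∈ ℂ` with
`(v (u (up f))) (z₀, c) ≠ 0`, and `IdealsDense OY`.

Step 1: `up g ∈ mults v` for every `g ∈ OY`. Let `J = {j ∈ OY | ∀ g ∈ OY, up (j g) ∈ mults v}`, an ideal of
`OY`. For `u ∈ clLie`, `f ∈ OY`, `c ∈ ℂ` the slice `j(z) = (v (u (up f))) (z, c)` (in `OY` by `slice_mem`) is in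
`J`: `m = up g * v (u (up f)) ∈ mults v` (`mult_up`), and `(up (j g))(z,w) = m (z, c)`; use `mults_slice`. By
`Nondeg`, `J` has no common zeros, so (`IdealsDense`) on every compact set of `Y` there is `j ∈ J` close
to `1`; then `up (j g)` is close to `up g` (`g` is bounded on the projection of the compact set to `Y`);
by `mults_closed` `up g ∈ mults v`.

Step 2: for every `z₀` there are `u₂ ∈ clLie`, `f ∈ OY`, `c` with `(v (v (u₂ (up f)))) (z₀, c) ≠ 0`. Take `u, f, c`
from `Nondeg` and `u₂ = ⁅⁅s • v, u⁆, ⁅(up f * s) • v, u⁆⁆`, `s = hL.w` (in `clLie` because `s • v`, `(up f * s) • v`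
are complete). By `alg_W v u s (up f) (up f)`: `u₂ (up f) = s * v (s * u (up f) * v (u (up f)))`. Put
`h(w) = (u (up f)) (z₀, w)`, `h₁(w) = (v (u (up f)))(z₀,w)`, `k(w) = (v (s * u (up f) * v (u (up f))))(z₀,w)`,
`e(w) = (v (u₂ (up f)))(z₀, w)`; by `hv.hasDerivAt` the hypotheses of `entire_sq` hold, with
`e' = v (v (u₂ (up f)))`. If the latter were `0` for all `w` then `h₁ = 0`, contradiction to the
choice of `u, f, c`.

Step 3: `hL.w ∈ mults v`. Let `J' = {j ∈ OY | ∀ g ∈ OY, hL.w * up (j g) ∈ mults v}`, an ideal. For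
`u₂, f, c` as in step 2, `j(z) = (v (v (u₂ (up f)))) (z, c) ∈ J'`: `m = up g * v (u₂ (up f)) ∈ mults v`, and
`v m = up g * v (v (u₂ (up f)))` as `v (up g) = 0`; use `mults_w_slice` with this `m`. No common zeros, so
dense; as in step 1 (`‖w‖` is bounded on compact sets) `hL.w ∈ mults v`.

Step 4: every approximant `∑ a_k w^k` is in `mults v` (algebra), so by `hL.approx` and `mults_closed`
`F ∈ mults v`; apply the definition of `mults` to `c = 1`: `1 • v = v` is complete
(`complete_up` with `g = 1`), so `(F * 1) • v ∈ clLie`. -/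

namespace Pool.Agent.MP_fe3720

open Topology

variable {Y : Type} [TopologicalSpace Y] {OY : Subalgebra ℂ (Y → ℂ)}
  {O : Subalgebra ℂ (Y × ℂ → ℂ)}

/-- if the ideal of the `j` with `b * up (j g) ∈ mults v` for all `g` has no common zero, then
`b * up g ∈ mults v` for all `g` -/
theorem mults_of_ideal (hL : IsLine OY O) {v : Derivation ℂ O O} (hv : IsDw v)
    (hI : IdealsDense OY) (b : O)
    (hz : ∀ z₀ : Y, ∃ j : OY, j z₀ ≠ 0 ∧ ∀ g : OY, b * hL.up (j * g) ∈ mults v) (g : OY) :
    b * hL.up g ∈ mults v := by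
  let J : Ideal OY :=
    { carrier := {j | ∀ g : OY, b * hL.up (j * g) ∈ mults v}
      add_mem' := by
        intro j j' hj hj' g
        have h := mults_add (hj g) (hj' g)
        have e : b * hL.up (j * g) + b * hL.up (j' * g) = b * hL.up ((j + j') * g) := by
          apply Subtype.ext
          funext x
          show b x * (j x.1 * g x.1) + b x * (j' x.1 * g x.1) = b x * ((j x.1 + j' x.1) * g x.1)
          ring
        rwa [e] at h
      zero_mem' := by
        intro g
        have h := mults_csmul (mults_one v) 0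
        have e : (0 : ℂ) • (1 : O) = b * hL.up (0 * g) := by
          apply Subtype.ext
          funext x
          show (0 : ℂ) * 1 = b x * (0 * g x.1)
          ring
        rwa [e] at h
      smul_mem' := by
        intro c j hj g
        have h := hj (c * g)
        have e : j * (c * g) = (c • j) * g := by
          rw [smul_eq_mul]; ring
        rwa [e] at h }
  refine mults_closed hL hv _ fun K hK ε hε => ?_
  obtain ⟨C, hC⟩ := hK.exists_bound_of_continuousOn
    (hL.top.cont _ (b * hL.up g).2).continuousOn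
  obtain ⟨j, hj, h1⟩ := hI J (fun z => by
    obtain ⟨j, hj0, hj⟩ := hz z
    exact ⟨j, hj, hj0⟩) (Prod.fst '' K) (hK.image continuous_fst) (ε / (|C| + 1))
    (by positivity)
  refine ⟨b * hL.up (j * g), hj g, fun x hx => ?_⟩
  have a1 := h1 x.1 ⟨x, hx, rfl⟩
  have a2 : ‖(b * hL.up g) x‖ ≤ |C| := (hC x hx).trans (le_abs_self C)
  have a3 : (b * hL.up g) x - (b * hL.up (j * g)) x = (1 - j x.1) * (b * hL.up g) x := by
    show b x * g x.1 - b x * (j x.1 * g x.1) = (1 - j x.1) * (b x * g x.1)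
    ring
  rw [a3, norm_mul]
  rw [lt_div_iff₀ (by positivity)] at a1
  nlinarith [norm_nonneg (1 - j x.1), norm_nonneg ((b * hL.up g) x)]

theorem up_mem_mults (hL : IsLine OY O) {v : Derivation ℂ O O} (hv : IsDw v)
    (hI : IdealsDense OY) (hN : Nondeg hL v) (g : OY) : hL.up g ∈ mults v := by
  have h := mults_of_ideal hL hv hI 1 (fun z₀ => ?_) g
  · rwa [one_mul] at h
  · obtain ⟨u, hu, f, c, hne⟩ := hN z₀
    refine ⟨⟨_, slice_mem hL (v (u (hL.up f))) c⟩, hne, fun g => ?_⟩
    refine mults_slice hL hv (mult_up hL hv hu f g) c _ fun p => ?_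
    show 1 * ((v (u (hL.up f))) (p.1, c) * g p.1) = g p.1 * (v (u (hL.up f))) (p.1, c)
    ring

theorem nondeg_two (hL : IsLine OY O) {v : Derivation ℂ O O} (hv : IsDw v)
    (hN : Nondeg hL v) (z₀ : Y) :
    ∃ u ∈ clLie O, ∃ f : OY, ∃ c : ℂ, (v (v (u (hL.up f)))) (z₀, c) ≠ 0 := by
  obtain ⟨u, hu, f, c, hne⟩ := hN z₀
  have h3 : hL.w • v ∈ clLie O := by
    have := mem_clLie_of_complete (complete_up_w hL hv 1)
    rwa [up_one, one_mul] at this
  have h4 := mem_clLie_of_complete (complete_up_w hL hv f)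
  refine ⟨⁅⁅hL.w • v, u⁆, ⁅(hL.up f * hL.w) • v, u⁆⁆,
    clLie_lie (clLie_lie h3 hu) (clLie_lie h4 hu), f, ?_⟩
  rw [alg_W v u hL.w (hL.up f) (hL.up f) (dw_up hL hv f) (dw_up hL hv f)]
  by_contra hcon
  push Not at hcon
  refine hne ?_
  have key := entire_sq (fun w => (u (hL.up f)) (z₀, w)) (fun w => (v (u (hL.up f))) (z₀, w))
    (fun w => (v (hL.w * u (hL.up f) * v (u (hL.up f)))) (z₀, w))
    (fun w => (v (hL.w * v (hL.w * u (hL.up f) * v (u (hL.up f))))) (z₀, w))
    (fun w => hv.hasDerivAt _ z₀ w)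
    (fun w => hv.hasDerivAt (hL.w * u (hL.up f) * v (u (hL.up f))) z₀ w)
    (fun w => hv.hasDerivAt (hL.w * v (hL.w * u (hL.up f) * v (u (hL.up f)))) z₀ w)
    (fun w => by
      have h := hv.hasDerivAt
        (v (hL.w * v (hL.w * u (hL.up f) * v (u (hL.up f))))) z₀ w
      rwa [hcon w] at h)
  exact key c

theorem w_mem_mults (hL : IsLine OY O) {v : Derivation ℂ O O} (hv : IsDw v)
    (hI : IdealsDense OY) (hN : Nondeg hL v) : hL.w ∈ mults v := by
  have h := mults_of_ideal hL hv hI hL.w (fun z₀ => ?_) 1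
  · rwa [up_one, mul_one] at h
  · obtain ⟨u, hu, f, c, hne⟩ := nondeg_two hL hv hN z₀
    refine ⟨⟨_, slice_mem hL (v (v (u (hL.up f)))) c⟩, hne, fun g => ?_⟩
    refine mults_w_slice hL hv (mult_up hL hv hu f g) c _ fun p => ?_
    rw [Derivation.leibniz, dw_up hL hv g]
    show p.2 * ((v (v (u (hL.up f)))) (p.1, c) * g p.1) =
      p.2 * (g p.1 * (v (v (u (hL.up f)))) (p.1, c) + (v (u (hL.up f))) (p.1, c) * 0)
    ring

theorem all_coefs (hL : IsLine OY O) {v : Derivation ℂ O O} (hv : IsDw v)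
    (hI : IdealsDense OY) (hN : Nondeg hL v) (F : O) : F • v ∈ clLie O := by
  have hw := w_mem_mults hL hv hI hN
  have hpow : ∀ k : ℕ, hL.w ^ k ∈ mults v := by
    intro k
    induction k with
    | zero => rw [pow_zero]; exact mults_one v
    | succ k ih => rw [pow_succ]; exact mults_mul ih hw
  have hpoly : ∀ (n : ℕ) (a : ℕ → OY),
      (∑ k ∈ Finset.range n, hL.up (a k) * hL.w ^ k) ∈ mults v := by
    intro n a
    induction n with
    | zero =>
      rw [Finset.range_zero, Finset.sum_empty]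
      have h := mults_csmul (mults_one v) 0
      rwa [zero_smul] at h
    | succ n ih =>
      rw [Finset.sum_range_succ]
      exact mults_add ih (mults_mul (up_mem_mults hL hv hI hN _) (hpow n))
  have hF : F ∈ mults v := by
    refine mults_closed hL hv F fun K hK ε hε => ?_
    obtain ⟨n, a, ha, h⟩ := hL.approx F F.2 K hK ε hε
    refine ⟨_, hpoly n fun k => ⟨a k, ha k⟩, fun x hx => ?_⟩
    have h1 := h x hx
    have h2 : (∑ k ∈ Finset.range n, hL.up ⟨a k, ha k⟩ * hL.w ^ k : O) x =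
        ∑ k ∈ Finset.range n, a k x.1 * x.2 ^ k := by
      have h4 : ((∑ k ∈ Finset.range n, hL.up ⟨a k, ha k⟩ * hL.w ^ k : O) : Y × ℂ → ℂ) =
          ∑ k ∈ Finset.range n, ((hL.up ⟨a k, ha k⟩ * hL.w ^ k : O) : Y × ℂ → ℂ) :=
        map_sum O.val _ _
      show ((∑ k ∈ Finset.range n, hL.up ⟨a k, ha k⟩ * hL.w ^ k : O) : Y × ℂ → ℂ) x = _
      rw [h4, Finset.sum_apply]
      rfl
    rw [h2]
    exact h1
  have h1 : (1 : O) • v ∈ clLie O := by
    have := mem_clLie_of_complete (complete_up hL hv 1)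
    rwa [up_one] at this
  have h2 := hF 1 h1
  rwa [mul_one] at h2

end Pool.Agent.MP_fe3720
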