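import Mathlib

/-! # Rado's theorem

A continuous function which is holomorphic off its zero set is holomorphic. -/

namespace Pool.Agent.Work.MP_fe3720_an

open Complex Metric Set Filter Topology

/-- Every continuous function on a circle has real part uniformly close to the real part of a
polynomial. -/
theorem exists_poly_re_approx {R : ℝ} (hR : 0 < R) {g : ℂ → ℂ}
    (hg : ContinuousOn g (sphere (0 : ℂ) R)) {ε : ℝ} (hε : 0 < ε) :
    ∃ p : Polynomial ℂ, ∀ ζ ∈ sphere (0 : ℂ) R, |(g ζ).re - (p.eval ζ).re| ≤ ε := by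
  have : Fact ((0 : ℝ) < 1) := ⟨one_pos⟩
  have hmem : ∀ θ : AddCircle (1 : ℝ), (R : ℂ) * (AddCircle.toCircle θ : ℂ) ∈ sphere (0 : ℂ) R := by
    intro θ
    simp [abs_of_pos hR]
  let F : C(AddCircle (1 : ℝ), ℂ) := ⟨fun θ => g ((R : ℂ) * (AddCircle.toCircle θ : ℂ)), by
    refine hg.comp_continuous ?_ hmem
    exact continuous_const.mul (continuous_subtype_val.comp AddCircle.continuous_toCircle)⟩
  have hF : F ∈ (Submodule.span ℂ (Set.range (@fourier (1 : ℝ)))).topologicalClosure := by
    rw [span_fourier_closure_eq_top]; trivial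
  rw [← SetLike.mem_coe, Submodule.topologicalClosure_coe, Metric.mem_closure_iff] at hF
  obtain ⟨G, hG, hGF⟩ := hF ε hε
  have key : ∀ G ∈ Submodule.span ℂ (Set.range (@fourier (1 : ℝ))), ∀ c : ℂ,
      ∃ p : Polynomial ℂ, ∀ θ : AddCircle (1 : ℝ),
        (c * G θ).re = (p.eval ((R : ℂ) * (AddCircle.toCircle θ : ℂ))).re := by
    intro G hG
    induction hG using Submodule.span_induction with
    | mem x hx =>
      obtain ⟨n, rfl⟩ := hx
      intro c
      have hR' : (R : ℂ) ≠ 0 := by exact_mod_cast hR.ne'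
      rcases Int.le_total 0 n with hn | hn
      · obtain ⟨m, rfl⟩ := Int.eq_ofNat_of_zero_le hn
        refine ⟨Polynomial.C (c / (R : ℂ) ^ m) * Polynomial.X ^ m, fun θ => ?_⟩
        have h1 : (fourier (m : ℤ) θ : ℂ) = (AddCircle.toCircle θ : ℂ) ^ m := by
          rw [fourier_apply, natCast_zsmul, AddCircle.toCircle_nsmul, Circle.coe_pow]
        rw [h1]
        simp only [Polynomial.eval_mul, Polynomial.eval_C, Polynomial.eval_pow, Polynomial.eval_X,
          mul_pow]
        congr 1
        field_simp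
      · obtain ⟨m, hm⟩ := Int.eq_ofNat_of_zero_le (neg_nonneg.mpr hn)
        have hnm : n = -(m : ℤ) := by rw [← hm, neg_neg]
        subst hnm
        refine ⟨Polynomial.C ((starRingEnd ℂ c) / (R : ℂ) ^ m) * Polynomial.X ^ m, fun θ => ?_⟩
        have h1 : (fourier (-(m : ℤ)) θ : ℂ) = starRingEnd ℂ ((AddCircle.toCircle θ : ℂ) ^ m) := by
          rw [fourier_neg, fourier_apply, natCast_zsmul, AddCircle.toCircle_nsmul, Circle.coe_pow]
        rw [h1]
        have h2 : c * (starRingEnd ℂ) ((AddCircle.toCircle θ : ℂ) ^ m)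
            = starRingEnd ℂ ((starRingEnd ℂ c) * (AddCircle.toCircle θ : ℂ) ^ m) := by
          rw [map_mul, Complex.conj_conj]
        rw [h2, Complex.conj_re]
        simp only [Polynomial.eval_mul, Polynomial.eval_C, Polynomial.eval_pow, Polynomial.eval_X,
          mul_pow]
        congr 1
        field_simp
    | zero => exact fun c => ⟨0, fun θ => by simp⟩
    | add x y _ _ hx hy =>
      intro c
      obtain ⟨p, hp⟩ := hx c
      obtain ⟨q, hq⟩ := hy c
      refine ⟨p + q, fun θ => ?_⟩
      rw [ContinuousMap.add_apply, mul_add, Complex.add_re, hp, hq, Polynomial.eval_add,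
        Complex.add_re]
    | smul a x _ hx =>
      intro c
      obtain ⟨p, hp⟩ := hx (c * a)
      refine ⟨p, fun θ => ?_⟩
      rw [ContinuousMap.smul_apply, smul_eq_mul, ← mul_assoc, hp]
  obtain ⟨p, hp⟩ := key G hG 1
  refine ⟨p, fun ζ hζ => ?_⟩
  obtain ⟨θ, hθ⟩ : ∃ θ : AddCircle (1 : ℝ), (R : ℂ) * (AddCircle.toCircle θ : ℂ) = ζ := by
    have hn : ‖ζ / (R : ℂ)‖ = 1 := by
      rw [mem_sphere_zero_iff_norm] at hζ
      rw [norm_div, hζ, Complex.norm_real, Real.norm_eq_abs, abs_of_pos hR, div_self hR.ne']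
    let u : Circle := ⟨ζ / (R : ℂ), by simpa [Submonoid.unitSphere] using hn⟩
    obtain ⟨θ, hθ⟩ := (AddCircle.homeomorphCircle (one_ne_zero : (1 : ℝ) ≠ 0)).surjective u
    refine ⟨θ, ?_⟩
    rw [AddCircle.homeomorphCircle_apply] at hθ
    rw [hθ]
    have hR' : (R : ℂ) ≠ 0 := by exact_mod_cast hR.ne'
    show (R : ℂ) * (ζ / (R : ℂ)) = ζ
    field_simp
  have h1 : ‖F θ - G θ‖ < ε := by
    have := ContinuousMap.dist_apply_le_dist (f := F) (g := G) θ
    rw [dist_eq_norm] at this
    exact lt_of_le_of_lt this hGF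
  have h2 : (g ζ).re - (p.eval ζ).re = (F θ - G θ).re := by
    have h3 := hp θ
    rw [one_mul, hθ] at h3
    rw [Complex.sub_re, h3]
    congr 2
    show g ζ = g ((R : ℂ) * (AddCircle.toCircle θ : ℂ))
    rw [hθ]
  rw [h2]
  exact (Complex.abs_re_le_norm _).trans h1.le

/-- The maximum principle behind Rado's theorem. -/
theorem re_sub_le {R : ℝ} {h p : ℂ → ℂ} (hc : ContinuousOn h (closedBall (0 : ℂ) R))
    (hh : DifferentiableOn ℂ h (ball (0 : ℂ) R \ {z | h z = 0})) (hp : Differentiable ℂ p)
    {ε : ℝ} (hb : ∀ ζ ∈ sphere (0 : ℂ) R, (h ζ).re - (p ζ).re ≤ ε) :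
    ∀ z ∈ closedBall (0 : ℂ) R, (h z).re - (p z).re ≤ ε := by
  set U : Set ℂ := ball (0 : ℂ) R \ {z | h z = 0} with hU
  have hUo : IsOpen U := by
    have : U = ball (0 : ℂ) R ∩ h ⁻¹' ({0}ᶜ) := by
      ext z; simp [hU]
    rw [this]
    exact (hc.mono ball_subset_closedBall).isOpen_inter_preimage isOpen_ball isOpen_compl_singleton
  have hUb : U ⊆ closedBall (0 : ℂ) R := fun z hz => ball_subset_closedBall hz.1
  have hUc : closure U ⊆ closedBall (0 : ℂ) R := closure_minimal hUb isClosed_closedBall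
  have hbd : Bornology.IsBounded U := isBounded_closedBall.subset hUb
  obtain ⟨M, hM⟩ := (isCompact_closedBall (0 : ℂ) R).exists_bound_of_continuousOn hc
  -- step A
  have hA : ∀ z ∈ U, (h z).re - (p z).re ≤ ε := by
    intro z hz
    by_contra hcon
    push Not at hcon
    set a : ℝ := (h z).re - (p z).re - ε with ha
    have ha0 : 0 < a := by linarith
    have hz0 : 0 < ‖h z‖ := norm_pos_iff.mpr hz.2
    have hn : ∀ n : ℕ, Real.exp (n * a) * ‖h z‖ ≤ max M 0 := by
      intro n
      have hd : DiffContOnCl ℂ (fun w => Complex.exp (n * (h w - p w - ε)) * h w) U := by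
        refine ⟨?_, ?_⟩
        · exact (((hh.sub hp.differentiableOn).sub (differentiableOn_const _)).const_mul _).cexp.mul
            hh
        · have hcc := hc.mono hUc
          exact (((hcc.sub hp.continuous.continuousOn).sub continuousOn_const).const_smul
            (n : ℂ)).cexp.mul hcc
      have := Complex.norm_le_of_forall_mem_frontier_norm_le (C := max M 0) hbd hd ?_
        (subset_closure hz)
      · rw [norm_mul, Complex.norm_exp] at this
        have e1 : ((n : ℂ) * (h z - p z - ε)).re = n * a := by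
          rw [ha]
          simp
        rw [e1] at this
        exact this
      · intro w hw
        have hwc : w ∈ closedBall (0 : ℂ) R := hUc (frontier_subset_closure hw)
        by_cases hw0 : h w = 0
        · simp [hw0]
        · have hws : w ∈ sphere (0 : ℂ) R := by
            by_contra hns
            have hwb : w ∈ ball (0 : ℂ) R := by
              rw [mem_ball]
              exact lt_of_le_of_ne (mem_closedBall.mp hwc) hns
            have : w ∈ U := ⟨hwb, hw0⟩
            have h2 := hw.2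
            rw [hUo.interior_eq] at h2
            exact h2 this
          rw [norm_mul, Complex.norm_exp]
          have e1 : ((n : ℂ) * (h w - p w - ε)).re = n * ((h w).re - (p w).re - ε) := by simp
          rw [e1]
          have e2 : Real.exp (n * ((h w).re - (p w).re - ε)) ≤ 1 := by
            rw [Real.exp_le_one_iff]
            have := hb w hws
            have : (0 : ℝ) ≤ n := Nat.cast_nonneg n
            nlinarith [hb w hws]
          calc Real.exp (n * ((h w).re - (p w).re - ε)) * ‖h w‖ ≤ 1 * M := by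
                apply mul_le_mul e2 (hM w hwc) (norm_nonneg _) zero_le_one
            _ ≤ max M 0 := by rw [one_mul]; exact le_max_left _ _
    obtain ⟨n, hn1⟩ := exists_nat_gt (max M 0 / (a * ‖h z‖))
    have h1 := hn n
    have h2 : (n : ℝ) * a + 1 ≤ Real.exp (n * a) := Real.add_one_le_exp _
    rw [div_lt_iff₀ (mul_pos ha0 hz0)] at hn1
    nlinarith
  -- step B
  have hcl : IsClosed {z ∈ closedBall (0 : ℂ) R | (h z).re - (p z).re ≤ ε} := by
    have hcr : ContinuousOn (fun z => (h z).re - (p z).re) (closedBall (0 : ℂ) R) :=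
      (Complex.continuous_re.comp_continuousOn hc).sub
        (Complex.continuous_re.comp hp.continuous).continuousOn
    exact hcr.preimage_isClosed_of_isClosed isClosed_closedBall isClosed_Iic
  have hB : ∀ z ∈ closure U, (h z).re - (p z).re ≤ ε := by
    intro z hz
    exact (closure_minimal (fun w hw => ⟨hUb hw, hA w hw⟩ :
      U ⊆ {z ∈ closedBall (0 : ℂ) R | (h z).re - (p z).re ≤ ε}) hcl hz).2
  -- step C
  intro z hz
  by_cases hzs : z ∈ sphere (0 : ℂ) R
  · exact hb z hzs
  have hzb : z ∈ ball (0 : ℂ) R := by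
    rw [mem_ball]
    exact lt_of_le_of_ne (mem_closedBall.mp hz) hzs
  by_cases hzU : z ∈ closure U
  · exact hB z hzU
  set O : Set ℂ := ball (0 : ℂ) R \ closure U with hO
  have hOo : IsOpen O := isOpen_ball.sdiff isClosed_closure
  have hO0 : ∀ w ∈ O, h w = 0 := by
    intro w hw
    by_contra hw0
    exact hw.2 (subset_closure ⟨hw.1, hw0⟩)
  have hOb : O ⊆ closedBall (0 : ℂ) R := fun w hw => ball_subset_closedBall hw.1
  have hOc : closure O ⊆ closedBall (0 : ℂ) R := closure_minimal hOb isClosed_closedBall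
  have hcl0 : IsClosed {z ∈ closedBall (0 : ℂ) R | h z = 0} :=
    hc.preimage_isClosed_of_isClosed isClosed_closedBall isClosed_singleton
  have hO0' : ∀ w ∈ closure O, h w = 0 := fun w hw =>
    (closure_minimal (fun w hw => ⟨hOb hw, hO0 w hw⟩ :
      O ⊆ {z ∈ closedBall (0 : ℂ) R | h z = 0}) hcl0 hw).2
  have hzO : z ∈ O := ⟨hzb, hzU⟩
  have hd : DiffContOnCl ℂ (fun w => Complex.exp (-p w - ε)) O :=
    ((hp.neg.sub (differentiable_const _)).cexp).diffContOnCl
  have := Complex.norm_le_of_forall_mem_frontier_norm_le (C := 1)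
    (isBounded_closedBall.subset hOb) hd ?_ (subset_closure hzO)
  · rw [Complex.norm_exp, Real.exp_le_one_iff] at this
    rw [hO0 z hzO]
    simp at this ⊢
    linarith
  · intro w hw
    rw [Complex.norm_exp, Real.exp_le_one_iff]
    have hw0 : h w = 0 := hO0' w (frontier_subset_closure hw)
    have hwc : w ∈ closedBall (0 : ℂ) R := hOc (frontier_subset_closure hw)
    have hw1 : (h w).re - (p w).re ≤ ε := by
      by_cases hws : w ∈ sphere (0 : ℂ) R
      · exact hb w hws
      · apply hB
        by_contra hwU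
        have hwb : w ∈ ball (0 : ℂ) R := by
          rw [mem_ball]
          exact lt_of_le_of_ne (mem_closedBall.mp hwc) hws
        have h2 := hw.2
        rw [hOo.interior_eq] at h2
        exact h2 ⟨hwb, hwU⟩
    rw [hw0] at hw1
    simp at hw1 ⊢
    linarith

/-- The real part of a continuous function which is holomorphic off its zero set is the real part
of its Herglotz integral. -/
theorem re_eq_herglotz {R : ℝ} (hR : 0 < R) {h : ℂ → ℂ}
    (hc : ContinuousOn h (closedBall (0 : ℂ) R))
    (hh : DifferentiableOn ℂ h (ball (0 : ℂ) R \ {z | h z = 0})) {w : ℂ}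
    (hw : w ∈ ball (0 : ℂ) R) :
    (h w).re = (Real.circleAverage
      (fun ζ => herglotzRieszKernel 0 w ζ • (((h ζ).re : ℝ) : ℂ)) 0 R).re := by
  have hcs : ContinuousOn (fun ζ => (h ζ).re) (sphere (0 : ℂ) |R|) := by
    rw [abs_of_pos hR]
    exact Complex.continuous_re.comp_continuousOn (hc.mono sphere_subset_closedBall)
  have hci : CircleIntegrable (fun ζ => (h ζ).re) 0 R := hcs.circleIntegrable'
  rw [re_circleAverage_herglotzRieszKernel_smul hci hw, ← poissonKernel_eq_re_herglotzRieszKernel]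
  refine eq_of_abs_sub_le_all fun δ hδ => ?_
  obtain ⟨p, hp⟩ := exists_poly_re_approx hR (hc.mono sphere_subset_closedBall)
    (half_pos hδ)
  have hpd : Differentiable ℂ (fun z => p.eval z) := p.differentiable
  have h1 : (h w).re - (p.eval w).re ≤ δ / 2 :=
    re_sub_le hc hh hpd (fun ζ hζ => (abs_le.mp (hp ζ hζ)).2) w (ball_subset_closedBall hw)
  have h2 : (p.eval w).re - (h w).re ≤ δ / 2 := by
    have := re_sub_le (h := fun z => -h z) (p := fun z => -p.eval z) hc.neg (by
      have : {z : ℂ | -h z = 0} = {z : ℂ | h z = 0} := by ext z; simp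
      rw [this]
      exact hh.neg) hpd.neg (ε := δ / 2) (fun ζ hζ => by
        have := (abs_le.mp (hp ζ hζ)).1
        simp only [Complex.neg_re]
        linarith) w (ball_subset_closedBall hw)
    simp only [Complex.neg_re] at this
    linarith
  have hpc : DiffContOnCl ℂ (fun z => p.eval z) (ball (0 : ℂ) R) := hpd.diffContOnCl
  have h3 := hpc.circleAverage_poissonKernel_smul hw
  have hkc : ContinuousOn (poissonKernel 0 w) (sphere (0 : ℂ) |R|) := by
    rw [poissonKernel_eq_re_herglotzRieszKernel]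
    exact Complex.continuous_re.comp_continuousOn (continuousOn_herglotzRieszKernel_sphere hw)
  have hpcs : ContinuousOn (fun ζ => (p.eval ζ).re) (sphere (0 : ℂ) |R|) :=
    (Complex.continuous_re.comp hpd.continuous).continuousOn
  have h4 : (p.eval w).re = Real.circleAverage
      (poissonKernel 0 w • fun ζ => (p.eval ζ).re) 0 R := by
    have hint : CircleIntegrable (poissonKernel 0 w • fun z => p.eval z) 0 R :=
      (hkc.smul hpd.continuous.continuousOn).circleIntegrable'
    have := Complex.reCLM.circleAverage_comp_comm hint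
    rw [h3] at this
    rw [show (p.eval w).re = Complex.reCLM (p.eval w) from rfl, ← this]
    congr 1
    ext ζ
    simp
  have h5 : |Real.circleAverage (poissonKernel 0 w • fun ζ => (h ζ).re) 0 R
      - Real.circleAverage (poissonKernel 0 w • fun ζ => (p.eval ζ).re) 0 R| ≤ δ / 2 := by
    have i1 : CircleIntegrable (poissonKernel 0 w • fun ζ => (h ζ).re) 0 R :=
      (hkc.smul hcs).circleIntegrable'
    have i2 : CircleIntegrable (poissonKernel 0 w • fun ζ => (p.eval ζ).re) 0 R :=
      (hkc.smul hpcs).circleIntegrable'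
    have i3 : CircleIntegrable (fun ζ => poissonKernel 0 w ζ * (δ / 2)) 0 R :=
      (hkc.mul continuousOn_const).circleIntegrable'
    rw [← Real.circleAverage_sub i1 i2]
    have hone : Real.circleAverage (fun ζ => poissonKernel 0 w ζ * (δ / 2)) 0 R = δ / 2 := by
      have hd1 : DiffContOnCl ℂ (fun _ : ℂ => ((δ / 2 : ℝ) : ℂ)) (ball (0 : ℂ) R) :=
        diffContOnCl_const
      have h6 := hd1.circleAverage_poissonKernel_smul hw
      have hint : CircleIntegrable (poissonKernel 0 w • fun _ : ℂ => ((δ / 2 : ℝ) : ℂ)) 0 R :=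
        (hkc.smul continuousOn_const).circleIntegrable'
      have := Complex.reCLM.circleAverage_comp_comm hint
      rw [h6] at this
      have h7 : Complex.reCLM ((δ / 2 : ℝ) : ℂ) = δ / 2 := Complex.ofReal_re _
      rw [h7] at this
      refine Eq.trans ?_ this
      congr 1
      funext ζ
      show poissonKernel 0 w ζ * (δ / 2)
        = Complex.reCLM (poissonKernel 0 w ζ • ((δ / 2 : ℝ) : ℂ))
      rw [map_smul, h7, smul_eq_mul]
    refine (Real.abs_circleAverage_le_circleAverage_abs).trans ?_
    rw [← hone]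
    refine Real.circleAverage_mono (i1.sub i2).abs i3 fun ζ hζ => ?_
    rw [abs_of_pos hR] at hζ
    have hk0 : 0 ≤ poissonKernel 0 w ζ := by
      rw [poissonKernel_def]
      have e1 : ‖ζ - 0‖ = R := by rw [sub_zero]; exact mem_sphere_zero_iff_norm.mp hζ
      have e2 : ‖w - 0‖ < R := by rw [sub_zero]; exact mem_ball_zero_iff.mp hw
      rw [e1]
      refine div_nonneg ?_ (sq_nonneg _)
      have := norm_nonneg (w - 0)
      nlinarith
    show |poissonKernel 0 w ζ * (h ζ).re - poissonKernel 0 w ζ * (p.eval ζ).re|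
      ≤ poissonKernel 0 w ζ * (δ / 2)
    rw [← mul_sub, abs_mul, abs_of_nonneg hk0]
    exact mul_le_mul_of_nonneg_left (hp ζ hζ) hk0
  rw [← h4] at h5
  rw [abs_le] at h5 ⊢
  constructor <;> linarith [h5.1, h5.2]

/-- A real valued function which is complex differentiable near a point is constant near it. -/
theorem eventually_const_of_im_eq_zero {f : ℂ → ℂ} {z₀ : ℂ} (hf : AnalyticAt ℂ f z₀)
    (hre : ∀ᶠ z in 𝓝 z₀, (f z).re = 0) : ∀ᶠ z in 𝓝 z₀, f z = f z₀ := by
  rcases hf.eventually_constant_or_nhds_le_map_nhds with h | h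
  · exact h
  · exfalso
    have h1 : {w : ℂ | w.re = 0} ∈ 𝓝 (f z₀) := h hre
    obtain ⟨r, hr, hsub⟩ := Metric.mem_nhds_iff.mp h1
    have h2 : f z₀ + ((r / 2 : ℝ) : ℂ) ∈ ball (f z₀) r := by
      rw [mem_ball, dist_eq_norm, add_sub_cancel_left, Complex.norm_real, Real.norm_eq_abs,
        abs_of_pos (half_pos hr)]
      exact half_lt_self hr
    have h3 := hsub h2
    have h4 : (f z₀).re = 0 := hre.self_of_nhds
    simp only [mem_ofPred_eq, Complex.add_re, Complex.ofReal_re, h4] at h3
    linarith

/-- Rado's theorem on a disc with centre 0. -/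
theorem rado_ball {R : ℝ} (hR : 0 < R) {h : ℂ → ℂ}
    (hc : ContinuousOn h (closedBall (0 : ℂ) R))
    (hh : DifferentiableOn ℂ h (ball (0 : ℂ) R \ {z | h z = 0})) :
    DifferentiableOn ℂ h (ball (0 : ℂ) R) := by
  by_cases hz : ∀ z ∈ ball (0 : ℂ) R, h z = 0
  · exact (differentiableOn_const (0 : ℂ)).congr hz
  push Not at hz
  obtain ⟨z₀, hz₀, hz₀'⟩ := hz
  set H1 : ℂ → ℂ := fun w => Real.circleAverage
    (fun ζ => herglotzRieszKernel 0 w ζ • (((h ζ).re : ℝ) : ℂ)) 0 R with hH1
  set H2 : ℂ → ℂ := fun w => Real.circleAverage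
    (fun ζ => herglotzRieszKernel 0 w ζ • (((-I * h ζ).re : ℝ) : ℂ)) 0 R with hH2
  have hcs : ContinuousOn h (sphere (0 : ℂ) |R|) := by
    rw [abs_of_pos hR]; exact hc.mono sphere_subset_closedBall
  have a1 : AnalyticOnNhd ℂ H1 (ball (0 : ℂ) R) :=
    analyticOnNhd_circleAverage_herglotzRieszKernel_smul
      ((Complex.continuous_ofReal.comp_continuousOn
        (Complex.continuous_re.comp_continuousOn hcs)).circleIntegrable')
  have a2 : AnalyticOnNhd ℂ H2 (ball (0 : ℂ) R) :=
    analyticOnNhd_circleAverage_herglotzRieszKernel_smul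
      ((Complex.continuous_ofReal.comp_continuousOn
        (Complex.continuous_re.comp_continuousOn
          (continuousOn_const.mul hcs))).circleIntegrable')
  have e1 : ∀ w ∈ ball (0 : ℂ) R, (h w).re = (H1 w).re := fun w hw => re_eq_herglotz hR hc hh hw
  have e2 : ∀ w ∈ ball (0 : ℂ) R, (h w).im = (H2 w).re := by
    intro w hw
    have hset : {z : ℂ | -I * h z = 0} = {z : ℂ | h z = 0} := by
      ext z; simp
    have := re_eq_herglotz hR (h := fun z => -I * h z) (continuousOn_const.mul hc) (by
      rw [hset]; exact hh.const_mul _) hw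
    rw [← this]
    simp
  -- h = A + conj B
  set B : ℂ → ℂ := fun w => (H1 w - I * H2 w) / 2 with hB
  have aB : AnalyticOnNhd ℂ B (ball (0 : ℂ) R) :=
    (a1.sub (analyticOnNhd_const.mul a2)).div analyticOnNhd_const fun _ _ => two_ne_zero
  have hdec : ∀ w ∈ ball (0 : ℂ) R, h w = (H1 w + I * H2 w) / 2 + starRingEnd ℂ (B w) := by
    intro w hw
    conv_lhs => rw [← Complex.re_add_im (h w), e1 w hw, e2 w hw, Complex.re_eq_add_conj,
      Complex.re_eq_add_conj]
    simp only [hB, map_div₀, map_sub, map_mul, Complex.conj_I, map_ofNat]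
    ring
  -- near z₀
  have hUo : IsOpen (ball (0 : ℂ) R \ {z | h z = 0}) := by
    have : ball (0 : ℂ) R \ {z | h z = 0} = ball (0 : ℂ) R ∩ h ⁻¹' ({0}ᶜ) := by
      ext z; simp
    rw [this]
    exact (hc.mono ball_subset_closedBall).isOpen_inter_preimage isOpen_ball isOpen_compl_singleton
  have hha : AnalyticAt ℂ h z₀ := (hh.analyticOnNhd hUo) z₀ ⟨hz₀, hz₀'⟩
  have hAa : AnalyticAt ℂ (fun w => (H1 w + I * H2 w) / 2) z₀ :=
    ((a1 z₀ hz₀).add (analyticAt_const.mul (a2 z₀ hz₀))).div analyticAt_const two_ne_zero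
  have hCa : AnalyticAt ℂ (fun w => h w - (H1 w + I * H2 w) / 2) z₀ := hha.sub hAa
  have hCB : ∀ᶠ w in 𝓝 z₀, h w - (H1 w + I * H2 w) / 2 = starRingEnd ℂ (B w) := by
    filter_upwards [isOpen_ball.mem_nhds hz₀] with w hw
    rw [hdec w hw]; ring
  have hBc1 : ∀ᶠ w in 𝓝 z₀, (h w - (H1 w + I * H2 w) / 2) - B w
      = (h z₀ - (H1 z₀ + I * H2 z₀) / 2) - B z₀ :=
    eventually_const_of_im_eq_zero (f := fun w => (h w - (H1 w + I * H2 w) / 2) - B w)
      (hCa.sub (aB z₀ hz₀)) (by
        filter_upwards [hCB] with w hw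
        rw [hw]; simp)
  have hBc2 : ∀ᶠ w in 𝓝 z₀, I * ((h w - (H1 w + I * H2 w) / 2) + B w)
      = I * ((h z₀ - (H1 z₀ + I * H2 z₀) / 2) + B z₀) :=
    eventually_const_of_im_eq_zero
      (f := fun w => I * ((h w - (H1 w + I * H2 w) / 2) + B w))
      (analyticAt_const.mul (hCa.add (aB z₀ hz₀))) (by
        filter_upwards [hCB] with w hw
        rw [hw]; simp)
  have hBconst : ∀ᶠ w in 𝓝 z₀, B w = B z₀ := by
    filter_upwards [hBc1, hBc2] with w h1 h2
    have h3 := mul_left_cancel₀ I_ne_zero h2
    linear_combination (h3 - h1) / 2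
  have hBall : EqOn B (fun _ => B z₀) (ball (0 : ℂ) R) :=
    aB.eqOn_of_preconnected_of_eventuallyEq analyticOnNhd_const
      (convex_ball _ _).isPreconnected hz₀ hBconst
  have hfin : EqOn h (fun w => (H1 w + I * H2 w) / 2 + starRingEnd ℂ (B z₀)) (ball (0 : ℂ) R) := by
    intro w hw
    rw [hdec w hw, hBall hw]
  exact (((a1.differentiableOn.add (a2.differentiableOn.const_mul I)).div_const 2).add_const
    _).congr hfin

/-- **Rado's theorem.** -/
theorem rado {D : Set ℂ} (hD : IsOpen D) {h : ℂ → ℂ} (hc : ContinuousOn h D)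
    (hh : DifferentiableOn ℂ h (D \ {z | h z = 0})) : DifferentiableOn ℂ h D := by
  intro z hz
  obtain ⟨r, hr, hsub⟩ := Metric.isOpen_iff.mp hD z hz
  have hsub' : closedBall z (r / 2) ⊆ D :=
    (closedBall_subset_ball (half_lt_self hr)).trans hsub
  have hmaps : MapsTo (fun w : ℂ => w + z) (closedBall (0 : ℂ) (r / 2)) (closedBall z (r / 2)) := by
    intro w hw
    simpa [mem_closedBall, dist_eq_norm] using hw
  have h1 : DifferentiableOn ℂ (fun w => h (w + z)) (ball (0 : ℂ) (r / 2)) := by
    apply rado_ball (half_pos hr)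
    · exact hc.comp (continuous_id.add continuous_const).continuousOn
        fun w hw => hsub' (hmaps hw)
    · have : DifferentiableOn ℂ (fun w : ℂ => w + z) (ball (0 : ℂ) (r / 2) \ {w | h (w + z) = 0}) :=
        (differentiable_id.add_const z).differentiableOn
      exact hh.comp this fun w hw => ⟨hsub' (hmaps (ball_subset_closedBall hw.1)), hw.2⟩
  have h2 : DifferentiableAt ℂ (fun w => h (w + z)) 0 :=
    h1.differentiableAt (isOpen_ball.mem_nhds (mem_ball_self (half_pos hr)))
  have h3 : DifferentiableAt ℂ (fun w => (fun u => h (u + z)) (w - z)) z := by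
    have h4 : DifferentiableAt ℂ (fun w => h (w + z)) ((fun w : ℂ => w - z) z) := by
      simp only [sub_self]; exact h2
    exact DifferentiableAt.comp (g := fun w => h (w + z)) (f := fun w : ℂ => w - z) z h4
      ((differentiable_id.sub_const z) z)
  have h5 : (fun w => (fun u => h (u + z)) (w - z)) = h := by
    funext w; simp
  rw [h5] at h3
  exact h3.differentiableWithinAt

/-- A continuous function on a preconnected open set which is holomorphic off its zero set and
not identically zero has a countable zero set, whose points are isolated. -/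
theorem rado_countable {D : Set ℂ} (hD : IsOpen D) (hDc : IsPreconnected D) {h : ℂ → ℂ}
    (hc : ContinuousOn h D) (hh : DifferentiableOn ℂ h (D \ {z | h z = 0}))
    {z₀ : ℂ} (hz₀ : z₀ ∈ D) (hne : h z₀ ≠ 0) :
    (D ∩ {z | h z = 0}).Countable ∧ ∀ z ∈ D, ∀ᶠ w in 𝓝[≠] z, h w ≠ 0 := by
  have ha : AnalyticOnNhd ℂ h D := (rado hD hc hh).analyticOnNhd hD
  have hiso : ∀ z ∈ D, ∀ᶠ w in 𝓝[≠] z, h w ≠ 0 := by
    intro z hz
    rcases (ha z hz).eventually_eq_zero_or_eventually_ne_zero with h1 | h1
    · exact absurd (ha.eqOn_zero_of_preconnected_of_eventuallyEq_zero hDc hz h1 hz₀) hne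
    · exact h1
  refine ⟨?_, hiso⟩
  apply IsLindelof.countable (HereditarilyLindelofSpace.isLindelof _)
  rw [discreteTopology_subtype_iff]
  intro x hx
  rw [← Filter.empty_mem_iff_bot, Filter.mem_inf_iff]
  exact ⟨{w | h w ≠ 0}, hiso x hx.1, D ∩ {z | h z = 0}, Filter.mem_principal_self _, by
    ext w
    simp only [mem_empty_iff_false, mem_inter_iff, false_iff]
    rintro ⟨h1, _, h2⟩
    exact h1 h2⟩

end Pool.Agent.Work.MP_fe3720_an
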