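import Pool.Agent.Work.MP_fe3720_an.Push
import Pool.Agent.Work.MP_fe3720_an.LineB

/-! # Module ParA: flows and compositions of flows

`flowMap φ s = φ ∘ (shift by s) ∘ φ⁻¹` and `Psi φ t = flowMap (φ 0) (t 0) ∘ flowMap (φ 1) (t 1) ∘ ⋯` (Base).

* `flow_zero`, `flow_add`: immediate.
* `flow_hasDerivAt`: `f (flowMap φ s x) = (φ.pull f)(z, w + s)` with `(z,w) = φ⁻¹ x`; use `hv.hasDerivAt`, and
  `push_apply`.
* `flow_aut`: `exists_aff` with `a = 1` gives the shift; compose `φ.comp (τ.comp φ.symm)`.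
* `flow_comp`: if `A ∈ Aut` then `A (flowMap φ s x) = flowMap (A.comp φ) s (A x)`.
* `Psi_zero`, `Psi_single`: at `t = 0` all the factors are the identity; `Psi φ (update 0 i s) x =
  flowMap (φ i) s x`. Induction on `r` with `Fin.cases` (`Fin.tail`, `Function.update` at `0` and at `succ`).
* `Psi_update`: induction on `r`. For `i = 0`: `flowMap (φ 0) (t 0 + s) = flowMap (φ 0) s ∘ flowMap (φ 0) (t 0)`
  (`flow_add` and commutativity), `α = φ 0`. For `i = i'.succ`: by induction
  `Psi (tail φ) (update (tail t) i' (t i + s)) x = flowMap α' s (Psi (tail φ) (tail t) x)`; apply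
  `A = flowMap (φ 0) (t 0) ∈ Aut` (`flow_aut`) and `flow_comp`: `α = A.comp α'`.
* `Psi_cont`: `(t, x) ↦ Psi φ t x` is continuous: induction, composition of continuous maps. -/

namespace Pool.Agent.MP_fe3720

open Topology

variable {Y : Type} [TopologicalSpace Y] {OY : Subalgebra ℂ (Y → ℂ)}
  {O : Subalgebra ℂ (Y × ℂ → ℂ)}

theorem flow_zero (φ : HolAut O) (x : Y × ℂ) : flowMap φ 0 x = x := by
  unfold flowMap
  rw [add_zero]
  exact φ.apply_symm x

theorem flow_add (φ : HolAut O) (s t : ℂ) (x : Y × ℂ) :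
    flowMap φ (s + t) x = flowMap φ s (flowMap φ t x) := by
  unfold flowMap
  rw [HolAut.symm_apply_self]
  congr 2
  ring

theorem flow_cont (φ : HolAut O) : Continuous (fun p : ℂ × (Y × ℂ) => flowMap φ p.1 p.2) := by
  unfold flowMap
  have h1 : Continuous (fun p : ℂ × (Y × ℂ) => φ.symm p.2) :=
    φ.toHomeo.symm.continuous.comp continuous_snd
  have h2 : Continuous (fun p : ℂ × (Y × ℂ) => ((φ.symm p.2).1, (φ.symm p.2).2 + p.1)) :=
    (continuous_fst.comp h1).prodMk ((continuous_snd.comp h1).add continuous_fst)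
  exact φ.toHomeo.continuous.comp h2

theorem flow_hasDerivAt {v : Derivation ℂ O O} (hv : IsDw v) (φ : HolAut O) (f : O)
    (x : Y × ℂ) (s : ℂ) :
    HasDerivAt (fun s => f (flowMap φ s x)) ((φ.push v f) (flowMap φ s x)) s := by
  unfold flowMap
  rw [HolAut.push_apply]
  have h := hv.hasDerivAt (φ.pull f) (φ.symm x).1 ((φ.symm x).2 + s)
  exact h.comp_const_add (φ.symm x).2 s

theorem flow_aut (hL : IsLine OY O) (φ : HolAut O) (s : ℂ) :
    ∃ α : HolAut O, ∀ x : Y × ℂ, α x = flowMap φ s x := by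
  obtain ⟨τ, hτ⟩ := exists_aff hL 1 one_ne_zero s
  refine ⟨φ.comp (τ.comp φ.symm), fun x => ?_⟩
  rw [HolAut.comp_apply, HolAut.comp_apply, hτ, one_mul]
  rfl

theorem flow_comp (A φ : HolAut O) (s : ℂ) (x : Y × ℂ) :
    A (flowMap φ s x) = flowMap (A.comp φ) s (A x) := by
  unfold flowMap
  have h : (A.comp φ).symm (A x) = φ.symm x := by
    show φ.symm (A.symm (A x)) = φ.symm x
    rw [HolAut.symm_apply_self]
  rw [h]
  rfl

theorem Psi_zero {r : ℕ} (φ : Fin r → HolAut O) (x : Y × ℂ) : Psi φ 0 x = x := by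
  induction r with
  | zero => rfl
  | succ r ih =>
    have h := ih (Fin.tail φ)
    show flowMap (φ 0) ((0 : Fin (r + 1) → ℂ) 0)
      (Psi (Fin.tail φ) (Fin.tail (0 : Fin (r + 1) → ℂ)) x) = x
    have h2 : Fin.tail (0 : Fin (r + 1) → ℂ) = 0 := rfl
    rw [h2, h, Pi.zero_apply, flow_zero]

theorem Psi_succ {r : ℕ} (φ : Fin (r + 1) → HolAut O) (t : Fin (r + 1) → ℂ) (x : Y × ℂ) :
    Psi φ t x = flowMap (φ 0) (t 0) (Psi (Fin.tail φ) (Fin.tail t) x) := rfl

theorem Psi_single {r : ℕ} (φ : Fin r → HolAut O) (i : Fin r) (s : ℂ) (x : Y × ℂ) :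
    Psi φ (Function.update 0 i s) x = flowMap (φ i) s x := by
  induction r with
  | zero => exact i.elim0
  | succ r ih =>
    rw [Psi_succ]
    refine Fin.cases ?_ (fun i => ?_) i
    · rw [Fin.tail_update_zero]
      have h2 : Fin.tail (0 : Fin (r + 1) → ℂ) = 0 := rfl
      rw [h2, Psi_zero]
      simp
    · rw [Fin.tail_update_succ]
      have h2 : Fin.tail (0 : Fin (r + 1) → ℂ) = 0 := rfl
      rw [h2, ih (Fin.tail φ) i]
      have h3 : (Function.update (0 : Fin (r + 1) → ℂ) i.succ s) 0 = 0 := by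
        rw [Function.update_of_ne (Fin.succ_ne_zero i).symm]
        rfl
      rw [h3, flow_zero]
      rfl

theorem Psi_update (hL : IsLine OY O) {r : ℕ} (φ : Fin r → HolAut O) (i : Fin r)
    (t : Fin r → ℂ) : ∃ α : HolAut O, ∀ (s : ℂ) (x : Y × ℂ),
      Psi φ (Function.update t i (t i + s)) x = flowMap α s (Psi φ t x) := by
  induction r with
  | zero => exact i.elim0
  | succ r ih =>
    revert t
    refine Fin.cases (fun t => ?_) (fun i t => ?_) i
    · refine ⟨φ 0, fun s x => ?_⟩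
      rw [Psi_succ, Psi_succ, Fin.tail_update_zero, Function.update_self, ← flow_add,
        add_comm (t 0) s]
    · obtain ⟨α', hα'⟩ := ih (Fin.tail φ) i (Fin.tail t)
      obtain ⟨A, hA⟩ := flow_aut hL (φ 0) (t 0)
      refine ⟨A.comp α', fun s x => ?_⟩
      rw [Psi_succ, Psi_succ, Fin.tail_update_succ,
        Function.update_of_ne (Fin.succ_ne_zero i).symm, ← hA, ← hA, ← flow_comp]
      congr 1
      exact hα' s x

theorem Psi_cont {r : ℕ} (φ : Fin r → HolAut O) :
    Continuous (fun p : (Fin r → ℂ) × (Y × ℂ) => Psi φ p.1 p.2) := by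
  induction r with
  | zero => exact continuous_snd
  | succ r ih =>
    have h1 := ih (Fin.tail φ)
    have h2 : Continuous (fun p : (Fin (r + 1) → ℂ) × (Y × ℂ) => (Fin.tail p.1, p.2)) := by
      refine Continuous.prodMk ?_ continuous_snd
      exact continuous_pi fun i => (continuous_apply i.succ).comp continuous_fst
    have h3 := h1.comp h2
    have h4 : Continuous (fun p : (Fin (r + 1) → ℂ) × (Y × ℂ) =>
        (p.1 0, Psi (Fin.tail φ) (Fin.tail p.1) p.2)) :=
      ((continuous_apply 0).comp continuous_fst).prodMk h3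
    exact (flow_cont (φ 0)).comp h4

end Pool.Agent.MP_fe3720
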