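import Mathlib

/-! # Density property and RR-spaces: definitions

A Stein manifold is realised as a closed complex submanifold `Z` of some `ℂ^N` given by global
equations (every Stein manifold has such a realisation: Remmert's embedding theorem and Cartan's
Theorem A).  The holomorphic functions on `Z` are the limits, uniformly on compact sets, of
polynomials (by Cartan's extension theorem every holomorphic function on `Z` extends to an entire
function on `ℂ^N`, so these are all holomorphic functions). Holomorphic vector fields on a Stein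
manifold are the continuous derivations of its algebra of holomorphic functions, and the topology
of uniform convergence on compact sets of vector fields is the topology of uniform convergence on
compact sets of `D f`, for every holomorphic function `f`. -/

namespace Pool.Agent.MP_fe3720

open Topology

section General

variable {X : Type} [TopologicalSpace X]

theorem closedAlg_mul {ι : Type} (g : ι → C(X, ℂ)) {a b : X → ℂ}
    (ha : ∀ K : Set X, IsCompact K → ∀ ε > 0,
      ∃ P ∈ Algebra.adjoin ℂ (Set.range fun i => (g i : X → ℂ)), ∀ x ∈ K, ‖a x - P x‖ < ε)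
    (hb : ∀ K : Set X, IsCompact K → ∀ ε > 0,
      ∃ P ∈ Algebra.adjoin ℂ (Set.range fun i => (g i : X → ℂ)), ∀ x ∈ K, ‖b x - P x‖ < ε) :
    ∀ K : Set X, IsCompact K → ∀ ε > 0,
      ∃ P ∈ Algebra.adjoin ℂ (Set.range fun i => (g i : X → ℂ)), ∀ x ∈ K, ‖(a * b) x - P x‖ < ε := by
  intro K hK ε hε
  have hcont : ∀ P ∈ Algebra.adjoin ℂ (Set.range fun i => (g i : X → ℂ)), Continuous P := by
    intro P hP
    induction hP using Algebra.adjoin_induction with
    | mem x hx => obtain ⟨i, rfl⟩ := hx; exact (g i).continuous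
    | algebraMap r => exact continuous_const
    | add x y _ _ hx hy => exact hx.add hy
    | mul x y _ _ hx hy => exact hx.mul hy
  obtain ⟨P, hP, hPa⟩ := ha K hK 1 one_pos
  obtain ⟨C, hC⟩ := hK.exists_bound_of_continuousOn (hcont P hP).continuousOn
  obtain ⟨Q, hQ, hQb⟩ := hb K hK (ε / (2 * (|C| + 1))) (by positivity)
  obtain ⟨C', hC'⟩ := hK.exists_bound_of_continuousOn (hcont Q hQ).continuousOn
  obtain ⟨P', hP', hPa'⟩ := ha K hK (ε / (2 * (|C'| + 1))) (by positivity)
  refine ⟨P' * Q, Subalgebra.mul_mem _ hP' hQ, fun x hx => ?_⟩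
  have h1 : (a * b) x - (P' * Q) x = a x * (b x - Q x) + (a x - P' x) * Q x := by
    simp only [Pi.mul_apply]; ring
  rw [h1]
  have h2 : ‖a x‖ ≤ |C| + 1 := by
    have h3 : ‖a x‖ ≤ ‖a x - P x‖ + ‖P x‖ := by
      have := norm_add_le (a x - P x) (P x)
      simpa using this
    have := hPa x hx
    have := hC x hx
    have := le_abs_self C
    linarith
  have h4 : ‖Q x‖ ≤ |C'| + 1 := by
    have := hC' x hx
    have := le_abs_self C'
    linarith
  calc ‖a x * (b x - Q x) + (a x - P' x) * Q x‖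
      ≤ ‖a x‖ * ‖b x - Q x‖ + ‖a x - P' x‖ * ‖Q x‖ := by
        refine (norm_add_le _ _).trans ?_
        rw [norm_mul, norm_mul]
    _ ≤ (|C| + 1) * ‖b x - Q x‖ + ‖a x - P' x‖ * (|C'| + 1) := by gcongr
    _ < (|C| + 1) * (ε / (2 * (|C| + 1))) + (ε / (2 * (|C'| + 1))) * (|C'| + 1) := by
        have := hQb x hx
        have := hPa' x hx
        gcongr
    _ = ε := by field_simp; ring

theorem closedAlg_add {ι : Type} (g : ι → C(X, ℂ)) {a b : X → ℂ}
    (ha : ∀ K : Set X, IsCompact K → ∀ ε > 0,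
      ∃ P ∈ Algebra.adjoin ℂ (Set.range fun i => (g i : X → ℂ)), ∀ x ∈ K, ‖a x - P x‖ < ε)
    (hb : ∀ K : Set X, IsCompact K → ∀ ε > 0,
      ∃ P ∈ Algebra.adjoin ℂ (Set.range fun i => (g i : X → ℂ)), ∀ x ∈ K, ‖b x - P x‖ < ε) :
    ∀ K : Set X, IsCompact K → ∀ ε > 0,
      ∃ P ∈ Algebra.adjoin ℂ (Set.range fun i => (g i : X → ℂ)), ∀ x ∈ K, ‖(a + b) x - P x‖ < ε := by
  intro K hK ε hε
  obtain ⟨P, hP, hPa⟩ := ha K hK (ε / 2) (by positivity)
  obtain ⟨Q, hQ, hQb⟩ := hb K hK (ε / 2) (by positivity)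
  refine ⟨P + Q, Subalgebra.add_mem _ hP hQ, fun x hx => ?_⟩
  have h1 : (a + b) x - (P + Q) x = (a x - P x) + (b x - Q x) := by
    simp only [Pi.add_apply]; ring
  rw [h1]
  have := norm_add_le (a x - P x) (b x - Q x)
  have := hPa x hx
  have := hQb x hx
  linarith

/-- The algebra of the functions on `X` that are limits, uniformly on compact sets, of polynomials
in the continuous functions `g i`. -/
def closedAlg {ι : Type} (g : ι → C(X, ℂ)) : Subalgebra ℂ (X → ℂ) where
  carrier := {f | ∀ K : Set X, IsCompact K → ∀ ε > 0,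
    ∃ P ∈ Algebra.adjoin ℂ (Set.range fun i => (g i : X → ℂ)), ∀ x ∈ K, ‖f x - P x‖ < ε}
  mul_mem' := fun ha hb => closedAlg_mul g ha hb
  one_mem' := fun _ _ _ hε => ⟨1, Subalgebra.one_mem _, fun _ _ => by simpa using hε⟩
  add_mem' := fun ha hb => closedAlg_add g ha hb
  zero_mem' := fun _ _ _ hε => ⟨0, Subalgebra.zero_mem _, fun _ _ => by simpa using hε⟩
  algebraMap_mem' := fun r _ _ _ hε =>
    ⟨algebraMap ℂ (X → ℂ) r, Subalgebra.algebraMap_mem _ r, fun _ _ => by simpa using hε⟩

/-- elements of a subalgebra of `X → ℂ` are functions on `X` -/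
instance instCoeFunSub (O : Subalgebra ℂ (X → ℂ)) : CoeFun O (fun _ => X → ℂ) :=
  ⟨fun f => (f : X → ℂ)⟩

/-- A holomorphic automorphism of `X`: a homeomorphism such that composition with it and with its
inverse preserves the algebra `O` of holomorphic functions. -/
structure HolAut (O : Subalgebra ℂ (X → ℂ)) where
  /-- the underlying homeomorphism -/
  toHomeo : X ≃ₜ X
  mem : ∀ f ∈ O, (fun x => f (toHomeo x)) ∈ O
  mem_symm : ∀ f ∈ O, (fun x => f (toHomeo.symm x)) ∈ O

instance (O : Subalgebra ℂ (X → ℂ)) : CoeFun (HolAut O) (fun _ => X → X) :=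
  ⟨fun φ => φ.toHomeo⟩

/-- The automorphism group acts transitively on pairs of distinct points. -/
def IsTwoTransitive (O : Subalgebra ℂ (X → ℂ)) : Prop :=
  ∀ x y x' y' : X, x ≠ y → x' ≠ y' → ∃ φ : HolAut O, φ x = x' ∧ φ y = y'

end General

section Submanifolds

variable {N : ℕ}

/-- The entire functions on `ℂ^N`: limits of polynomials, uniformly on compact sets. -/
noncomputable def entire (N : ℕ) : Subalgebra ℂ ((Fin N → ℂ) → ℂ) :=
  closedAlg (fun i : Fin N => ⟨fun z => z i, continuous_apply i⟩)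

/-- `Z` is a closed complex submanifold of `ℂ^N` of pure dimension `d`, given by global
equations: it is the common zero set of the entire functions vanishing on it, and near each of
its points it is the zero set of `N - d` such functions with independent differentials. -/
structure IsSteinSubmanifold (N d : ℕ) (Z : Set (Fin N → ℂ)) : Prop where
  le : d ≤ N
  zeroSet : ∀ p, p ∉ Z → ∃ F ∈ entire N, (∀ z ∈ Z, F z = 0) ∧ F p ≠ 0
  smooth : ∀ p ∈ Z, ∃ F : Fin (N - d) → (Fin N → ℂ) → ℂ, (∀ i, F i ∈ entire N) ∧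
    (∀ i, ∀ z ∈ Z, F i z = 0) ∧ LinearIndependent ℂ (fun i => fderiv ℂ (F i) p) ∧
    ∃ U ∈ 𝓝 p, ∀ z ∈ U, (∀ i, F i z = 0) → z ∈ Z

/-- Holomorphic functions on `Z`: limits of polynomials, uniformly on compact sets. -/
noncomputable def hol (Z : Set (Fin N → ℂ)) : Subalgebra ℂ (Z → ℂ) :=
  closedAlg (fun i : Fin N =>
    ⟨fun z : Z => z.1 i, (continuous_apply i).comp continuous_subtype_val⟩)

/-- Holomorphic functions on the Stein manifold `Z × ℂ`, a submanifold of `ℂ^N × ℂ`. -/
noncomputable def holLine (Z : Set (Fin N → ℂ)) : Subalgebra ℂ (Z × ℂ → ℂ) :=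
  closedAlg (Sum.elim
    (fun i : Fin N => (⟨fun p : Z × ℂ => p.1.1 i,
      (continuous_apply i).comp (continuous_subtype_val.comp continuous_fst)⟩ : C(Z × ℂ, ℂ)))
    (fun _ : Unit => (⟨fun p : Z × ℂ => p.2, continuous_snd⟩ : C(Z × ℂ, ℂ))))

end Submanifolds

end Pool.Agent.MP_fe3720

namespace Pool.Agent.DensityRR

open Topology Pool.Agent.MP_fe3720

variable {X : Type} [TopologicalSpace X]

/-- The derivations of the algebra `O` of holomorphic functions on `X`. -/
def Der (O : Subalgebra ℂ (X → ℂ)) : Type := Derivation ℂ O O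

/-- the derivations form a Lie algebra, with the commutator as bracket -/
noncomputable instance instLieRingDer (O : Subalgebra ℂ (X → ℂ)) : LieRing (Der O) :=
  (Derivation.instLieRing : LieRing (Derivation ℂ O O))

noncomputable instance instLieAlgebraDer (O : Subalgebra ℂ (X → ℂ)) : LieAlgebra ℂ (Der O) :=
  (Derivation.instLieAlgebra : LieAlgebra ℂ (Derivation ℂ O O))

/-- the function `D f` -/
def Der.ap {O : Subalgebra ℂ (X → ℂ)} (D : Der O) (f : O) : X → ℂ :=
  ((Derivation.instFunLike : FunLike (Derivation ℂ O O) O O).coe D f).1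

/-- A derivation of the algebra `O` of holomorphic functions is a holomorphic vector field if it
is continuous for the topology of uniform convergence on compact sets. -/
def IsVF {O : Subalgebra ℂ (X → ℂ)} (D : Der O) : Prop :=
  ∀ K : Set X, IsCompact K → ∀ ε > 0, ∃ K' : Set X, IsCompact K' ∧ ∃ δ > 0,
    ∀ f : O, (∀ x ∈ K', ‖f.1 x‖ < δ) → ∀ x ∈ K, ‖D.ap f x‖ < ε

/-- A holomorphic vector field `D` is complete: through every point there is an integral curve
defined for all complex times. -/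
def IsCompleteVF {O : Subalgebra ℂ (X → ℂ)} (D : Der O) : Prop :=
  IsVF D ∧ ∀ x : X, ∃ γ : ℂ → X, Continuous γ ∧ γ 0 = x ∧
    ∀ (f : O) (t : ℂ), HasDerivAt (fun s => f.1 (γ s)) (D.ap f (γ t)) t

/-- The Lie algebra generated by the complete holomorphic vector fields. -/
noncomputable def completeLie (O : Subalgebra ℂ (X → ℂ)) : LieSubalgebra ℂ (Der O) :=
  LieSubalgebra.lieSpan ℂ (Der O) {D | IsCompleteVF D}

/-- The density property: the Lie algebra generated by the complete holomorphic vector fields is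
dense in the Lie algebra of all holomorphic vector fields, for the topology of uniform convergence
on compact sets. -/
def DensityProperty (O : Subalgebra ℂ (X → ℂ)) : Prop :=
  ∀ D : Der O, IsVF D → ∀ (S : Finset O) (K : Set X), IsCompact K →
    ∀ ε > 0, ∃ U ∈ completeLie O, ∀ f ∈ S, ∀ x ∈ K, ‖D.ap f x - Der.ap U f x‖ < ε

/-- The axiom (RR1) of RR-spaces, for the set `T` of tame sets. -/
def RR1 (O : Subalgebra ℂ (X → ℂ)) (T : Set (Set X)) : Prop :=
  ∀ D ∈ T, ∀ D' ∈ T, ∀ ι : X → X, Set.MapsTo ι D D' → Set.InjOn ι D →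
    ∃ φ : HolAut O, ∀ x ∈ D, φ x = ι x

/-- The axiom (RR2) of RR-spaces, for the set `T` of tame sets. -/
def RR2 (T : Set (Set X)) : Prop :=
  ∃ ρ : X → ℝ, Continuous ρ ∧ (∀ x, 0 ≤ ρ x) ∧ (∀ c, IsCompact {x | ρ x ≤ c}) ∧
    ∃ R : ℕ → ℝ, (∀ n, 0 < R n) ∧ ¬ BddAbove (Set.range R) ∧
      ∀ D : Set X, D.Infinite → (∀ n : ℕ, {x ∈ D | ρ x ≤ R n}.encard ≤ n) → D ∈ T

/-- The axiom (RR3) of RR-spaces, for the set `T` of tame sets. -/
def RR3 (O : Subalgebra ℂ (X → ℂ)) (T : Set (Set X)) : Prop :=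
  ∀ φ : HolAut O, ∀ D ∈ T, φ '' D ∈ T

/-- The axiom (RR4) of RR-spaces: a nonzero complete holomorphic vector field with a nonconstant
first integral. -/
def RR4 (O : Subalgebra ℂ (X → ℂ)) : Prop :=
  ∃ v : Der O, IsCompleteVF v ∧ v ≠ 0 ∧ ∃ f : O, (∃ x y, f.1 x ≠ f.1 y) ∧ v.ap f = 0

/-- RR-spaces: there is a set `T` of infinite closed discrete sets with (RR1)-(RR4). -/
def IsRR (O : Subalgebra ℂ (X → ℂ)) : Prop :=
  ∃ T : Set (Set X), (∀ D ∈ T, D.Infinite ∧ IsClosed D ∧ DiscreteTopology D) ∧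
    RR1 O T ∧ RR2 T ∧ RR3 O T ∧ RR4 O

end Pool.Agent.DensityRR
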