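import Pool.Agent.Work.MP_fe3720_an.PubS

/-! # The volume density property: definitions -/

namespace Pool.Agent.DensityRR

open Topology Pool.Agent.MP_fe3720

variable {X : Type} [TopologicalSpace X]

/-- The product of a holomorphic function and a derivation. -/
noncomputable def Der.fmul {O : Subalgebra ℂ (X → ℂ)} (u : O) (D : Der O) : Der O :=
  @HSMul.hSMul O (Derivation ℂ O O) (Derivation ℂ O O) _ u D

/-- `δ` is a divergence for the holomorphic vector fields: if `ω` is a holomorphic volume form
(a nowhere vanishing holomorphic form of top degree) then the function `δ` with `L_D ω = δ(D) ω`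
(`L_D` is the Lie derivative) has these properties. -/
structure IsDivergence {O : Subalgebra ℂ (X → ℂ)} (δ : Der O → O) : Prop where
  add : ∀ D E : Der O, IsVF D → IsVF E → δ (D + E) = δ D + δ E
  fmul : ∀ (u : O) (D : Der O), IsVF D → (δ (Der.fmul u D)).1 = u.1 * (δ D).1 + D.ap u
  lie : ∀ D E : Der O, IsVF D → IsVF E → (δ ⁅D, E⁆).1 = D.ap (δ E) - E.ap (δ D)

/-- The volume density property, for the divergence `δ`: the Lie algebra generated by the complete
holomorphic vector fields of divergence zero is dense in the Lie algebra of all holomorphic vector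
fields of divergence zero, for the topology of uniform convergence on compact sets. -/
def VolumeDensity {O : Subalgebra ℂ (X → ℂ)} (δ : Der O → O) : Prop :=
  ∀ D : Der O, IsVF D → δ D = 0 → ∀ (S : Finset O) (K : Set X), IsCompact K →
    ∀ ε > 0, ∃ U ∈ LieSubalgebra.lieSpan ℂ (Der O) {W | IsCompleteVF W ∧ δ W = 0},
      ∀ f ∈ S, ∀ x ∈ K, ‖D.ap f x - Der.ap U f x‖ < ε

end Pool.Agent.DensityRR
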